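import Mathlib

/-!
# Frobenius angles of elliptic curves and their discrepancy: definitions
-/

namespace Pool.Agent.H11.STA

open MeasureTheory WeierstrassCurve Set

/-- `E` has good reduction at `p` (equivalently, `p` does not divide the conductor of `E`): a
minimal Weierstrass equation of `E` over `ℚ_p` has good reduction. -/
def GoodAt (E : WeierstrassCurve ℚ) (p : ℕ) [Fact p.Prime] : Prop :=
  ((E.baseChange ℚ_[p]).minimal ℤ_[p]).HasGoodReduction ℤ_[p]

/-- The trace of Frobenius `a_p = p + 1 - #E(𝔽_p)`, where the points are those (including the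
point at infinity) of the reduction of a minimal Weierstrass equation of `E` at `p`. -/
noncomputable def frobTrace (E : WeierstrassCurve ℚ) (p : ℕ) [Fact p.Prime] : ℤ :=
  (p : ℤ) + 1 -
    (Nat.card (((E.baseChange ℚ_[p]).minimal ℤ_[p]).reduction ℤ_[p]).toAffine.Point : ℤ)

instance factPrime (k : ℕ) : Fact (Nat.nth Nat.Prime k).Prime := ⟨Nat.prime_nth_prime k⟩

open Classical in
/-- The angle `x ∈ [0,1]` attached to the `(k+1)`-st prime `p = Nat.nth Nat.Prime k`
(so `k = 0` is the prime `2`): if `E` has good reduction at `p`, then `x = arccos(a_p/(2√p))/π`,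
that is `a_p = 2√p cos(πx)`; otherwise `x = 1/2`. -/
noncomputable def angle (E : WeierstrassCurve ℚ) (k : ℕ) : ℝ :=
  if GoodAt E (Nat.nth Nat.Prime k) then
    Real.arccos ((frobTrace E (Nat.nth Nat.Prime k) : ℝ) / (2 * √(Nat.nth Nat.Prime k : ℝ))) /
      Real.pi
  else 1 / 2

/-- The Sato-Tate measure `2 sin²(πu) du` on `[0,1]`. -/
noncomputable def satoTate : Measure ℝ :=
  (volume.restrict (Icc (0 : ℝ) 1)).withDensity
    (fun u => ENNReal.ofReal (2 * Real.sin (Real.pi * u) ^ 2))

/-- The half-open box `∏ [a_i, b_i)`. -/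
def box {s : ℕ} (a b : Fin s → ℝ) : Set (Fin s → ℝ) := Set.univ.pi fun i => Ico (a i) (b i)

open Classical in
/-- The number of `1 ≤ k ≤ K` for which the tuple `(x_k, …, x_{k+s-1})` lies in the box
`∏ [a_i, b_i)`. (The index `k` of the text is `k + 1` here.) -/
noncomputable def boxCount (E : WeierstrassCurve ℚ) {s : ℕ} (a b : Fin s → ℝ) (K : ℕ) : ℕ :=
  ((Finset.range K).filter fun k => (fun i : Fin s => angle E (k + i)) ∈ box a b).card

/-- The local discrepancy of the box `∏ [a_i, b_i)`: the absolute difference between the proportion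
of tuples in the box and its measure for the `s`-fold product of the Sato-Tate measure. -/
noncomputable def localDisc (E : WeierstrassCurve ℚ) {s : ℕ} (a b : Fin s → ℝ) (K : ℕ) : ℝ :=
  |(boxCount E a b K : ℝ) / K - (Measure.pi (fun _ : Fin s => satoTate)).real (box a b)|

/-- The extreme discrepancy `D_K^{[s]}`: supremum over all boxes `∏ [a_i, b_i) ⊆ [0,1]^s`. -/
noncomputable def extremeDisc (E : WeierstrassCurve ℚ) (s K : ℕ) : ℝ :=
  sSup {r | ∃ a b : Fin s → ℝ, (∀ i, 0 ≤ a i ∧ a i ≤ b i ∧ b i ≤ 1) ∧ r = localDisc E a b K}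

/-- The Weierstrass curve `y² = x³ + ax + b`. -/
def shortCurve {R : Type*} [CommRing R] (a b : R) : WeierstrassCurve R := ⟨0, 0, 0, a, b⟩

open Classical in
/-- The angle of the curve `y² = x³ + ux + v` over `𝔽_p`: `arccos((p + 1 - N)/(2√p))/π`, where `N`
is the number of its points (with the point at infinity), and `1/2` if the curve is singular. -/
noncomputable def redAngle (p : ℕ) [Fact p.Prime] (u v : ZMod p) : ℝ :=
  if 4 * u ^ 3 + 27 * v ^ 2 = 0 then 1 / 2
  else Real.arccos (((p : ℝ) + 1 - (Nat.card (shortCurve u v).toAffine.Point : ℝ)) /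
    (2 * √(p : ℝ))) / Real.pi

open Classical in
/-- The distribution of the angle at the `(k+1)`-st prime `p` over all curves `y² = x³ + ux + v`,
`(u, v) ∈ 𝔽_p²`: the proportion of pairs for which the angle lies in the set `I`. -/
noncomputable def angleLaw (k : ℕ) (I : Set ℝ) : ℝ :=
  ((Finset.univ.filter fun w : ZMod (Nat.nth Nat.Prime k) × ZMod (Nat.nth Nat.Prime k) =>
    redAngle (Nat.nth Nat.Prime k) w.1 w.2 ∈ I).card : ℝ) / (Nat.nth Nat.Prime k : ℝ) ^ 2

/-- The average over `k < K` of the products of the local distributions of a box. -/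
noncomputable def meanCount {s : ℕ} (a b : Fin s → ℝ) (K : ℕ) : ℝ :=
  (∑ k ∈ Finset.range K, ∏ i : Fin s, angleLaw (k + i) (Ico (a i) (b i))) / K

/-- The discrepancy of the averaged local distributions from the Sato-Tate measure: the supremum
over all boxes in `[0,1]^s`. It does not depend on any curve over `ℚ`. -/
noncomputable def meanDisc (s K : ℕ) : ℝ :=
  sSup {r | ∃ a b : Fin s → ℝ, (∀ i, 0 ≤ a i ∧ a i ≤ b i ∧ b i ≤ 1) ∧
    r = |meanCount a b K - (Measure.pi (fun _ : Fin s => satoTate)).real (box a b)|}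

/-- The discrepancy of the local distribution at the `(k+1)`-st prime: the supremum over all
intervals `[a,b) ⊆ [0,1]`. -/
noncomputable def localErr (k : ℕ) : ℝ :=
  sSup {r | ∃ a b : ℝ, 0 ≤ a ∧ a ≤ b ∧ b ≤ 1 ∧
    r = |angleLaw k (Ico a b) - satoTate.real (Ico a b)|}

end Pool.Agent.H11.STA
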