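import Mathlib
import Pool.Agent.H11.STA.Defs

/-!
# Reduction of the curves `y² = x³ + ax + b` at primes `p ≥ 5`
-/

namespace Pool.Agent.H11.STA

open WeierstrassCurve

lemma shortCurve_Δ {R : Type*} [CommRing R] (a b : R) :
    (shortCurve a b).Δ = -16 * (4 * a ^ 3 + 27 * b ^ 2) := by
  simp only [shortCurve, WeierstrassCurve.Δ, WeierstrassCurve.b₂, WeierstrassCurve.b₄,
    WeierstrassCurve.b₆, WeierstrassCurve.b₈]
  ring

lemma shortCurve_c₄ {R : Type*} [CommRing R] (a b : R) :
    (shortCurve a b).c₄ = -48 * a := by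
  simp only [shortCurve, WeierstrassCurve.c₄, WeierstrassCurve.b₂, WeierstrassCurve.b₄]
  ring

lemma shortCurve_map {R S : Type*} [CommRing R] [CommRing S] (f : R →+* S) (a b : R) :
    (shortCurve a b).map f = shortCurve (f a) (f b) := by
  ext <;> simp [shortCurve]

lemma card_point {k : Type*} [Field k] [Finite k] (W : WeierstrassCurve k) (hΔ : W.Δ ≠ 0) :
    Nat.card W.toAffine.Point = Nat.card {P : k × k // W.toAffine.Equation P.1 P.2} + 1 := by
  have e : W.toAffine.Point ≃ Option {P : k × k // W.toAffine.Equation P.1 P.2} :=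
    { toFun := fun P => match P with
        | .zero => none
        | .some x y h => some ⟨(x, y), h.1⟩
      invFun := fun P => match P with
        | none => .zero
        | some P => .some P.1.1 P.1.2
            ((Affine.equation_iff_nonsingular_of_Δ_ne_zero hΔ).mp P.2)
      left_inv := by rintro (_ | ⟨x, y, h⟩) <;> rfl
      right_inv := by rintro (_ | ⟨⟨x, y⟩, h⟩) <;> rfl }
  rw [Nat.card_congr e, Finite.card_option]

lemma card_eq_vc {k : Type*} [Field k] (C : VariableChange k) (W : WeierstrassCurve k) :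
    Nat.card {P : k × k // (C • W).toAffine.Equation P.1 P.2} =
      Nat.card {P : k × k // W.toAffine.Equation P.1 P.2} := by
  have hu : (C.u : k) ≠ 0 := C.u.ne_zero
  have key : ∀ x y : k, (C • W).toAffine.Equation x y ↔
      W.toAffine.Equation (C.u ^ 2 * x + C.r) (C.u ^ 3 * y + C.u ^ 2 * C.s * x + C.t) := by
    intro x y
    rw [Affine.equation_iff, Affine.equation_iff, variableChange_def]
    simp only [Units.val_inv_eq_inv_val]
    rw [← mul_left_inj' (pow_ne_zero 6 hu)]
    field_simp
    constructor
    · intro h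
      linear_combination h
    · intro h
      linear_combination h
  refine Nat.card_congr
    { toFun := fun P => ⟨(C.u ^ 2 * P.1.1 + C.r,
        C.u ^ 3 * P.1.2 + C.u ^ 2 * C.s * P.1.1 + C.t), (key _ _).mp P.2⟩
      invFun := fun P => ⟨((P.1.1 - C.r) / C.u ^ 2,
        (P.1.2 - C.s * (P.1.1 - C.r) - C.t) / C.u ^ 3), ?_⟩
      left_inv := ?_
      right_inv := ?_ }
  · rw [key]
    convert P.2 using 1
    · field_simp; ring
    · field_simp; ring
  · rintro ⟨⟨x, y⟩, h⟩
    simp only [Subtype.mk.injEq, Prod.mk.injEq]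
    constructor
    · field_simp; ring
    · field_simp; ring
  · rintro ⟨⟨x, y⟩, h⟩
    simp only [Subtype.mk.injEq, Prod.mk.injEq]
    constructor
    · field_simp; ring
    · field_simp; ring

lemma card_eq_ringEquiv {k k' : Type*} [Field k] [Field k'] (e : k ≃+* k')
    (W : WeierstrassCurve k) :
    Nat.card {P : k' × k' // (W.map (e : k →+* k')).toAffine.Equation P.1 P.2} =
      Nat.card {P : k × k // W.toAffine.Equation P.1 P.2} := by
  symm
  refine Nat.card_congr (Equiv.subtypeEquiv (e.toEquiv.prodCongr e.toEquiv) ?_)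
  rintro ⟨x, y⟩
  exact (Affine.map_equation (f := (e : k →+* k')) W e.injective x y).symm

end Pool.Agent.H11.STA
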