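import Mathlib
import Pool.Agent.H11.STA.Red

/-!
# Counting points, quadratic twists, and curves of odd trace
-/

namespace Pool.Agent.H11.STA

open WeierstrassCurve Finset

variable {p : ℕ} [Fact p.Prime]

lemma ringChar_ne_two (hp : 3 ≤ p) : ringChar (ZMod p) ≠ 2 := by
  rw [ZMod.ringChar_zmod_n]; omega

lemma short_equation (u v x y : ZMod p) :
    (shortCurve u v).toAffine.Equation x y ↔ y ^ 2 = x ^ 3 + u * x + v := by
  rw [Affine.equation_iff]
  simp only [shortCurve]
  constructor
  · intro h; linear_combination h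
  · intro h; linear_combination h

/-- The number of affine solutions as a character sum. -/
lemma card_affine (hp : 3 ≤ p) (u v : ZMod p) :
    (Nat.card {P : ZMod p × ZMod p // (shortCurve u v).toAffine.Equation P.1 P.2} : ℤ) =
      ∑ x : ZMod p, (quadraticChar (ZMod p) (x ^ 3 + u * x + v) + 1) := by
  classical
  have h1 : Nat.card {P : ZMod p × ZMod p // (shortCurve u v).toAffine.Equation P.1 P.2} =
      ∑ x : ZMod p, (Finset.univ.filter (fun y : ZMod p => y ^ 2 = x ^ 3 + u * x + v)).card := by
    rw [Nat.card_eq_fintype_card, Fintype.card_subtype]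
    rw [Finset.card_filter, Fintype.sum_prod_type]
    refine Finset.sum_congr rfl (fun x _ => ?_)
    rw [Finset.card_filter]
    refine Finset.sum_congr rfl (fun y _ => ?_)
    simp only [short_equation]
  rw [h1]
  push_cast
  refine Finset.sum_congr rfl (fun x _ => ?_)
  rw [← quadraticChar_card_sqrts (ringChar_ne_two hp)]
  congr 2
  ext y
  simp

/-- A quadratic twist changes the number of affine solutions from `p - a` to `p + a`. -/
lemma card_affine_twist (hp : 3 ≤ p) (u v d : ZMod p) (hd0 : d ≠ 0)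
    (hd : quadraticChar (ZMod p) d = -1) :
    (Nat.card {P : ZMod p × ZMod p //
      (shortCurve (d ^ 2 * u) (d ^ 3 * v)).toAffine.Equation P.1 P.2} : ℤ) =
      2 * p - Nat.card {P : ZMod p × ZMod p // (shortCurve u v).toAffine.Equation P.1 P.2} := by
  rw [card_affine hp, card_affine hp]
  have h1 : ∑ x : ZMod p, (quadraticChar (ZMod p) (x ^ 3 + d ^ 2 * u * x + d ^ 3 * v) + 1) =
      ∑ t : ZMod p, (quadraticChar (ZMod p) ((d * t) ^ 3 + d ^ 2 * u * (d * t) + d ^ 3 * v) + 1) :=
    (Equiv.sum_comp (Equiv.mulLeft₀ d hd0)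
      (fun x => (quadraticChar (ZMod p) (x ^ 3 + d ^ 2 * u * x + d ^ 3 * v) + 1))).symm
  rw [h1]
  have h2 : ∀ t : ZMod p, quadraticChar (ZMod p) ((d * t) ^ 3 + d ^ 2 * u * (d * t) + d ^ 3 * v) =
      - quadraticChar (ZMod p) (t ^ 3 + u * t + v) := by
    intro t
    have : (d * t) ^ 3 + d ^ 2 * u * (d * t) + d ^ 3 * v = d ^ 3 * (t ^ 3 + u * t + v) := by ring
    rw [this, map_mul, map_pow, hd]
    ring
  simp only [h2, Finset.sum_add_distrib, Finset.sum_neg_distrib, Finset.sum_const,
    Finset.card_univ, ZMod.card]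
  simp
  ring

lemma card_point_short (u v : ZMod p) (hp : 3 ≤ p) (h : 4 * u ^ 3 + 27 * v ^ 2 ≠ 0) :
    Nat.card (shortCurve u v).toAffine.Point =
      Nat.card {P : ZMod p × ZMod p // (shortCurve u v).toAffine.Equation P.1 P.2} + 1 := by
  apply card_point
  rw [shortCurve_Δ]
  refine mul_ne_zero (neg_ne_zero.mpr ?_) h
  intro h16
  have h' : ((16 : ℕ) : ZMod p) = 0 := by exact_mod_cast h16
  rw [ZMod.natCast_eq_zero_iff] at h'
  have h2 : (16 : ℕ) = 2 ^ 4 := by norm_num
  rw [h2] at h'
  have := Nat.le_of_dvd (by norm_num) ((Fact.out : p.Prime).dvd_of_dvd_pow h')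
  omega

/-- The angle of a quadratic twist. -/
lemma redAngle_twist (hp : 3 ≤ p) (u v d : ZMod p) (hd0 : d ≠ 0)
    (hd : quadraticChar (ZMod p) d = -1) :
    redAngle p (d ^ 2 * u) (d ^ 3 * v) = 1 - redAngle p u v := by
  have hdisc : 4 * (d ^ 2 * u) ^ 3 + 27 * (d ^ 3 * v) ^ 2 =
      d ^ 6 * (4 * u ^ 3 + 27 * v ^ 2) := by ring
  unfold redAngle
  by_cases h : 4 * u ^ 3 + 27 * v ^ 2 = 0
  · have h' : 4 * (d ^ 2 * u) ^ 3 + 27 * (d ^ 3 * v) ^ 2 = 0 := by rw [hdisc, h, mul_zero]
    rw [if_pos h, if_pos h']; norm_num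
  · have h' : ¬ 4 * (d ^ 2 * u) ^ 3 + 27 * (d ^ 3 * v) ^ 2 = 0 := by
      rw [hdisc]; exact mul_ne_zero (pow_ne_zero 6 hd0) h
    rw [if_neg h, if_neg h', card_point_short _ _ hp h, card_point_short _ _ hp h']
    have hc := card_affine_twist hp u v d hd0 hd
    have hcR : (Nat.card {P : ZMod p × ZMod p //
        (shortCurve (d ^ 2 * u) (d ^ 3 * v)).toAffine.Equation P.1 P.2} : ℝ) =
        2 * p - Nat.card {P : ZMod p × ZMod p //
          (shortCurve u v).toAffine.Equation P.1 P.2} := by exact_mod_cast hc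
    push_cast
    rw [hcR]
    have h3 : ((p : ℝ) + 1 - (2 * p - (Nat.card {P : ZMod p × ZMod p //
          (shortCurve u v).toAffine.Equation P.1 P.2} : ℝ) + 1)) / (2 * √(p : ℝ)) =
        -(((p : ℝ) + 1 - ((Nat.card {P : ZMod p × ZMod p //
          (shortCurve u v).toAffine.Equation P.1 P.2} : ℝ) + 1)) / (2 * √(p : ℝ))) := by
      ring
    rw [h3, Real.arccos_neg, sub_div, div_self Real.pi_ne_zero]

/-- If the cubic has no root then the curve is nonsingular and its angle is not `1/2`. -/
lemma redAngle_ne_half (hp : 5 ≤ p) (u v : ZMod p) (h : ∀ x : ZMod p, x ^ 3 + u * x + v ≠ 0) :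
    redAngle p u v ≠ 1 / 2 := by
  have hpp : p.Prime := Fact.out
  have hodd : Odd p := hpp.odd_of_ne_two (by omega)
  -- nonsingular
  have h2 : (2 : ZMod p) ≠ 0 := by
    intro h2
    have h' : ((2 : ℕ) : ZMod p) = 0 := by exact_mod_cast h2
    rw [ZMod.natCast_eq_zero_iff] at h'
    have := Nat.le_of_dvd (by norm_num) h'
    omega
  have h3 : (3 : ZMod p) ≠ 0 := by
    intro h2
    have h' : ((3 : ℕ) : ZMod p) = 0 := by exact_mod_cast h2
    rw [ZMod.natCast_eq_zero_iff] at h'
    have := Nat.le_of_dvd (by norm_num) h'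
    omega
  have hns : ¬ 4 * u ^ 3 + 27 * v ^ 2 = 0 := by
    intro hs
    by_cases hu : u = 0
    · rw [hu] at hs
      have hv : v = 0 := by
        have h4 : (3 : ZMod p) ^ 3 * v ^ 2 = 0 := by linear_combination hs
        rcases mul_eq_zero.mp h4 with h5 | h5
        · exact absurd h5 (pow_ne_zero 3 h3)
        · exact pow_eq_zero_iff (two_ne_zero) |>.mp h5
      exact h 0 (by rw [hu, hv]; ring)
    · apply h (3 * v / u)
      field_simp
      linear_combination v * hs
  unfold redAngle
  rw [if_neg hns, card_point_short _ _ (by omega) hns]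
  intro heq
  have hpi := Real.pi_pos
  have h4 : Real.arccos (((p : ℝ) + 1 - ((Nat.card {P : ZMod p × ZMod p //
      (shortCurve u v).toAffine.Equation P.1 P.2} + 1 : ℕ) : ℝ)) / (2 * √(p : ℝ))) =
      Real.pi / 2 := by
    rw [div_eq_iff hpi.ne'] at heq
    rw [heq]; ring
  rw [Real.arccos_eq_pi_div_two, div_eq_zero_iff] at h4
  have hp0 : (0 : ℝ) < p := by exact_mod_cast hpp.pos
  have h5 : (2 * √(p : ℝ)) ≠ 0 := by positivity
  have h6 : ((p : ℝ) + 1 - ((Nat.card {P : ZMod p × ZMod p //
      (shortCurve u v).toAffine.Equation P.1 P.2} + 1 : ℕ) : ℝ)) = 0 := by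
    rcases h4 with h4 | h4
    · exact h4
    · exact absurd h4 h5
  have h7 : (p : ℤ) = (Nat.card {P : ZMod p × ZMod p //
      (shortCurve u v).toAffine.Equation P.1 P.2} : ℤ) := by
    have : (p : ℝ) = (Nat.card {P : ZMod p × ZMod p //
      (shortCurve u v).toAffine.Equation P.1 P.2} : ℝ) := by
      push_cast at h6; linarith
    exact_mod_cast this
  rw [card_affine (by omega)] at h7
  have h8 : Even (∑ x : ZMod p, (quadraticChar (ZMod p) (x ^ 3 + u * x + v) + 1)) := by
    refine Finset.even_sum _ (fun x _ => ?_)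
    rcases quadraticChar_dichotomy (h x) with h9 | h9
    · rw [h9]; exact ⟨1, by norm_num⟩
    · rw [h9]; exact ⟨0, by norm_num⟩
  rw [← h7] at h8
  have h9 : Even p := by exact_mod_cast h8
  exact (Nat.not_even_iff_odd.mpr hodd) h9

/-- The number of roots of `x³ + ux + v` is at most `3`. -/
lemma card_roots_le (u v : ZMod p) :
    (Finset.univ.filter (fun x : ZMod p => x ^ 3 + u * x + v = 0)).card ≤ 3 := by
  classical
  let P : Polynomial (ZMod p) := Polynomial.X ^ 3 + (Polynomial.C u * Polynomial.X +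
    Polynomial.C v)
  have hdeg : P.natDegree = 3 := by
    simp only [P]
    compute_degree!
  have hne : P ≠ 0 := by
    intro h
    rw [h] at hdeg
    simp at hdeg
  have hsub : Finset.univ.filter (fun x : ZMod p => x ^ 3 + u * x + v = 0) ⊆
      P.roots.toFinset := by
    intro x hx
    rw [Finset.mem_filter] at hx
    rw [Multiset.mem_toFinset, Polynomial.mem_roots hne, Polynomial.IsRoot.def]
    simp only [P, Polynomial.eval_add, Polynomial.eval_pow, Polynomial.eval_X,
      Polynomial.eval_mul, Polynomial.eval_C]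
    linear_combination hx.2
  calc _ ≤ P.roots.toFinset.card := Finset.card_le_card hsub
    _ ≤ Multiset.card P.roots := Multiset.toFinset_card_le _
    _ ≤ P.natDegree := P.card_roots'
    _ = 3 := hdeg

/-- At least `p(p-1)/3` of the cubics `x³ + ux + v` have no root. -/
lemma card_no_root :
    (p : ℝ) * (p - 1) / 3 ≤ ((Finset.univ.filter (fun w : ZMod p × ZMod p =>
      ∀ x : ZMod p, x ^ 3 + w.1 * x + w.2 ≠ 0)).card : ℝ) := by
  classical
  set r : ZMod p → ZMod p → ℝ := fun u v =>
    ∑ x : ZMod p, if x ^ 3 + u * x + v = 0 then (1 : ℝ) else 0 with hr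
  have hrcard : ∀ u v, r u v =
      ((Finset.univ.filter (fun x : ZMod p => x ^ 3 + u * x + v = 0)).card : ℝ) := by
    intro u v
    rw [Finset.card_filter]
    push_cast
    rfl
  have hpoint : ∀ u v, 1 - r u v + (r u v ^ 2 - r u v) / 3 ≤
      if (∀ x : ZMod p, x ^ 3 + u * x + v ≠ 0) then (1 : ℝ) else 0 := by
    intro u v
    have h1 := card_roots_le u v
    rw [hrcard]
    split_ifs with h
    · have : Finset.univ.filter (fun x : ZMod p => x ^ 3 + u * x + v = 0) = ∅ := by
        rw [Finset.filter_eq_empty_iff]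
        intro x _; exact h x
      rw [this]; norm_num
    · push Not at h
      obtain ⟨x, hx⟩ := h
      have h2 : 0 < (Finset.univ.filter (fun x : ZMod p => x ^ 3 + u * x + v = 0)).card :=
        Finset.card_pos.mpr ⟨x, by simp [hx]⟩
      set n := (Finset.univ.filter (fun x : ZMod p => x ^ 3 + u * x + v = 0)).card with hn
      interval_cases n <;> norm_num
  have hsum1 : ∑ u, ∑ v, r u v = (p : ℝ) ^ 2 := by
    simp only [hr]
    have h1 : ∀ u : ZMod p, ∑ v : ZMod p, ∑ x : ZMod p,
        (if x ^ 3 + u * x + v = 0 then (1 : ℝ) else 0) = p := by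
      intro u
      rw [Finset.sum_comm]
      have h2 : ∀ x : ZMod p, ∑ v : ZMod p,
          (if x ^ 3 + u * x + v = 0 then (1 : ℝ) else 0) = 1 := by
        intro x
        rw [Finset.sum_eq_single (-(x ^ 3 + u * x))]
        · rw [if_pos (by ring)]
        · intro v _ hv
          rw [if_neg]
          intro h; exact hv (by linear_combination h)
        · intro h; exact absurd (Finset.mem_univ _) h
      simp [h2, ZMod.card]
    simp only [h1, Finset.sum_const, Finset.card_univ, ZMod.card, nsmul_eq_mul]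
    ring
  have hsum2 : ∑ u, ∑ v, r u v ^ 2 = (p : ℝ) ^ 2 + p * (p - 1) := by
    have h1 : ∀ u v : ZMod p, r u v ^ 2 = ∑ x : ZMod p, ∑ y : ZMod p,
        (if x ^ 3 + u * x + v = 0 then (1 : ℝ) else 0) *
        (if y ^ 3 + u * y + v = 0 then (1 : ℝ) else 0) := by
      intro u v
      simp only [hr]
      rw [sq, Finset.sum_mul_sum]
    simp only [h1]
    have h2 : ∀ u x y : ZMod p, ∑ v : ZMod p,
        (if x ^ 3 + u * x + v = 0 then (1 : ℝ) else 0) *
        (if y ^ 3 + u * y + v = 0 then (1 : ℝ) else 0) =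
        if x ^ 3 + u * x = y ^ 3 + u * y then (1 : ℝ) else 0 := by
      intro u x y
      rw [Finset.sum_eq_single (-(x ^ 3 + u * x))]
      · rw [if_pos (by ring), one_mul]
        congr 1
        rw [eq_iff_iff]
        constructor
        · intro h; linear_combination -h
        · intro h; linear_combination -h
      · intro v _ hv
        rw [if_neg, zero_mul]
        intro h; exact hv (by linear_combination h)
      · intro h; exact absurd (Finset.mem_univ _) h
    have h3 : ∀ x y : ZMod p, ∑ u : ZMod p,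
        (if x ^ 3 + u * x = y ^ 3 + u * y then (1 : ℝ) else 0) = if x = y then (p : ℝ) else 1 := by
      intro x y
      split_ifs with hxy
      · subst hxy
        simp [ZMod.card]
      · have hne : x - y ≠ 0 := sub_ne_zero.mpr hxy
        rw [Finset.sum_eq_single (-(x ^ 2 + x * y + y ^ 2))]
        · rw [if_pos (by ring)]
        · intro u _ hu
          rw [if_neg]
          intro h
          apply hu
          have h4 : (x - y) * (u + (x ^ 2 + x * y + y ^ 2)) = 0 := by linear_combination h
          rcases mul_eq_zero.mp h4 with h5 | h5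
          · exact absurd h5 hne
          · linear_combination h5
        · intro h; exact absurd (Finset.mem_univ _) h
    calc ∑ u : ZMod p, ∑ v : ZMod p, ∑ x : ZMod p, ∑ y : ZMod p,
        (if x ^ 3 + u * x + v = 0 then (1 : ℝ) else 0) *
        (if y ^ 3 + u * y + v = 0 then (1 : ℝ) else 0)
        = ∑ u : ZMod p, ∑ x : ZMod p, ∑ y : ZMod p, ∑ v : ZMod p,
        (if x ^ 3 + u * x + v = 0 then (1 : ℝ) else 0) *
        (if y ^ 3 + u * y + v = 0 then (1 : ℝ) else 0) := by
          refine Finset.sum_congr rfl (fun u _ => ?_)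
          rw [Finset.sum_comm]
          refine Finset.sum_congr rfl (fun x _ => ?_)
          rw [Finset.sum_comm]
      _ = ∑ u : ZMod p, ∑ x : ZMod p, ∑ y : ZMod p,
          (if x ^ 3 + u * x = y ^ 3 + u * y then (1 : ℝ) else 0) := by simp only [h2]
      _ = ∑ x : ZMod p, ∑ y : ZMod p, ∑ u : ZMod p,
          (if x ^ 3 + u * x = y ^ 3 + u * y then (1 : ℝ) else 0) := by
          rw [Finset.sum_comm]
          refine Finset.sum_congr rfl (fun x _ => ?_)
          rw [Finset.sum_comm]
      _ = ∑ x : ZMod p, ∑ y : ZMod p, (if x = y then (p : ℝ) else 1) := by simp only [h3]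
      _ = ∑ x : ZMod p, ((p : ℝ) + (p - 1)) := by
          refine Finset.sum_congr rfl (fun x _ => ?_)
          have h4 : ∀ y : ZMod p, (if x = y then (p : ℝ) else 1) =
              1 + if x = y then ((p : ℝ) - 1) else 0 := by
            intro y; split_ifs <;> ring
          simp only [h4, Finset.sum_add_distrib, Finset.sum_const, Finset.card_univ, ZMod.card,
            nsmul_eq_mul, mul_one, Finset.sum_ite_eq, Finset.mem_univ, if_true]
      _ = (p : ℝ) ^ 2 + p * (p - 1) := by
          simp only [Finset.sum_const, Finset.card_univ, ZMod.card, nsmul_eq_mul]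
          ring
  have hcount : ((Finset.univ.filter (fun w : ZMod p × ZMod p =>
      ∀ x : ZMod p, x ^ 3 + w.1 * x + w.2 ≠ 0)).card : ℝ) =
      ∑ u : ZMod p, ∑ v : ZMod p,
        if (∀ x : ZMod p, x ^ 3 + u * x + v ≠ 0) then (1 : ℝ) else 0 := by
    rw [Finset.card_filter]
    push_cast
    rw [Fintype.sum_prod_type]
  rw [hcount]
  refine le_trans ?_ (Finset.sum_le_sum (fun u _ => Finset.sum_le_sum (fun v _ => hpoint u v)))
  simp only [Finset.sum_add_distrib, Finset.sum_sub_distrib, ← Finset.sum_div]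
  rw [hsum1, hsum2]
  simp only [Finset.sum_const, Finset.card_univ, ZMod.card, nsmul_eq_mul, mul_one]
  nlinarith

end Pool.Agent.H11.STA
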