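import Mathlib

/-!
# High moments over boxes of sums of periodic functions with coprime periods
-/

namespace Pool.Agent.H11.STA

open Finset

lemma sum_Ico_period (m : ℕ) [NeZero m] (H : ZMod m → ℝ) (A : ℤ) :
    ∑ a ∈ Ico A (A + m), H (a : ZMod m) = ∑ u, H u := by
  refine Finset.sum_nbij (fun a : ℤ => (a : ZMod m)) ?_ ?_ ?_ ?_
  · intro a _; exact Finset.mem_univ _
  · intro a ha b hb hab
    simp only [coe_Ico, Set.mem_Ico] at ha hb
    have h1 : (m : ℤ) ∣ b - a := (ZMod.intCast_eq_intCast_iff_dvd_sub a b m).mp hab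
    obtain ⟨c, hc⟩ := h1
    have hm : (0 : ℤ) < m := by exact_mod_cast NeZero.pos m
    have hc0 : c = 0 := by
      by_contra hne
      rcases lt_or_gt_of_ne hne with h | h
      · have : c ≤ -1 := by omega
        nlinarith
      · have : 1 ≤ c := by omega
        nlinarith
    rw [hc0, mul_zero] at hc
    omega
  · intro u _
    refine ⟨A + ((u - (A : ZMod m)).val : ℤ), ?_, ?_⟩
    · simp only [coe_Ico, Set.mem_Ico]
      have := ZMod.val_lt (u - (A : ZMod m))
      constructor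
      · omega
      · omega
    · push_cast
      rw [ZMod.natCast_zmod_val]
      ring
  · intro a _; rfl

lemma sum_Ico_consec (g : ℤ → ℝ) {a b c : ℤ} (h1 : a ≤ b) (h2 : b ≤ c) :
    ∑ x ∈ Ico a b, g x + ∑ x ∈ Ico b c, g x = ∑ x ∈ Ico a c, g x := by
  rw [← Finset.Ico_union_Ico_eq_Ico h1 h2,
    Finset.sum_union (Finset.Ico_disjoint_Ico_consecutive a b c)]

lemma sum_Ico_mul_period (m : ℕ) [NeZero m] (H : ZMod m → ℝ) (A : ℤ) (n : ℕ) :
    ∑ a ∈ Ico A (A + (m * n : ℕ)), H (a : ZMod m) = n * ∑ u, H u := by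
  induction n with
  | zero => simp
  | succ n ih =>
    have h1 : A ≤ A + (m * n : ℕ) := by omega
    have h2 : A + (m * n : ℕ) ≤ A + (m * (n + 1) : ℕ) := by
      have : m * n ≤ m * (n + 1) := Nat.mul_le_mul_left _ (Nat.le_succ n)
      omega
    rw [← sum_Ico_consec _ h1 h2, ih]
    have h3 : A + (m * (n + 1) : ℕ) = (A + (m * n : ℕ)) + m := by push_cast; ring
    rw [h3, sum_Ico_period]
    push_cast; ring

/-- One-dimensional sums over an interval: complete periods plus a short remainder. -/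
lemma sum_Ico_near (m : ℕ) [NeZero m] (H : ZMod m → ℝ) (A : ℤ) (X : ℕ) (c : ℝ)
    (hH : ∀ u, |H u| ≤ c) :
    |∑ a ∈ Ico A (A + X), H (a : ZMod m) - (X / m : ℕ) * ∑ u, H u| ≤ m * c := by
  have h1 : A ≤ A + (m * (X / m) : ℕ) := by omega
  have h2 : A + (m * (X / m) : ℕ) ≤ A + X := by
    have := Nat.mul_div_le X m
    omega
  have hc : 0 ≤ c := (abs_nonneg _).trans (hH 0)
  rw [← sum_Ico_consec _ h1 h2, sum_Ico_mul_period, add_sub_cancel_left]
  refine (Finset.abs_sum_le_sum_abs _ _).trans ?_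
  refine (Finset.sum_le_sum (fun a _ => hH _)).trans ?_
  rw [Finset.sum_const, nsmul_eq_mul, Int.card_Ico]
  refine mul_le_mul_of_nonneg_right ?_ hc
  have h3 : (A + X - (A + (m * (X / m) : ℕ))).toNat ≤ m := by
    have h4 := Nat.div_add_mod X m
    have h5 := Nat.mod_lt X (NeZero.pos m)
    have h6 : A + X - (A + (m * (X / m) : ℕ)) = ((X % m : ℕ) : ℤ) := by
      have h7 : (X : ℤ) = ((m * (X / m) : ℕ) : ℤ) + ((X % m : ℕ) : ℤ) := by
        exact_mod_cast h4.symm
      linarith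
    rw [h6, Int.toNat_natCast]
    exact h5.le
  exact_mod_cast h3

/-- A function of `(a mod m, b mod m)`, bounded by `1` and of mean zero, has small sum over every
large box. -/
lemma box_sum (m : ℕ) [NeZero m] (G : ZMod m → ZMod m → ℝ) (hG : ∀ u v, |G u v| ≤ 1)
    (h0 : ∑ u, ∑ v, G u v = 0) (A B : ℤ) (X Y : ℕ) :
    |∑ a ∈ Ico A (A + X), ∑ b ∈ Ico B (B + Y), G (a : ZMod m) (b : ZMod m)| ≤
      m * ((X : ℝ) + Y) := by
  -- inner sums
  have h1 : |∑ a ∈ Ico A (A + X), ∑ b ∈ Ico B (B + Y), G (a : ZMod m) (b : ZMod m) -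
      ∑ a ∈ Ico A (A + X), (Y / m : ℕ) * ∑ v, G (a : ZMod m) v| ≤ X * m := by
    rw [← Finset.sum_sub_distrib]
    refine (Finset.abs_sum_le_sum_abs _ _).trans ?_
    refine (Finset.sum_le_sum (fun (a : ℤ) _ => sum_Ico_near m (fun v => G (a : ZMod m) v) B Y 1
      (fun v => hG _ v))).trans ?_
    rw [Finset.sum_const, nsmul_eq_mul, Int.card_Ico, mul_one]
    simp
  have h2 : |∑ a ∈ Ico A (A + X), (∑ v, G (a : ZMod m) v) -
      (X / m : ℕ) * ∑ u, ∑ v, G u v| ≤ m * m := by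
    refine sum_Ico_near m (fun u => ∑ v, G u v) A X m (fun u => ?_)
    refine (Finset.abs_sum_le_sum_abs _ _).trans ?_
    refine (Finset.sum_le_sum (fun v _ => hG u v)).trans ?_
    simp
  rw [h0, mul_zero, sub_zero] at h2
  rw [← Finset.mul_sum] at h1
  have h3 : |((Y / m : ℕ) : ℝ) * ∑ a ∈ Ico A (A + X), ∑ v, G (a : ZMod m) v| ≤ Y * m := by
    rw [abs_mul, abs_of_nonneg (by positivity : (0 : ℝ) ≤ ((Y / m : ℕ) : ℝ))]
    calc ((Y / m : ℕ) : ℝ) * |∑ a ∈ Ico A (A + X), ∑ v, G (a : ZMod m) v|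
        ≤ ((Y / m : ℕ) : ℝ) * (m * m) := mul_le_mul_of_nonneg_left h2 (by positivity)
      _ = ((m * (Y / m) : ℕ) : ℝ) * m := by push_cast; ring
      _ ≤ (Y : ℝ) * m := by
          refine mul_le_mul_of_nonneg_right ?_ (by positivity)
          exact_mod_cast Nat.mul_div_le Y m
  have h4 := abs_sub_abs_le_abs_sub
    (∑ a ∈ Ico A (A + X), ∑ b ∈ Ico B (B + Y), G (a : ZMod m) (b : ZMod m))
    (((Y / m : ℕ) : ℝ) * ∑ a ∈ Ico A (A + X), ∑ v, G (a : ZMod m) v)
  have h5 : (m : ℝ) * ((X : ℝ) + Y) = X * m + Y * m := by ring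
  rw [h5]
  linarith

/-- Independence modulo coprime moduli. -/
lemma sum_coprime_mul (m n : ℕ) [NeZero m] [NeZero n] (hmn : m.Coprime n)
    (f : ZMod m → ZMod m → ℝ) (h : ZMod n → ZMod n → ℝ) (hf : ∑ u, ∑ v, f u v = 0) :
    haveI : NeZero (m * n) := ⟨mul_ne_zero (NeZero.ne m) (NeZero.ne n)⟩
    ∑ u : ZMod (m * n), ∑ v : ZMod (m * n),
      f (ZMod.chineseRemainder hmn u).1 (ZMod.chineseRemainder hmn v).1 *
      h (ZMod.chineseRemainder hmn u).2 (ZMod.chineseRemainder hmn v).2 = 0 := by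
  haveI : NeZero (m * n) := ⟨mul_ne_zero (NeZero.ne m) (NeZero.ne n)⟩
  set e := (ZMod.chineseRemainder hmn).toEquiv with he
  have h1 : ∀ g : ZMod m × ZMod n → ZMod m × ZMod n → ℝ,
      ∑ u : ZMod (m * n), ∑ v : ZMod (m * n), g (e u) (e v) = ∑ x, ∑ y, g x y := by
    intro g
    rw [← Equiv.sum_comp e]
    refine Finset.sum_congr rfl (fun u _ => ?_)
    rw [← Equiv.sum_comp e]
  have h2 := h1 (fun x y => f x.1 y.1 * h x.2 y.2)
  refine h2.trans ?_
  simp only [Fintype.sum_prod_type]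
  have h3 : ∀ u : ZMod m, ∑ u' : ZMod n, ∑ v : ZMod m, ∑ v' : ZMod n, f u v * h u' v' =
      (∑ v, f u v) * ∑ u', ∑ v', h u' v' := by
    intro u
    rw [Finset.sum_mul_sum, Finset.sum_comm]
    refine Finset.sum_congr rfl (fun v _ => ?_)
    refine Finset.sum_congr rfl (fun u' _ => ?_)
    rw [Finset.mul_sum]
  simp only [h3]
  rw [← Finset.sum_mul, hf, zero_mul]

lemma abs_prod_le_one {α : Type*} (S : Finset α) (g : α → ℝ) (hg : ∀ i ∈ S, |g i| ≤ 1) :
    |∏ i ∈ S, g i| ≤ 1 := by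
  rw [Finset.abs_prod]
  exact Finset.prod_le_one (fun i _ => abs_nonneg _) hg

/-- A monomial in which one index occurs exactly once has small sum over every large box. -/
lemma monomial_bound {ι : Type*} (M : ι → ℕ) [∀ i, NeZero (M i)]
    (f : ∀ i, ZMod (M i) → ZMod (M i) → ℝ) (T : Finset ι)
    (hf : ∀ i ∈ T, ∀ u v, |f i u v| ≤ 1) (h0 : ∀ i ∈ T, ∑ u, ∑ v, f i u v = 0)
    (hcop : ∀ i ∈ T, ∀ j ∈ T, i ≠ j → (M i).Coprime (M j)) (Q : ℕ) (hQ : ∀ i ∈ T, M i ≤ Q)
    {n : ℕ} (t : Fin n → ι) (ht : ∀ j, t j ∈ T) (j0 : Fin n)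
    (huniq : ∀ j, j ≠ j0 → t j ≠ t j0) (A B : ℤ) (X Y : ℕ) :
    |∑ a ∈ Ico A (A + X), ∑ b ∈ Ico B (B + Y),
      ∏ j, f (t j) (a : ZMod (M (t j))) (b : ZMod (M (t j)))| ≤ (Q : ℝ) ^ n * ((X : ℝ) + Y) := by
  set m := M (t j0) with hm
  set N := ∏ j : {j // j ≠ j0}, M (t j) with hN
  haveI : NeZero N := ⟨Finset.prod_ne_zero_iff.mpr (fun j _ => NeZero.ne _)⟩
  haveI : NeZero (m * N) := ⟨mul_ne_zero (NeZero.ne m) (NeZero.ne N)⟩
  have hcopr : m.Coprime N := Nat.Coprime.prod_right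
    (fun j _ => hcop _ (ht j0) _ (ht j) (Ne.symm (huniq j j.2)))
  have hdvd : ∀ j : {j // j ≠ j0}, M (t j) ∣ N :=
    fun j => Finset.dvd_prod_of_mem _ (Finset.mem_univ j)
  let h : ZMod N → ZMod N → ℝ := fun x y => ∏ j : {j // j ≠ j0},
    f (t j) (ZMod.castHom (hdvd j) (ZMod (M (t j))) x) (ZMod.castHom (hdvd j) (ZMod (M (t j))) y)
  have hh : ∀ x y, |h x y| ≤ 1 := fun x y => abs_prod_le_one _ _ (fun j _ => hf _ (ht j) _ _)
  let G : ZMod (m * N) → ZMod (m * N) → ℝ := fun u v =>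
    f (t j0) (ZMod.chineseRemainder hcopr u).1 (ZMod.chineseRemainder hcopr v).1 *
      h (ZMod.chineseRemainder hcopr u).2 (ZMod.chineseRemainder hcopr v).2
  have hG : ∀ u v, |G u v| ≤ 1 := by
    intro u v
    simp only [G]
    rw [abs_mul]
    exact mul_le_one₀ (hf _ (ht j0) _ _) (abs_nonneg _) (hh _ _)
  have hG0 : ∑ u, ∑ v, G u v = 0 :=
    sum_coprime_mul m N hcopr (f (t j0)) h (h0 _ (ht j0))
  have hprod : ∀ a b : ℤ, ∏ j, f (t j) (a : ZMod (M (t j))) (b : ZMod (M (t j))) =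
      G (a : ZMod (m * N)) (b : ZMod (m * N)) := by
    intro a b
    simp only [G, h, map_intCast, Prod.fst_intCast, Prod.snd_intCast]
    rw [← Finset.mul_prod_erase Finset.univ _ (Finset.mem_univ j0)]
    congr 1
    exact Finset.prod_subtype (Finset.univ.erase j0) (by simp)
      (fun j => f (t j) (a : ZMod (M (t j))) (b : ZMod (M (t j))))
  simp only [hprod]
  refine (box_sum (m * N) G hG hG0 A B X Y).trans ?_
  refine mul_le_mul_of_nonneg_right ?_ (by positivity)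
  have h1 : m * N = ∏ j, M (t j) := by
    rw [← Finset.mul_prod_erase Finset.univ _ (Finset.mem_univ j0)]
    congr 1
    exact (Finset.prod_subtype (Finset.univ.erase j0) (by simp) (fun j => M (t j))).symm
  rw [h1]
  have h2 : ∏ j, M (t j) ≤ ∏ _j : Fin n, Q := Finset.prod_le_prod' (fun j _ => hQ _ (ht j))
  rw [Finset.prod_const, Finset.card_univ, Fintype.card_fin] at h2
  exact_mod_cast h2

/-- There are few tuples in which no index occurs exactly once. -/
lemma card_no_unique {ι : Type*} [DecidableEq ι] (T : Finset ι) (q : ℕ) (hq : 1 ≤ q) :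
    ((Fintype.piFinset fun _ : Fin (2 * q) => T).filter
      (fun t => ∀ j0, ∃ j, j ≠ j0 ∧ t j = t j0)).card ≤ q ^ (2 * q) * T.card ^ q := by
  classical
  let Φ : (Fin (2 * q) → Fin q) × (Fin q → ι) → (Fin (2 * q) → ι) := fun P j => P.2 (P.1 j)
  have hsub : (Fintype.piFinset fun _ : Fin (2 * q) => T).filter
      (fun t => ∀ j0, ∃ j, j ≠ j0 ∧ t j = t j0) ⊆
      ((Finset.univ : Finset (Fin (2 * q) → Fin q)) ×ˢ
        (Fintype.piFinset fun _ : Fin q => T)).image Φ := by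
    intro t ht
    rw [Finset.mem_filter, Fintype.mem_piFinset] at ht
    obtain ⟨htT, hrep⟩ := ht
    set I := Finset.univ.image t with hI
    have hIcard : I.card ≤ q := by
      have h1 : ∀ v ∈ I, 2 ≤ (Finset.univ.filter (fun j => t j = v)).card := by
        intro v hv
        rw [hI, Finset.mem_image] at hv
        obtain ⟨j0, -, rfl⟩ := hv
        obtain ⟨j, hj, hj'⟩ := hrep j0
        exact Finset.one_lt_card.mpr ⟨j, by simp [hj'], j0, by simp, hj⟩
      have h2 := Finset.card_eq_sum_card_image t (Finset.univ : Finset (Fin (2 * q)))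
      rw [Finset.card_univ, Fintype.card_fin] at h2
      have h3 : ∑ v ∈ I, 2 ≤ ∑ v ∈ I, (Finset.univ.filter (fun j => t j = v)).card :=
        Finset.sum_le_sum h1
      rw [Finset.sum_const, smul_eq_mul, ← h2] at h3
      omega
    have hle : Fintype.card I ≤ Fintype.card (Fin q) := by simpa using hIcard
    obtain ⟨e⟩ := Function.Embedding.nonempty_of_card_le hle
    have j0 : Fin (2 * q) := ⟨0, by omega⟩
    rw [Finset.mem_image]
    refine ⟨(fun j => e ⟨t j, by rw [hI]; exact Finset.mem_image_of_mem _ (Finset.mem_univ _)⟩,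
      Function.extend e (fun v : I => (v : ι)) (fun _ => t j0)), ?_, ?_⟩
    · rw [Finset.mem_product]
      refine ⟨Finset.mem_univ _, ?_⟩
      rw [Fintype.mem_piFinset]
      intro x
      by_cases hx : ∃ v, e v = x
      · obtain ⟨v, rfl⟩ := hx
        simp only [e.injective.extend_apply]
        obtain ⟨j, -, hj⟩ := Finset.mem_image.mp v.2
        rw [← hj]; exact htT j
      · simp only [Function.extend_apply' _ _ _ hx]
        exact htT j0
    · funext j
      simp only [Φ, e.injective.extend_apply]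
  refine (Finset.card_le_card hsub).trans (Finset.card_image_le.trans ?_)
  rw [Finset.card_product, Finset.card_univ, Fintype.card_fun, Fintype.card_fin, Fintype.card_fin,
    Fintype.card_piFinset_const]

/-- The `2q`-th moment over a box. -/
theorem moment_bound {ι : Type*} [DecidableEq ι] (M : ι → ℕ) [∀ i, NeZero (M i)]
    (f : ∀ i, ZMod (M i) → ZMod (M i) → ℝ) (T : Finset ι)
    (hf : ∀ i ∈ T, ∀ u v, |f i u v| ≤ 1) (h0 : ∀ i ∈ T, ∑ u, ∑ v, f i u v = 0)
    (hcop : ∀ i ∈ T, ∀ j ∈ T, i ≠ j → (M i).Coprime (M j)) (Q : ℕ) (hQ : ∀ i ∈ T, M i ≤ Q)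
    (q : ℕ) (hq : 1 ≤ q) (A B : ℤ) (X Y : ℕ) :
    ∑ a ∈ Ico A (A + X), ∑ b ∈ Ico B (B + Y),
      (∑ i ∈ T, f i (a : ZMod (M i)) (b : ZMod (M i))) ^ (2 * q) ≤
      (q : ℝ) ^ (2 * q) * (T.card : ℝ) ^ q * ((X : ℝ) * Y) +
        (T.card : ℝ) ^ (2 * q) * ((Q : ℝ) ^ (2 * q) * ((X : ℝ) + Y)) := by
  classical
  have hexp : ∀ a b : ℤ, (∑ i ∈ T, f i (a : ZMod (M i)) (b : ZMod (M i))) ^ (2 * q) =
      ∑ t ∈ Fintype.piFinset (fun _ : Fin (2 * q) => T),
        ∏ j, f (t j) (a : ZMod (M (t j))) (b : ZMod (M (t j))) := by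
    intro a b
    rw [← Finset.prod_univ_sum (fun _ : Fin (2 * q) => T)
      (fun _ i => f i (a : ZMod (M i)) (b : ZMod (M i)))]
    simp
  simp only [hexp]
  have hswap : ∑ a ∈ Ico A (A + X), ∑ b ∈ Ico B (B + Y),
      ∑ t ∈ Fintype.piFinset (fun _ : Fin (2 * q) => T),
        ∏ j, f (t j) (a : ZMod (M (t j))) (b : ZMod (M (t j))) =
      ∑ t ∈ Fintype.piFinset (fun _ : Fin (2 * q) => T),
        ∑ a ∈ Ico A (A + X), ∑ b ∈ Ico B (B + Y),
          ∏ j, f (t j) (a : ZMod (M (t j))) (b : ZMod (M (t j))) := by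
    rw [Finset.sum_comm]
    conv_lhs => arg 2; ext b; rw [Finset.sum_comm]
    rw [Finset.sum_comm]
    refine Finset.sum_congr rfl (fun t _ => ?_)
    rw [Finset.sum_comm]
  rw [hswap]
  set P := Fintype.piFinset (fun _ : Fin (2 * q) => T) with hP
  rw [← Finset.sum_filter_add_sum_filter_not P (fun t => ∀ j0, ∃ j, j ≠ j0 ∧ t j = t j0)]
  refine add_le_add ?_ ?_
  · have h1 : ∀ t ∈ P.filter (fun t => ∀ j0, ∃ j, j ≠ j0 ∧ t j = t j0),
        ∑ a ∈ Ico A (A + X), ∑ b ∈ Ico B (B + Y),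
          ∏ j, f (t j) (a : ZMod (M (t j))) (b : ZMod (M (t j))) ≤ (X : ℝ) * Y := by
      intro t ht
      rw [Finset.mem_filter, hP, Fintype.mem_piFinset] at ht
      have h2 : ∀ a b : ℤ, ∏ j, f (t j) (a : ZMod (M (t j))) (b : ZMod (M (t j))) ≤ 1 :=
        fun a b => (le_abs_self _).trans (abs_prod_le_one _ _ (fun j _ => hf _ (ht.1 j) _ _))
      refine (Finset.sum_le_sum (fun a _ => Finset.sum_le_sum (fun b _ => h2 a b))).trans ?_
      simp
    refine (Finset.sum_le_sum h1).trans ?_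
    rw [Finset.sum_const, nsmul_eq_mul]
    refine mul_le_mul_of_nonneg_right ?_ (by positivity)
    exact_mod_cast card_no_unique T q hq
  · have h1 : ∀ t ∈ P.filter (fun t => ¬ ∀ j0, ∃ j, j ≠ j0 ∧ t j = t j0),
        ∑ a ∈ Ico A (A + X), ∑ b ∈ Ico B (B + Y),
          ∏ j, f (t j) (a : ZMod (M (t j))) (b : ZMod (M (t j))) ≤
        (Q : ℝ) ^ (2 * q) * ((X : ℝ) + Y) := by
      intro t ht
      rw [Finset.mem_filter, hP, Fintype.mem_piFinset] at ht
      obtain ⟨htT, hnot⟩ := ht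
      push Not at hnot
      obtain ⟨j0, hj0⟩ := hnot
      exact (le_abs_self _).trans (monomial_bound M f T hf h0 hcop Q hQ t htT j0 hj0 A B X Y)
    refine (Finset.sum_le_sum h1).trans ?_
    rw [Finset.sum_const, nsmul_eq_mul]
    refine mul_le_mul_of_nonneg_right ?_ (by positivity)
    have h2 : (P.filter (fun t => ¬ ∀ j0, ∃ j, j ≠ j0 ∧ t j = t j0)).card ≤
        T.card ^ (2 * q) := by
      refine (Finset.card_filter_le _ _).trans ?_
      rw [hP, Fintype.card_piFinset_const]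
    exact_mod_cast h2

end Pool.Agent.H11.STA
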