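import Mathlib
import Pool.Agent.H11.STA.Defs
import Pool.Agent.H11.STA.Moment

/-!
# Windows of `s` consecutive primes
-/

namespace Pool.Agent.H11.STA

open Finset

lemma sum_prodEquivPi {ι : Type*} [Fintype ι] [DecidableEq ι] (a : ι → ℕ) [∀ i, NeZero (a i)]
    [NeZero (∏ i, a i)] (hc : Pairwise (Function.onFun Nat.Coprime a))
    (g : ∀ i, ZMod (a i) → ZMod (a i) → ℝ) :
    ∑ x : ZMod (∏ i, a i), ∑ y : ZMod (∏ i, a i),
      ∏ i, g i (ZMod.prodEquivPi a hc x i) (ZMod.prodEquivPi a hc y i) =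
      ∏ i, ∑ u, ∑ v, g i u v := by
  set e := (ZMod.prodEquivPi a hc).toEquiv with he
  have h1 : ∀ G : (∀ i, ZMod (a i)) → (∀ i, ZMod (a i)) → ℝ,
      ∑ x, ∑ y, G (e x) (e y) = ∑ ξ, ∑ η, G ξ η := by
    intro G
    rw [← Equiv.sum_comp e]
    refine Finset.sum_congr rfl (fun u _ => ?_)
    rw [← Equiv.sum_comp e]
  refine (h1 (fun ξ η => ∏ i, g i (ξ i) (η i))).trans ?_
  rw [Fintype.prod_sum]
  refine Finset.sum_congr rfl (fun ξ _ => ?_)
  rw [Fintype.prod_sum]

instance nzPrime (k : ℕ) : NeZero (Nat.nth Nat.Prime k) := ⟨(Nat.prime_nth_prime k).ne_zero⟩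

lemma nth_inj {i j : ℕ} (h : Nat.nth Nat.Prime i = Nat.nth Nat.Prime j) : i = j :=
  Nat.nth_injective Nat.infinite_setOfPred_prime h

lemma nth_coprime {i j : ℕ} (h : i ≠ j) :
    (Nat.nth Nat.Prime i).Coprime (Nat.nth Nat.Prime j) :=
  (Nat.coprime_primes (Nat.prime_nth_prime i) (Nat.prime_nth_prime j)).mpr
    (fun h' => h (nth_inj h'))

/-- The product of `s` consecutive primes. -/
noncomputable def winMod (s k : ℕ) : ℕ := ∏ i : Fin s, Nat.nth Nat.Prime (k + i)

instance nzWin (s k : ℕ) : NeZero (winMod s k) :=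
  ⟨Finset.prod_ne_zero_iff.mpr (fun _ _ => NeZero.ne _)⟩

lemma winMod_coprime {s k l : ℕ} (h : k + s ≤ l ∨ l + s ≤ k) :
    (winMod s k).Coprime (winMod s l) := by
  refine Nat.Coprime.prod_left (fun i _ => Nat.Coprime.prod_right (fun j _ => nth_coprime ?_))
  have := i.2
  have := j.2
  omega

lemma win_pairwise (s k : ℕ) : Pairwise (Function.onFun Nat.Coprime
    (fun i : Fin s => Nat.nth Nat.Prime (k + i))) := by
  intro i j hij
  refine nth_coprime ?_
  have : (i : ℕ) ≠ j := fun h => hij (Fin.ext h)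
  omega

/-- The product over a window, as a function of two residues modulo the product of the primes. -/
noncomputable def winFun (s k : ℕ)
    (g : ∀ i : Fin s, ZMod (Nat.nth Nat.Prime (k + i)) → ZMod (Nat.nth Nat.Prime (k + i)) → ℝ)
    (x y : ZMod (winMod s k)) : ℝ :=
  ∏ i, g i (ZMod.prodEquivPi _ (win_pairwise s k) x i) (ZMod.prodEquivPi _ (win_pairwise s k) y i)

lemma sum_winFun (s k : ℕ)
    (g : ∀ i : Fin s, ZMod (Nat.nth Nat.Prime (k + i)) → ZMod (Nat.nth Nat.Prime (k + i)) → ℝ) :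
    ∑ x, ∑ y, winFun s k g x y = ∏ i, ∑ u, ∑ v, g i u v := by
  haveI : NeZero (∏ i : Fin s, Nat.nth Nat.Prime (k + i)) := nzWin s k
  exact sum_prodEquivPi _ (win_pairwise s k) g

lemma winFun_int (s k : ℕ)
    (g : ∀ i : Fin s, ZMod (Nat.nth Nat.Prime (k + i)) → ZMod (Nat.nth Nat.Prime (k + i)) → ℝ)
    (a b : ℤ) : winFun s k g a b = ∏ i, g i (a : ZMod _) (b : ZMod _) := by
  unfold winFun
  have h1 : ∀ (c : ℤ) (i : Fin s), ZMod.prodEquivPi _ (win_pairwise s k) (c : ZMod (winMod s k)) i =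
      (c : ZMod (Nat.nth Nat.Prime (k + i))) := by
    intro c i
    have h2 : ZMod.prodEquivPi _ (win_pairwise s k) (c : ZMod (winMod s k)) = (c : ∀ _, _) :=
      map_intCast _ c
    rw [h2]
    rfl
  simp only [h1]

lemma winMod_le (s k P : ℕ) (h : ∀ i < s, Nat.nth Nat.Prime (k + i) ≤ P) :
    winMod s k ≤ P ^ s := by
  unfold winMod
  refine (Finset.prod_le_prod' (fun (i : Fin s) _ => h i i.2)).trans ?_
  simp

open Classical in
/-- Indicator that the angle at the prime number `j` lies in `[α, β)`. -/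
noncomputable def ind (j : ℕ) (α β : ℝ) (u v : ZMod (Nat.nth Nat.Prime j)) : ℝ :=
  if redAngle (Nat.nth Nat.Prime j) u v ∈ Set.Ico α β then 1 else 0

lemma ind_nonneg (j : ℕ) (α β : ℝ) (u v : ZMod (Nat.nth Nat.Prime j)) : 0 ≤ ind j α β u v := by
  unfold ind; split_ifs <;> norm_num

lemma ind_le_one (j : ℕ) (α β : ℝ) (u v : ZMod (Nat.nth Nat.Prime j)) : ind j α β u v ≤ 1 := by
  unfold ind; split_ifs <;> norm_num

lemma sum_ind (j : ℕ) (α β : ℝ) :
    ∑ u, ∑ v, ind j α β u v = (Nat.nth Nat.Prime j : ℝ) ^ 2 * angleLaw j (Set.Ico α β) := by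
  classical
  have h0 : (Nat.nth Nat.Prime j : ℝ) ≠ 0 := by exact_mod_cast (NeZero.ne _)
  unfold angleLaw
  rw [mul_div_cancel₀ _ (pow_ne_zero 2 h0)]
  rw [Finset.card_filter]
  push_cast
  rw [Fintype.sum_prod_type]
  rfl

lemma angleLaw_nonneg (j : ℕ) (I : Set ℝ) : 0 ≤ angleLaw j I := by
  unfold angleLaw; positivity

lemma angleLaw_le_one (j : ℕ) (I : Set ℝ) : angleLaw j I ≤ 1 := by
  classical
  have h0 : (0 : ℝ) < (Nat.nth Nat.Prime j : ℝ) := by exact_mod_cast (NeZero.pos _)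
  unfold angleLaw
  rw [div_le_one (by positivity)]
  have h1 := Finset.card_filter_le (Finset.univ : Finset (ZMod (Nat.nth Nat.Prime j) ×
    ZMod (Nat.nth Nat.Prime j))) (fun w => redAngle (Nat.nth Nat.Prime j) w.1 w.2 ∈ I)
  rw [Finset.card_univ, Fintype.card_prod, ZMod.card] at h1
  calc _ ≤ ((Nat.nth Nat.Prime j * Nat.nth Nat.Prime j : ℕ) : ℝ) := by exact_mod_cast h1
    _ = _ := by push_cast; ring

/-- The centred indicator of a box in the window starting at `k`. -/
noncomputable def cen (s : ℕ) (α β : Fin s → ℝ) (k : ℕ) (x y : ZMod (winMod s k)) : ℝ :=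
  winFun s k (fun i => ind (k + i) (α i) (β i)) x y - ∏ i : Fin s, angleLaw (k + i)
    (Set.Ico (α i) (β i))

lemma cen_sum (s : ℕ) (α β : Fin s → ℝ) (k : ℕ) : ∑ x, ∑ y, cen s α β k x y = 0 := by
  unfold cen
  simp only [Finset.sum_sub_distrib]
  rw [sum_winFun]
  simp only [sum_ind, Finset.sum_const, Finset.card_univ, ZMod.card, nsmul_eq_mul]
  rw [Finset.prod_mul_distrib, Finset.prod_pow]
  have : (winMod s k : ℝ) = ∏ i : Fin s, (Nat.nth Nat.Prime (k + i) : ℝ) := by
    unfold winMod; push_cast; rfl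
  rw [this]
  ring

lemma cen_abs (s : ℕ) (α β : Fin s → ℝ) (k : ℕ) (x y : ZMod (winMod s k)) :
    |cen s α β k x y| ≤ 1 := by
  unfold cen winFun
  have h1 := Finset.prod_nonneg (s := Finset.univ) (f := fun i : Fin s =>
    ind (k + i) (α i) (β i) (ZMod.prodEquivPi _ (win_pairwise s k) x i)
      (ZMod.prodEquivPi _ (win_pairwise s k) y i)) (fun i _ => ind_nonneg _ _ _ _ _)
  have h2 := Finset.prod_le_one (s := Finset.univ) (f := fun i : Fin s =>
    ind (k + i) (α i) (β i) (ZMod.prodEquivPi _ (win_pairwise s k) x i)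
      (ZMod.prodEquivPi _ (win_pairwise s k) y i)) (fun i _ => ind_nonneg _ _ _ _ _)
      (fun i _ => ind_le_one _ _ _ _ _)
  have h3 := Finset.prod_nonneg (s := Finset.univ) (f := fun i : Fin s =>
    angleLaw (k + i) (Set.Ico (α i) (β i))) (fun i _ => angleLaw_nonneg _ _)
  have h4 := Finset.prod_le_one (s := Finset.univ) (f := fun i : Fin s =>
    angleLaw (k + i) (Set.Ico (α i) (β i))) (fun i _ => angleLaw_nonneg _ _)
      (fun i _ => angleLaw_le_one _ _)
  rw [abs_le]
  constructor <;> linarith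

/-- The sum of the centred indicators of a box over the first `K` windows. -/
noncomputable def dev (s : ℕ) (α β : Fin s → ℝ) (K : ℕ) (a b : ℤ) : ℝ :=
  ∑ k ∈ range K, cen s α β k (a : ZMod (winMod s k)) (b : ZMod (winMod s k))

/-- The `2q`-th moment of the deviation over a box of curves. -/
theorem dev_moment (s : ℕ) (hs : 1 ≤ s) (α β : Fin s → ℝ) (K P q : ℕ) (hq : 1 ≤ q)
    (hP : ∀ j < K + s, Nat.nth Nat.Prime j ≤ P) (A B : ℤ) (X Y : ℕ) :
    ∑ a ∈ Ico A (A + X), ∑ b ∈ Ico B (B + Y), (dev s α β K a b) ^ (2 * q) ≤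
      (s : ℝ) ^ (2 * q) * ((q : ℝ) ^ (2 * q) * (K : ℝ) ^ q * ((X : ℝ) * Y) +
        (K : ℝ) ^ (2 * q) * ((P : ℝ) ^ (2 * q * s) * ((X : ℝ) + Y))) := by
  classical
  have hsplit : ∀ a b : ℤ, dev s α β K a b = ∑ c ∈ range s,
      ∑ k ∈ (range K).filter (fun k => k % s = c),
        cen s α β k (a : ZMod (winMod s k)) (b : ZMod (winMod s k)) := by
    intro a b
    unfold dev
    rw [← Finset.sum_fiberwise_of_maps_to (g := fun k => k % s) (t := range s)]
    intro k _
    exact Finset.mem_range.mpr (Nat.mod_lt _ hs)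
  have hcard : ∀ c, (((range K).filter (fun k => k % s = c)).card : ℝ) ≤ K := by
    intro c
    have := Finset.card_filter_le (range K) (fun k => k % s = c)
    rw [Finset.card_range] at this
    exact_mod_cast this
  have hmom : ∀ c ∈ range s, ∑ a ∈ Ico A (A + X), ∑ b ∈ Ico B (B + Y),
      (∑ k ∈ (range K).filter (fun k => k % s = c),
        cen s α β k (a : ZMod (winMod s k)) (b : ZMod (winMod s k))) ^ (2 * q) ≤
      (q : ℝ) ^ (2 * q) * (K : ℝ) ^ q * ((X : ℝ) * Y) +
        (K : ℝ) ^ (2 * q) * ((P : ℝ) ^ (2 * q * s) * ((X : ℝ) + Y)) := by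
    intro c _
    have h := moment_bound (fun k => winMod s k) (fun k => cen s α β k)
      ((range K).filter (fun k => k % s = c)) (fun i _ u v => cen_abs s α β i u v)
      (fun i _ => cen_sum s α β i) ?_ (P ^ s) ?_ q hq A B X Y
    · refine h.trans ?_
      have h1 := hcard c
      have h2 : (((P ^ s : ℕ) : ℝ)) ^ (2 * q) = (P : ℝ) ^ (2 * q * s) := by
        push_cast; rw [← pow_mul, mul_comm s]
      rw [h2]
      gcongr
    · intro i hi j hj hij
      rw [Finset.mem_filter, Finset.mem_range] at hi hj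
      apply winMod_coprime
      have h3 := Nat.div_add_mod i s
      have h4 := Nat.div_add_mod j s
      rw [hi.2] at h3
      rw [hj.2] at h4
      rcases lt_trichotomy (i / s) (j / s) with h5 | h5 | h5
      · left
        have : s * (i / s) + s ≤ s * (j / s) := by
          calc s * (i / s) + s = s * (i / s + 1) := by ring
            _ ≤ s * (j / s) := Nat.mul_le_mul_left _ h5
        omega
      · exact absurd (by rw [← h3, ← h4, h5]) hij
      · right
        have : s * (j / s) + s ≤ s * (i / s) := by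
          calc s * (j / s) + s = s * (j / s + 1) := by ring
            _ ≤ s * (i / s) := Nat.mul_le_mul_left _ h5
        omega
    · intro i hi
      rw [Finset.mem_filter, Finset.mem_range] at hi
      exact winMod_le s i P (fun j hj => hP _ (by omega))
  have hpm : ∀ a b : ℤ, (dev s α β K a b) ^ (2 * q) ≤ (s : ℝ) ^ (2 * q - 1) *
      ∑ c ∈ range s, (∑ k ∈ (range K).filter (fun k => k % s = c),
        cen s α β k (a : ZMod (winMod s k)) (b : ZMod (winMod s k))) ^ (2 * q) := by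
    intro a b
    obtain ⟨n, hn⟩ : ∃ n, 2 * q = n + 1 := ⟨2 * q - 1, by omega⟩
    have hev : Even (n + 1) := hn ▸ even_two_mul q
    rw [hsplit, hn, Nat.add_sub_cancel]
    have h1 := pow_sum_div_card_le_sum_pow (s := range s) (f := fun c =>
      |∑ k ∈ (range K).filter (fun k => k % s = c),
        cen s α β k (a : ZMod (winMod s k)) (b : ZMod (winMod s k))|)
      (fun c _ => abs_nonneg _) n
    rw [Finset.card_range, div_le_iff₀ (by positivity)] at h1
    have h2 : (∑ c ∈ range s, ∑ k ∈ (range K).filter (fun k => k % s = c),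
        cen s α β k (a : ZMod (winMod s k)) (b : ZMod (winMod s k))) ^ (n + 1) ≤
        (∑ c ∈ range s, |∑ k ∈ (range K).filter (fun k => k % s = c),
        cen s α β k (a : ZMod (winMod s k)) (b : ZMod (winMod s k))|) ^ (n + 1) := by
      rw [← hev.pow_abs]
      exact pow_le_pow_left₀ (abs_nonneg _) (Finset.abs_sum_le_sum_abs _ _) _
    refine h2.trans (h1.trans (le_of_eq ?_))
    rw [mul_comm]
    congr 1
    refine Finset.sum_congr rfl (fun c _ => ?_)
    exact hev.pow_abs _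
  calc ∑ a ∈ Ico A (A + X), ∑ b ∈ Ico B (B + Y), (dev s α β K a b) ^ (2 * q)
      ≤ ∑ a ∈ Ico A (A + X), ∑ b ∈ Ico B (B + Y), (s : ℝ) ^ (2 * q - 1) *
      ∑ c ∈ range s, (∑ k ∈ (range K).filter (fun k => k % s = c),
        cen s α β k (a : ZMod (winMod s k)) (b : ZMod (winMod s k))) ^ (2 * q) :=
        Finset.sum_le_sum (fun a _ => Finset.sum_le_sum (fun b _ => hpm a b))
    _ = (s : ℝ) ^ (2 * q - 1) * ∑ c ∈ range s, ∑ a ∈ Ico A (A + X), ∑ b ∈ Ico B (B + Y),
        (∑ k ∈ (range K).filter (fun k => k % s = c),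
        cen s α β k (a : ZMod (winMod s k)) (b : ZMod (winMod s k))) ^ (2 * q) := by
        simp only [← Finset.mul_sum]
        congr 1
        rw [Finset.sum_comm]
        conv_lhs => arg 2; ext b; rw [Finset.sum_comm]
        rw [Finset.sum_comm]
        refine Finset.sum_congr rfl (fun t _ => ?_)
        rw [Finset.sum_comm]
    _ ≤ (s : ℝ) ^ (2 * q - 1) * ∑ c ∈ range s,
        ((q : ℝ) ^ (2 * q) * (K : ℝ) ^ q * ((X : ℝ) * Y) +
        (K : ℝ) ^ (2 * q) * ((P : ℝ) ^ (2 * q * s) * ((X : ℝ) + Y))) :=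
        mul_le_mul_of_nonneg_left (Finset.sum_le_sum hmom) (by positivity)
    _ = (s : ℝ) ^ (2 * q) * ((q : ℝ) ^ (2 * q) * (K : ℝ) ^ q * ((X : ℝ) * Y) +
        (K : ℝ) ^ (2 * q) * ((P : ℝ) ^ (2 * q * s) * ((X : ℝ) + Y))) := by
        rw [Finset.sum_const, Finset.card_range, nsmul_eq_mul, ← mul_assoc]
        congr 1
        obtain ⟨n, hn⟩ : ∃ n, 2 * q = n + 1 := ⟨2 * q - 1, by omega⟩
        rw [hn, Nat.add_sub_cancel, pow_succ]

end Pool.Agent.H11.STA
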