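import Mathlib
import Pool.Agent.H11.STA.Red

/-!
# Minimal models over `ℚ_p` of curves with integral coefficients, `p ≥ 5`
-/

namespace Pool.Agent.H11.STA

open WeierstrassCurve

section padic

variable {p : ℕ} [Fact p.Prime]

open IsDedekindDomain.HeightOneSpectrum

lemma val_eq_one_iff (r : ℤ_[p]) :
    (IsDiscreteValuationRing.maximalIdeal ℤ_[p]).valuation ℚ_[p] (algebraMap ℤ_[p] ℚ_[p] r) = 1 ↔
      IsUnit r := by
  rw [valuation_eq_one_iff_notMem]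
  change r ∉ IsLocalRing.maximalIdeal ℤ_[p] ↔ _
  rw [IsLocalRing.mem_maximalIdeal, mem_nonunits_iff, not_not]

lemma norm_natCast_eq_one {n : ℕ} (h0 : 0 < n) (hn : n < p) : ‖(n : ℚ_[p])‖ = 1 := by
  rw [Padic.norm_natCast_eq_one_iff]
  exact ((Nat.Prime.coprime_iff_not_dvd Fact.out).mpr
    (fun h => absurd (Nat.le_of_dvd h0 h) (by omega)))

lemma isIntegral_map (W0 : WeierstrassCurve ℤ_[p]) :
    IsIntegral ℤ_[p] (W0.map (algebraMap ℤ_[p] ℚ_[p])) := ⟨W0, rfl⟩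

/-- The variable change `C` leading from an integral curve with unit discriminant to its chosen
minimal model. -/
lemma minimal_spec (W0 : WeierstrassCurve ℤ_[p]) :
    ∃ C : VariableChange ℚ_[p],
      (W0.map (algebraMap ℤ_[p] ℚ_[p])).minimal ℤ_[p] = C • (W0.map (algebraMap ℤ_[p] ℚ_[p])) ∧
      (IsDiscreteValuationRing.maximalIdeal ℤ_[p]).valuation ℚ_[p]
          (W0.map (algebraMap ℤ_[p] ℚ_[p])).Δ ≤
        (IsDiscreteValuationRing.maximalIdeal ℤ_[p]).valuation ℚ_[p]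
          (C • (W0.map (algebraMap ℤ_[p] ℚ_[p]))).Δ := by
  set W := W0.map (algebraMap ℤ_[p] ℚ_[p]) with hW
  obtain hC := (W.exists_isMinimal ℤ_[p]).choose_spec
  set C := (W.exists_isMinimal ℤ_[p]).choose with hCdef
  refine ⟨C, rfl, ?_⟩
  haveI : IsIntegral ℤ_[p] W := isIntegral_map W0
  haveI : IsIntegral ℤ_[p] (C • W) := by simpa using hC.val_Δ_maximal.1
  have h1 := hC.val_Δ_maximal.2 (j := C⁻¹)
  simp only [one_smul, inv_smul_smul] at h1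
  have h2 := h1 (isIntegral_map W0)
  by_contra hcon
  push Not at hcon
  have e1 := valuation_Δ_aux_eq_of_isIntegral ℤ_[p] W
  have e2 := valuation_Δ_aux_eq_of_isIntegral ℤ_[p] (C • W)
  have h3 : valuation_Δ_aux ℤ_[p] (C • W) ≤ valuation_Δ_aux ℤ_[p] W := by
    rw [← Subtype.coe_le_coe, e1, e2]
    exact hcon.le
  have h4 := h2 h3
  rw [← Subtype.coe_le_coe, e1, e2] at h4
  exact absurd h4 (not_le.mpr hcon)

lemma norm_eq_one_of_unit {r : ℤ_[p]} (h : IsUnit r) : ‖algebraMap ℤ_[p] ℚ_[p] r‖ = 1 := by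
  rw [PadicInt.isUnit_iff] at h
  exact h

lemma norm_le_one_of_int (r : ℤ_[p]) : ‖algebraMap ℤ_[p] ℚ_[p] r‖ ≤ 1 := r.2

theorem good_main (hp : 5 ≤ p) (W0 : WeierstrassCurve ℤ_[p]) (h1 : W0.a₁ = 0) (h2 : W0.a₂ = 0)
    (h3 : W0.a₃ = 0) (hΔ : IsUnit W0.Δ) :
    ((W0.map (algebraMap ℤ_[p] ℚ_[p])).minimal ℤ_[p]).HasGoodReduction ℤ_[p] ∧
    Nat.card (((W0.map (algebraMap ℤ_[p] ℚ_[p])).minimal ℤ_[p]).reduction ℤ_[p]).toAffine.Point =
      Nat.card (W0.map (PadicInt.toZMod (p := p))).toAffine.Point := by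
  obtain ⟨C, hC, hle⟩ := minimal_spec W0
  set W := W0.map (algebraMap ℤ_[p] ℚ_[p]) with hW
  have hWΔ : W.Δ = algebraMap ℤ_[p] ℚ_[p] W0.Δ := by rw [hW, map_Δ]
  have hv1 : (IsDiscreteValuationRing.maximalIdeal ℤ_[p]).valuation ℚ_[p] W.Δ = 1 := by
    rw [hWΔ, val_eq_one_iff]; exact hΔ
  set Wm := W.minimal ℤ_[p] with hWm
  have hint := integralModel_Δ_eq ℤ_[p] Wm
  have hvm : (IsDiscreteValuationRing.maximalIdeal ℤ_[p]).valuation ℚ_[p] Wm.Δ = 1 := by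
    apply le_antisymm
    · rw [← hint]; exact valuation_le_one _ _
    · rw [hC, ← hv1]; exact hle
  have hgood : Wm.HasGoodReduction ℤ_[p] := ⟨hvm⟩
  refine ⟨hgood, ?_⟩
  have hunit : IsUnit (integralModel ℤ_[p] Wm).Δ := by
    rw [← val_eq_one_iff, hint]; exact hvm
  -- norms
  have hnΔ : ‖W.Δ‖ = 1 := by rw [hWΔ]; exact norm_eq_one_of_unit hΔ
  have hnΔm : ‖Wm.Δ‖ = 1 := by rw [← hint]; exact norm_eq_one_of_unit hunit
  have hu : ‖(C.u : ℚ_[p])‖ = 1 := by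
    have h := congrArg norm (congrArg WeierstrassCurve.Δ hC)
    rw [variableChange_Δ, norm_mul, hnΔ, hnΔm, mul_one, norm_pow, Units.val_inv_eq_inv_val,
      norm_inv] at h
    have h5 : ‖(C.u : ℚ_[p])‖⁻¹ = 1 :=
      (pow_eq_one_iff_of_nonneg (by positivity) (by norm_num)).mp h.symm
    exact inv_eq_one.mp h5
  have hu' : ‖(C.u⁻¹ : ℚ_[p])‖ = 1 := by rw [norm_inv, hu, inv_one]
  have hn2 : ‖(2 : ℚ_[p])‖ = 1 := by
    exact_mod_cast norm_natCast_eq_one (p := p) (n := 2) (by norm_num) (by omega)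
  have hn3 : ‖(3 : ℚ_[p])‖ = 1 := by
    exact_mod_cast norm_natCast_eq_one (p := p) (n := 3) (by norm_num) (by omega)
  have hWa₁ : W.a₁ = 0 := by rw [hW, map_a₁, h1, map_zero]
  have hWa₂ : W.a₂ = 0 := by rw [hW, map_a₂, h2, map_zero]
  have hWa₃ : W.a₃ = 0 := by rw [hW, map_a₃, h3, map_zero]
  have hu0 : (C.u : ℚ_[p]) ≠ 0 := C.u.ne_zero
  have hm₁ : ‖Wm.a₁‖ ≤ 1 := by rw [← integralModel_a₁_eq ℤ_[p] Wm]; exact norm_le_one_of_int _
  have hm₂ : ‖Wm.a₂‖ ≤ 1 := by rw [← integralModel_a₂_eq ℤ_[p] Wm]; exact norm_le_one_of_int _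
  have hm₃ : ‖Wm.a₃‖ ≤ 1 := by rw [← integralModel_a₃_eq ℤ_[p] Wm]; exact norm_le_one_of_int _
  have hs : ‖C.s‖ ≤ 1 := by
    have h : 2 * C.s = C.u * Wm.a₁ := by
      rw [hC, variableChange_a₁, hWa₁, Units.val_inv_eq_inv_val]; field_simp; ring
    have h' := congrArg norm h
    rw [norm_mul, norm_mul, hn2, hu, one_mul, one_mul] at h'
    rw [h']; exact hm₁
  have hr : ‖C.r‖ ≤ 1 := by
    have h : 3 * C.r = C.u ^ 2 * Wm.a₂ + C.s ^ 2 := by
      rw [hC, variableChange_a₂, hWa₂, hWa₁, Units.val_inv_eq_inv_val]; field_simp; ring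
    have h' := congrArg norm h
    rw [norm_mul, hn3, one_mul] at h'
    rw [h']
    refine (Padic.nonarchimedean _ _).trans (max_le ?_ ?_)
    · rw [norm_mul, norm_pow, hu, one_pow, one_mul]; exact hm₂
    · rw [norm_pow]; exact pow_le_one₀ (norm_nonneg _) hs
  have ht : ‖C.t‖ ≤ 1 := by
    have h : 2 * C.t = C.u ^ 3 * Wm.a₃ := by
      rw [hC, variableChange_a₃, hWa₃, hWa₁, Units.val_inv_eq_inv_val]; field_simp; ring
    have h' := congrArg norm h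
    rw [norm_mul, norm_mul, norm_pow, hn2, hu, one_mul, one_pow, one_mul] at h'
    rw [h']; exact hm₃
  -- the integral variable change
  let u0 : ℤ_[p]ˣ := PadicInt.mkUnits hu
  let C0 : VariableChange ℤ_[p] := ⟨u0, ⟨C.r, hr⟩, ⟨C.s, hs⟩, ⟨C.t, ht⟩⟩
  have hC0 : C0.map (algebraMap ℤ_[p] ℚ_[p]) = C := by
    ext
    · rfl
    · rfl
    · rfl
    · rfl
  have hmodel : integralModel ℤ_[p] Wm = C0 • W0 := by
    have hinj : Function.Injective (algebraMap ℤ_[p] ℚ_[p]) :=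
      FaithfulSMul.algebraMap_injective _ _
    apply WeierstrassCurve.map_injective hinj
    change (integralModel ℤ_[p] Wm).map (algebraMap ℤ_[p] ℚ_[p]) =
      (C0 • W0).map (algebraMap ℤ_[p] ℚ_[p])
    rw [← map_variableChange, hC0, ← hW]
    exact (baseChange_integralModel_eq ℤ_[p] Wm).trans hC
  have hred : Wm.reduction ℤ_[p] = (C0.map (IsLocalRing.residue ℤ_[p])) •
      (W0.map (IsLocalRing.residue ℤ_[p])) := by
    rw [map_variableChange, ← hmodel]; rfl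
  haveI : Finite (IsLocalRing.ResidueField ℤ_[p]) :=
    Finite.of_equiv _ (PadicInt.residueField (p := p)).symm.toEquiv
  have hresΔ : (Wm.reduction ℤ_[p]).Δ ≠ 0 := by
    have := (hasGoodReduction_iff_isElliptic_reduction ℤ_[p] (W := Wm)).mp hgood
    exact this.isUnit.ne_zero
  have hmap : (W0.map (IsLocalRing.residue ℤ_[p])).map
      ((PadicInt.residueField (p := p) : IsLocalRing.ResidueField ℤ_[p] ≃+* ZMod p) :
        IsLocalRing.ResidueField ℤ_[p] →+* ZMod p) = W0.map (PadicInt.toZMod (p := p)) := by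
    rw [WeierstrassCurve.map_map, PadicInt.toZMod_eq_residueField_comp_residue]
    rfl
  have hΔ2 : (W0.map (PadicInt.toZMod (p := p))).Δ ≠ 0 := by
    rw [map_Δ]
    exact (hΔ.map (PadicInt.toZMod (p := p))).ne_zero
  rw [card_point _ hresΔ, card_point _ hΔ2, hred, card_eq_vc, ← hmap, card_eq_ringEquiv]

theorem bad_main (W0 : WeierstrassCurve ℤ_[p]) (hΔ : ¬ IsUnit W0.Δ) (hc : IsUnit W0.c₄) :
    ¬ ((W0.map (algebraMap ℤ_[p] ℚ_[p])).minimal ℤ_[p]).HasGoodReduction ℤ_[p] := by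
  intro hgood
  obtain ⟨C, hC, hle⟩ := minimal_spec W0
  set W := W0.map (algebraMap ℤ_[p] ℚ_[p]) with hW
  have hWΔ : W.Δ = algebraMap ℤ_[p] ℚ_[p] W0.Δ := by rw [hW, map_Δ]
  have hWc : W.c₄ = algebraMap ℤ_[p] ℚ_[p] W0.c₄ := by rw [hW, map_c₄]
  set Wm := W.minimal ℤ_[p] with hWm
  have hint := integralModel_Δ_eq ℤ_[p] Wm
  have hvm := hgood.goodReduction
  have hunit : IsUnit (integralModel ℤ_[p] Wm).Δ := by
    rw [← val_eq_one_iff, hint]; exact hvm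
  have hnc : ‖W.c₄‖ = 1 := by rw [hWc]; exact norm_eq_one_of_unit hc
  have hnΔm : ‖Wm.Δ‖ = 1 := by rw [← hint]; exact norm_eq_one_of_unit hunit
  have hmc : ‖Wm.c₄‖ ≤ 1 := by rw [← integralModel_c₄_eq ℤ_[p] Wm]; exact norm_le_one_of_int _
  have hnΔ : ‖W.Δ‖ < 1 := by
    rw [hWΔ]
    rw [PadicInt.not_isUnit_iff] at hΔ
    exact hΔ
  have hu0 : 0 < ‖(C.u : ℚ_[p])‖ := norm_pos_iff.mpr C.u.ne_zero
  have h1 : 1 ≤ ‖(C.u : ℚ_[p])‖ := by
    rw [hC, variableChange_c₄, norm_mul, hnc, mul_one, norm_pow, Units.val_inv_eq_inv_val,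
      norm_inv, inv_pow] at hmc
    by_contra hcon
    push Not at hcon
    have h2 : ‖(C.u : ℚ_[p])‖ ^ 4 < 1 := pow_lt_one₀ hu0.le hcon (by norm_num)
    have h3 : 1 < (‖(C.u : ℚ_[p])‖ ^ 4)⁻¹ := (one_lt_inv₀ (by positivity)).mpr h2
    linarith
  rw [hC, variableChange_Δ, norm_mul, norm_pow, Units.val_inv_eq_inv_val, norm_inv,
    inv_pow] at hnΔm
  have h4 : (‖(C.u : ℚ_[p])‖ ^ 12)⁻¹ ≤ 1 := inv_le_one_of_one_le₀ (one_le_pow₀ h1)
  have h5 : (‖(C.u : ℚ_[p])‖ ^ 12)⁻¹ * ‖W.Δ‖ < 1 := by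
    have h6 : 0 ≤ ‖W.Δ‖ := norm_nonneg _
    calc (‖(C.u : ℚ_[p])‖ ^ 12)⁻¹ * ‖W.Δ‖ ≤ 1 * ‖W.Δ‖ := mul_le_mul_of_nonneg_right h4 h6
      _ < 1 := by linarith
  linarith

end padic

end Pool.Agent.H11.STA
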