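import Mathlib
import Pool.Agent.H11.STA.Padic

/-!
# The angle of `y² = x³ + ax + b` at a prime `p ≥ 5` depends only on `a, b` modulo `p`,
unless `p` divides both `a` and `b`
-/

namespace Pool.Agent.H11.STA

open WeierstrassCurve

lemma isUnit_iff_toZMod {p : ℕ} [Fact p.Prime] (r : ℤ_[p]) :
    IsUnit r ↔ PadicInt.toZMod (p := p) r ≠ 0 := by
  rw [ne_eq, ← RingHom.mem_ker, PadicInt.ker_toZMod, IsLocalRing.mem_maximalIdeal,
    mem_nonunits_iff, not_not]

lemma baseChange_short {p : ℕ} [Fact p.Prime] (a b : ℤ) :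
    (shortCurve (a : ℚ) (b : ℚ)).baseChange ℚ_[p] =
      (shortCurve (a : ℤ_[p]) (b : ℤ_[p])).map (algebraMap ℤ_[p] ℚ_[p]) := by
  rw [WeierstrassCurve.baseChange, shortCurve_map, shortCurve_map]
  simp

lemma natCast_ne_zero {p : ℕ} [Fact p.Prime] (hp : 5 ≤ p) :
    (16 : ZMod p) ≠ 0 ∧ (48 : ZMod p) ≠ 0 ∧ (27 : ZMod p) ≠ 0 := by
  have hpp : p.Prime := Fact.out
  have h2 : ¬ p ∣ 2 := fun h => absurd (Nat.le_of_dvd (by norm_num) h) (by omega)
  have h3 : ¬ p ∣ 3 := fun h => absurd (Nat.le_of_dvd (by norm_num) h) (by omega)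
  refine ⟨?_, ?_, ?_⟩
  · intro h
    have h' : ((16 : ℕ) : ZMod p) = 0 := by exact_mod_cast h
    rw [ZMod.natCast_eq_zero_iff] at h'
    have : (16 : ℕ) = 2 ^ 4 := by norm_num
    rw [this] at h'
    exact h2 (hpp.dvd_of_dvd_pow h')
  · intro h
    have h' : ((48 : ℕ) : ZMod p) = 0 := by exact_mod_cast h
    rw [ZMod.natCast_eq_zero_iff] at h'
    have : (48 : ℕ) = 2 ^ 4 * 3 := by norm_num
    rw [this] at h'
    rcases (hpp.dvd_mul).mp h' with h4 | h4
    · exact h2 (hpp.dvd_of_dvd_pow h4)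
    · exact h3 h4
  · intro h
    have h' : ((27 : ℕ) : ZMod p) = 0 := by exact_mod_cast h
    rw [ZMod.natCast_eq_zero_iff] at h'
    have : (27 : ℕ) = 3 ^ 3 := by norm_num
    rw [this] at h'
    exact h3 (hpp.dvd_of_dvd_pow h')

theorem angle_eq (a b : ℤ) (k : ℕ) (hk : 2 ≤ k)
    (hab : ¬ (((a : ℤ) : ZMod (Nat.nth Nat.Prime k)) = 0 ∧
      ((b : ℤ) : ZMod (Nat.nth Nat.Prime k)) = 0)) :
    angle (shortCurve (a : ℚ) (b : ℚ)) k = redAngle (Nat.nth Nat.Prime k) a b := by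
  have hp : 5 ≤ Nat.nth Nat.Prime k := by
    have h1 : Nat.nth Nat.Prime 2 ≤ Nat.nth Nat.Prime k :=
      Nat.nth_monotone Nat.infinite_setOfPred_prime hk
    have h2 : Nat.nth Nat.Prime 2 = 5 := Nat.nth_prime_two_eq_five
    omega
  set p := Nat.nth Nat.Prime k with hpdef
  haveI : Fact p.Prime := factPrime k
  obtain ⟨h16, h48, h27⟩ := natCast_ne_zero (p := p) hp
  set W0 : WeierstrassCurve ℤ_[p] := shortCurve (a : ℤ_[p]) (b : ℤ_[p]) with hW0
  have hmapZ : W0.map (PadicInt.toZMod (p := p)) = shortCurve (a : ZMod p) (b : ZMod p) := by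
    rw [hW0, shortCurve_map, map_intCast, map_intCast]
  have hΔZ : PadicInt.toZMod (p := p) W0.Δ = -16 * (4 * (a : ZMod p) ^ 3 + 27 * (b : ZMod p) ^ 2) := by
    rw [← map_Δ, hmapZ, shortCurve_Δ]
  have hcZ : PadicInt.toZMod (p := p) W0.c₄ = -48 * (a : ZMod p) := by
    rw [← map_c₄, hmapZ, shortCurve_c₄]
  unfold angle redAngle
  by_cases hs : 4 * (a : ZMod p) ^ 3 + 27 * (b : ZMod p) ^ 2 = 0
  · rw [if_pos hs]
    have hnu : ¬ IsUnit W0.Δ := by
      rw [isUnit_iff_toZMod, hΔZ, hs, mul_zero, not_not]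
    have hcu : IsUnit W0.c₄ := by
      rw [isUnit_iff_toZMod, hcZ]
      have ha : (a : ZMod p) ≠ 0 := by
        intro ha
        apply hab
        refine ⟨ha, ?_⟩
        rw [ha] at hs
        have h3 : (27 : ZMod p) * (b : ZMod p) ^ 2 = 0 := by linear_combination hs
        rcases mul_eq_zero.mp h3 with h4 | h4
        · exact absurd h4 h27
        · exact pow_eq_zero_iff (two_ne_zero) |>.mp h4
      exact mul_ne_zero (neg_ne_zero.mpr h48) ha
    have hbad := bad_main W0 hnu hcu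
    rw [if_neg]
    rw [GoodAt, baseChange_short]
    exact hbad
  · rw [if_neg hs]
    have hu : IsUnit W0.Δ := by
      rw [isUnit_iff_toZMod, hΔZ]
      exact mul_ne_zero (neg_ne_zero.mpr h16) hs
    obtain ⟨hg, hcard⟩ := good_main hp W0 rfl rfl rfl hu
    rw [if_pos]
    · have hft : (frobTrace (shortCurve (a : ℚ) (b : ℚ)) p : ℝ) =
          (p : ℝ) + 1 - (Nat.card (shortCurve (a : ZMod p) (b : ZMod p)).toAffine.Point : ℝ) := by
        have h5 : frobTrace (shortCurve (a : ℚ) (b : ℚ)) p = (p : ℤ) + 1 -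
            (Nat.card (shortCurve (a : ZMod p) (b : ZMod p)).toAffine.Point : ℤ) := by
          rw [← hmapZ, ← hcard]
          unfold frobTrace
          simp only [baseChange_short]
          rfl
        rw [h5]; push_cast; ring
      rw [hft]
    · rw [GoodAt, baseChange_short]
      exact hg

end Pool.Agent.H11.STA
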