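import Mathlib
import Pool.Agent.H11.STA.Window
import Pool.Agent.H11.STA.Angle

/-!
# The set of curves for which some box has a large deviation
-/

namespace Pool.Agent.H11.STA

open Finset

lemma redAngle_nonneg (p : ℕ) [Fact p.Prime] (u v : ZMod p) : 0 ≤ redAngle p u v := by
  unfold redAngle
  split_ifs
  · norm_num
  · exact div_nonneg (Real.arccos_nonneg _) Real.pi_pos.le

lemma redAngle_le_one (p : ℕ) [Fact p.Prime] (u v : ZMod p) : redAngle p u v ≤ 1 := by
  unfold redAngle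
  split_ifs
  · norm_num
  · exact (div_le_one Real.pi_pos).mpr (Real.arccos_le_pi _)

open Classical in
/-- All angles occurring at the first `n` primes. -/
noncomputable def vals (n : ℕ) : Finset ℝ := (range n).biUnion fun j =>
  (univ : Finset (ZMod (Nat.nth Nat.Prime j) × ZMod (Nat.nth Nat.Prime j))).image
    fun w => redAngle (Nat.nth Nat.Prime j) w.1 w.2

lemma mem_vals {n j : ℕ} (hj : j < n) (u v : ZMod (Nat.nth Nat.Prime j)) :
    redAngle (Nat.nth Nat.Prime j) u v ∈ vals n := by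
  classical
  unfold vals
  rw [Finset.mem_biUnion]
  exact ⟨j, Finset.mem_range.mpr hj, Finset.mem_image.mpr ⟨(u, v), Finset.mem_univ _, rfl⟩⟩

lemma vals_le_one {n : ℕ} {x : ℝ} (hx : x ∈ vals n) : x ≤ 1 := by
  classical
  unfold vals at hx
  rw [Finset.mem_biUnion] at hx
  obtain ⟨j, -, hj⟩ := hx
  rw [Finset.mem_image] at hj
  obtain ⟨w, -, rfl⟩ := hj
  exact redAngle_le_one _ _ _

lemma card_vals (n P : ℕ) (hP : ∀ j < n, Nat.nth Nat.Prime j ≤ P) :
    (vals n).card ≤ n * P ^ 2 := by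
  classical
  unfold vals
  refine Finset.card_biUnion_le.trans ?_
  have h : ∀ j ∈ range n, ((univ : Finset (ZMod (Nat.nth Nat.Prime j) ×
      ZMod (Nat.nth Nat.Prime j))).image
      fun w => redAngle (Nat.nth Nat.Prime j) w.1 w.2).card ≤ P ^ 2 := by
    intro j hj
    refine Finset.card_image_le.trans ?_
    rw [Finset.card_univ, Fintype.card_prod, ZMod.card]
    have := hP j (Finset.mem_range.mp hj)
    nlinarith
  refine (Finset.sum_le_sum h).trans ?_
  simp

open Classical in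
/-- Round up to the next element of `V` (or to `2`). -/
noncomputable def rnd (V : Finset ℝ) (x : ℝ) : ℝ :=
  if h : (V.filter (fun v => x ≤ v)).Nonempty then (V.filter (fun v => x ≤ v)).min' h else 2

lemma rnd_mem (V : Finset ℝ) (x : ℝ) : rnd V x ∈ insert 2 V := by
  classical
  unfold rnd
  split_ifs with h
  · exact Finset.mem_insert_of_mem (Finset.mem_filter.mp (Finset.min'_mem _ h)).1
  · exact Finset.mem_insert_self _ _

lemma rnd_le_iff (V : Finset ℝ) (hV : ∀ v ∈ V, v ≤ 1) (x : ℝ) {v : ℝ} (hv : v ∈ V) :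
    rnd V x ≤ v ↔ x ≤ v := by
  classical
  unfold rnd
  split_ifs with h
  · constructor
    · intro h1
      exact (Finset.mem_filter.mp (Finset.min'_mem _ h)).2.trans h1
    · intro h1
      exact Finset.min'_le _ _ (Finset.mem_filter.mpr ⟨hv, h1⟩)
  · constructor
    · intro h1
      have := hV v hv
      linarith
    · intro h1
      exact absurd ⟨v, Finset.mem_filter.mpr ⟨hv, h1⟩⟩ h

lemma ind_rnd {n j : ℕ} (hj : j < n) (α β : ℝ) (u v : ZMod (Nat.nth Nat.Prime j)) :
    ind j (rnd (vals n) α) (rnd (vals n) β) u v = ind j α β u v := by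
  unfold ind
  have h1 := rnd_le_iff (vals n) (fun v hv => vals_le_one hv) α (mem_vals hj u v)
  have h2 := rnd_le_iff (vals n) (fun v hv => vals_le_one hv) β (mem_vals hj u v)
  have h3 : redAngle (Nat.nth Nat.Prime j) u v ∈ Set.Ico (rnd (vals n) α) (rnd (vals n) β) ↔
      redAngle (Nat.nth Nat.Prime j) u v ∈ Set.Ico α β := by
    rw [Set.mem_Ico, Set.mem_Ico, h1, ← not_le, ← not_le, h2]
  simp only [h3]

lemma angleLaw_rnd {n j : ℕ} (hj : j < n) (α β : ℝ) :
    angleLaw j (Set.Ico (rnd (vals n) α) (rnd (vals n) β)) = angleLaw j (Set.Ico α β) := by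
  have h0 : (Nat.nth Nat.Prime j : ℝ) ^ 2 ≠ 0 := by
    have : (Nat.nth Nat.Prime j : ℝ) ≠ 0 := by exact_mod_cast (NeZero.ne _)
    positivity
  apply mul_left_cancel₀ h0
  rw [← sum_ind, ← sum_ind]
  simp only [ind_rnd hj]

lemma dev_int (s : ℕ) (α β : Fin s → ℝ) (K : ℕ) (a b : ℤ) :
    dev s α β K a b = ∑ k ∈ range K, (∏ i : Fin s, ind (k + i) (α i) (β i) a b -
      ∏ i : Fin s, angleLaw (k + i) (Set.Ico (α i) (β i))) := by
  unfold dev cen
  simp only [winFun_int]

lemma dev_rnd (s : ℕ) (α β : Fin s → ℝ) (K : ℕ) (a b : ℤ) :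
    dev s (fun i => rnd (vals (K + s)) (α i)) (fun i => rnd (vals (K + s)) (β i)) K a b =
      dev s α β K a b := by
  rw [dev_int, dev_int]
  refine Finset.sum_congr rfl (fun k hk => ?_)
  rw [Finset.mem_range] at hk
  congr 1
  · refine Finset.prod_congr rfl (fun i _ => ?_)
    have := i.2
    exact ind_rnd (by omega) _ _ _ _
  · refine Finset.prod_congr rfl (fun i _ => ?_)
    have := i.2
    exact angleLaw_rnd (by omega) _ _

/-- The box of curves. -/
noncomputable def curveBox (A B : ℤ) (X Y : ℕ) : Finset (ℤ × ℤ) := Ico A (A + X) ×ˢ Ico B (B + Y)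

lemma card_curveBox (A B : ℤ) (X Y : ℕ) : ((curveBox A B X Y).card : ℝ) = (X : ℝ) * Y := by
  unfold curveBox
  rw [Finset.card_product, Int.card_Ico, Int.card_Ico]
  simp

open Classical in
/-- Union bound over all boxes: few curves have a box with deviation above `l`. -/
theorem card_bad (s : ℕ) (hs : 1 ≤ s) (K P q : ℕ) (hq : 1 ≤ q)
    (hP : ∀ j < K + s, Nat.nth Nat.Prime j ≤ P) (A B : ℤ) (X Y : ℕ) (l : ℝ) (hl : 0 < l) :
    (((curveBox A B X Y).filter (fun w => ∃ α β : Fin s → ℝ, l < |dev s α β K w.1 w.2|)).card : ℝ) *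
      l ^ (2 * q) ≤ (((K + s) * P ^ 2 + 1 : ℕ) : ℝ) ^ (2 * s) *
      ((s : ℝ) ^ (2 * q) * ((q : ℝ) ^ (2 * q) * (K : ℝ) ^ q * ((X : ℝ) * Y) +
        (K : ℝ) ^ (2 * q) * ((P : ℝ) ^ (2 * q * s) * ((X : ℝ) + Y)))) := by
  set V' := insert 2 (vals (K + s)) with hV'
  set Pi := Fintype.piFinset (fun _ : Fin s => V') with hPi
  set M := (s : ℝ) ^ (2 * q) * ((q : ℝ) ^ (2 * q) * (K : ℝ) ^ q * ((X : ℝ) * Y) +
        (K : ℝ) ^ (2 * q) * ((P : ℝ) ^ (2 * q * s) * ((X : ℝ) + Y))) with hM
  have hM0 : 0 ≤ M := by positivity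
  have hsub : (curveBox A B X Y).filter (fun w => ∃ α β : Fin s → ℝ, l < |dev s α β K w.1 w.2|) ⊆
      (Pi ×ˢ Pi).biUnion (fun ab => (curveBox A B X Y).filter
        (fun w => l < |dev s ab.1 ab.2 K w.1 w.2|)) := by
    intro w hw
    rw [Finset.mem_filter] at hw
    obtain ⟨hw1, α, β, hab⟩ := hw
    rw [Finset.mem_biUnion]
    refine ⟨(fun i => rnd (vals (K + s)) (α i), fun i => rnd (vals (K + s)) (β i)), ?_, ?_⟩
    · rw [Finset.mem_product, hPi, Fintype.mem_piFinset, Fintype.mem_piFinset]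
      exact ⟨fun i => rnd_mem _ _, fun i => rnd_mem _ _⟩
    · rw [Finset.mem_filter]
      refine ⟨hw1, ?_⟩
      rw [dev_rnd]
      exact hab
  have hone : ∀ ab ∈ Pi ×ˢ Pi, (((curveBox A B X Y).filter
      (fun w => l < |dev s ab.1 ab.2 K w.1 w.2|)).card : ℝ) * l ^ (2 * q) ≤ M := by
    intro ab _
    have h1 := dev_moment s hs ab.1 ab.2 K P q hq hP A B X Y
    refine le_trans ?_ h1
    rw [← Finset.sum_product' (Ico A (A + X)) (Ico B (B + Y))
      (fun a b => (dev s ab.1 ab.2 K a b) ^ (2 * q))]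
    change _ ≤ ∑ x ∈ curveBox A B X Y, (dev s ab.1 ab.2 K x.1 x.2) ^ (2 * q)
    calc (((curveBox A B X Y).filter
      (fun w => l < |dev s ab.1 ab.2 K w.1 w.2|)).card : ℝ) * l ^ (2 * q)
        = ∑ x ∈ (curveBox A B X Y).filter
          (fun w => l < |dev s ab.1 ab.2 K w.1 w.2|), l ^ (2 * q) := by
          rw [Finset.sum_const, nsmul_eq_mul]
      _ ≤ ∑ x ∈ (curveBox A B X Y).filter
          (fun w => l < |dev s ab.1 ab.2 K w.1 w.2|), (dev s ab.1 ab.2 K x.1 x.2) ^ (2 * q) := by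
          refine Finset.sum_le_sum (fun x hx => ?_)
          rw [Finset.mem_filter] at hx
          rw [← (even_two_mul q).pow_abs (dev s ab.1 ab.2 K x.1 x.2)]
          exact pow_le_pow_left₀ hl.le hx.2.le _
      _ ≤ ∑ x ∈ curveBox A B X Y, (dev s ab.1 ab.2 K x.1 x.2) ^ (2 * q) := by
          refine Finset.sum_le_sum_of_subset_of_nonneg (Finset.filter_subset _ _) ?_
          intro x _ _
          exact (even_two_mul q).pow_nonneg _
  have hcV : V'.card ≤ (K + s) * P ^ 2 + 1 := by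
    rw [hV']
    exact (Finset.card_insert_le _ _).trans (Nat.add_le_add_right (card_vals _ _ hP) 1)
  have hcPi : (Pi ×ˢ Pi).card ≤ ((K + s) * P ^ 2 + 1) ^ (2 * s) := by
    rw [Finset.card_product, hPi, Fintype.card_piFinset_const, ← pow_add, ← two_mul]
    exact Nat.pow_le_pow_left hcV _
  calc (((curveBox A B X Y).filter (fun w => ∃ α β : Fin s → ℝ,
        l < |dev s α β K w.1 w.2|)).card : ℝ) * l ^ (2 * q)
      ≤ (∑ ab ∈ Pi ×ˢ Pi, (((curveBox A B X Y).filter
        (fun w => l < |dev s ab.1 ab.2 K w.1 w.2|)).card : ℝ)) * l ^ (2 * q) := by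
        refine mul_le_mul_of_nonneg_right ?_ (by positivity)
        exact_mod_cast (Finset.card_le_card hsub).trans Finset.card_biUnion_le
    _ = ∑ ab ∈ Pi ×ˢ Pi, (((curveBox A B X Y).filter
        (fun w => l < |dev s ab.1 ab.2 K w.1 w.2|)).card : ℝ) * l ^ (2 * q) := by
        rw [Finset.sum_mul]
    _ ≤ ∑ ab ∈ Pi ×ˢ Pi, M := Finset.sum_le_sum hone
    _ = ((Pi ×ˢ Pi).card : ℝ) * M := by rw [Finset.sum_const, nsmul_eq_mul]
    _ ≤ (((K + s) * P ^ 2 + 1 : ℕ) : ℝ) ^ (2 * s) * M := by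
        refine mul_le_mul_of_nonneg_right ?_ hM0
        exact_mod_cast hcPi

/-- From the true angles to the angles of the reduced curves. -/
theorem boxCount_near (s : ℕ) (α β : Fin s → ℝ) (K k0 : ℕ) (hk0 : 2 ≤ k0) (a b : ℤ)
    (hgcd : ∀ k, k0 ≤ k → k < K + s → ¬ (((a : ℤ) : ZMod (Nat.nth Nat.Prime k)) = 0 ∧
      ((b : ℤ) : ZMod (Nat.nth Nat.Prime k)) = 0)) :
    |(boxCount (shortCurve (a : ℚ) (b : ℚ)) α β K : ℝ) -
      ∑ k ∈ range K, ∏ i : Fin s, angleLaw (k + i) (Set.Ico (α i) (β i))| ≤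
      k0 + |dev s α β K a b| := by
  classical
  have h1 : (boxCount (shortCurve (a : ℚ) (b : ℚ)) α β K : ℝ) = ∑ k ∈ range K,
      (if (fun i : Fin s => angle (shortCurve (a : ℚ) (b : ℚ)) (k + i)) ∈ box α β
        then (1 : ℝ) else 0) := by
    unfold boxCount
    rw [Finset.card_filter]
    push_cast
    refine Finset.sum_congr rfl (fun k _ => ?_)
    congr
  have hprod : ∀ k, ∏ i : Fin s, ind (k + i) (α i) (β i) a b =
      if (∀ i : Fin s, redAngle (Nat.nth Nat.Prime (k + i)) a b ∈ Set.Ico (α i) (β i))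
        then (1 : ℝ) else 0 := by
    intro k
    unfold ind
    split_ifs with h
    · refine Finset.prod_eq_one (fun i _ => if_pos (h i))
    · push Not at h
      obtain ⟨i, hi⟩ := h
      exact Finset.prod_eq_zero (Finset.mem_univ i) (if_neg hi)
  have hterm : ∀ k ∈ range K, |(if (fun i : Fin s => angle (shortCurve (a : ℚ) (b : ℚ)) (k + i)) ∈
      box α β then (1 : ℝ) else 0) - ∏ i : Fin s, ind (k + i) (α i) (β i) a b| ≤
      if k < k0 then 1 else 0 := by
    intro k hk
    rw [Finset.mem_range] at hk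
    rw [hprod]
    by_cases hkk : k < k0
    · rw [if_pos hkk]
      split_ifs <;> norm_num
    · rw [if_neg hkk]
      have h2 : ((fun i : Fin s => angle (shortCurve (a : ℚ) (b : ℚ)) (k + i)) ∈ box α β) ↔
          (∀ i : Fin s, redAngle (Nat.nth Nat.Prime (k + i)) a b ∈ Set.Ico (α i) (β i)) := by
        unfold box
        rw [Set.mem_univ_pi]
        refine forall_congr' (fun i => ?_)
        have := i.2
        rw [angle_eq a b (k + i) (by omega) (hgcd (k + i) (by omega) (by omega))]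
      simp only [h2, sub_self, abs_zero, le_refl]
  have h3 : |(boxCount (shortCurve (a : ℚ) (b : ℚ)) α β K : ℝ) -
      ∑ k ∈ range K, ∏ i : Fin s, ind (k + i) (α i) (β i) a b| ≤ k0 := by
    rw [h1, ← Finset.sum_sub_distrib]
    refine (Finset.abs_sum_le_sum_abs _ _).trans ((Finset.sum_le_sum hterm).trans ?_)
    rw [← Finset.sum_filter, Finset.sum_const, nsmul_eq_mul, mul_one]
    have h4 : ((range K).filter (fun k => k < k0)).card ≤ k0 := by
      have : (range K).filter (fun k => k < k0) ⊆ range k0 := by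
        intro k hk
        rw [Finset.mem_filter] at hk
        exact Finset.mem_range.mpr hk.2
      simpa using Finset.card_le_card this
    exact_mod_cast h4
  have h5 : ∑ k ∈ range K, ∏ i : Fin s, ind (k + i) (α i) (β i) a b -
      ∑ k ∈ range K, ∏ i : Fin s, angleLaw (k + i) (Set.Ico (α i) (β i)) = dev s α β K a b := by
    rw [dev_int, Finset.sum_sub_distrib]
  rw [← h5]
  have h6 := abs_add_le ((boxCount (shortCurve (a : ℚ) (b : ℚ)) α β K : ℝ) -
      ∑ k ∈ range K, ∏ i : Fin s, ind (k + i) (α i) (β i) a b)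
      (∑ k ∈ range K, ∏ i : Fin s, ind (k + i) (α i) (β i) a b -
      ∑ k ∈ range K, ∏ i : Fin s, angleLaw (k + i) (Set.Ico (α i) (β i)))
  rw [sub_add_sub_cancel] at h6
  linarith

end Pool.Agent.H11.STA
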