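import Mathlib
import Pool.Agent.H11.STA.Defs

/-!
# A bound for the `K`-th prime, and elementary facts on the Sato-Tate measure
-/

namespace Pool.Agent.H11.STA

open MeasureTheory Set

lemma nth_prime_le (K : ℕ) (hK : 2 ≤ K) :
    (Nat.nth Nat.Prime (K - 1) : ℝ) ≤ 45 * (K * Real.log K) := by
  set P : ℕ := Nat.nth Nat.Prime (K - 1) with hP
  have hP3 : 3 ≤ P := by
    have h1 : Nat.nth Nat.Prime 1 ≤ P := Nat.nth_monotone Nat.infinite_setOfPred_prime (by omega)
    have h2 : Nat.nth Nat.Prime 1 = 3 := Nat.nth_prime_one_eq_three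
    omega
  have hcount : Nat.primeCounting P = K := by
    have h1 : Nat.primeCounting' P = K - 1 := Nat.primeCounting'_nth_eq (K - 1)
    have h2 : Nat.primeCounting P = Nat.primeCounting' P + 1 := by
      unfold Nat.primeCounting Nat.primeCounting'
      rw [Nat.count_succ, if_pos (Nat.prime_nth_prime (K - 1))]
    omega
  have hPR : (3 : ℝ) ≤ P := by exact_mod_cast hP3
  have hKR : (2 : ℝ) ≤ K := by exact_mod_cast hK
  have hlogP : 0 < Real.log P := Real.log_pos (by linarith)
  have hch := Chebyshev.pi_ge P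
  rw [hcount, div_le_iff₀ hlogP] at hch
  have hlog2 := Real.log_two_gt_d9
  have hlog2' := Real.log_two_lt_d9
  have h1 : Real.log ((P : ℝ) + 1) ≤ 2 * Real.log 2 + ((P : ℝ) - 3) / 4 := by
    have h2 : (P : ℝ) + 1 = 2 * 2 * (((P : ℝ) + 1) / 4) := by ring
    rw [h2, Real.log_mul (by norm_num) (by positivity), Real.log_mul (by norm_num) (by norm_num)]
    have h3 := Real.log_le_sub_one_of_pos (x := ((P : ℝ) + 1) / 4) (by positivity)
    linarith
  have h2 : (P : ℝ) ≤ 5 * (K * Real.log P) := by nlinarith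
  have h3 : Real.log P ≤ 2 * √(P : ℝ) := by
    have h4 : Real.log (√(P : ℝ)) ≤ √(P : ℝ) - 1 :=
      Real.log_le_sub_one_of_pos (Real.sqrt_pos.mpr (by linarith))
    rw [Real.log_sqrt (by linarith)] at h4
    linarith
  have hs0 : 0 < √(P : ℝ) := Real.sqrt_pos.mpr (by linarith)
  have hsq : √(P : ℝ) * √(P : ℝ) = P := Real.mul_self_sqrt (by linarith)
  have h4 : √(P : ℝ) ≤ 10 * K := by
    have h5 : (P : ℝ) ≤ 5 * (K * (2 * √(P : ℝ))) := by
      refine h2.trans ?_
      gcongr
    have h6 : √(P : ℝ) * √(P : ℝ) ≤ (10 * K) * √(P : ℝ) := by rw [hsq]; linarith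
    exact le_of_mul_le_mul_right h6 hs0
  have h5 : Real.log P ≤ 9 * Real.log K := by
    have h6 : (P : ℝ) ≤ 2 ^ 7 * (K : ℝ) ^ 2 := by
      have : √(P : ℝ) * √(P : ℝ) ≤ (10 * K) * (10 * K) :=
        mul_le_mul h4 h4 hs0.le (by positivity)
      rw [hsq] at this
      nlinarith
    have h7 := Real.log_le_log (by linarith) h6
    rw [Real.log_mul (by positivity) (by positivity), Real.log_pow, Real.log_pow] at h7
    have h8 : Real.log 2 ≤ Real.log K := Real.log_le_log (by norm_num) hKR
    push_cast at h7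
    linarith
  have h6 : 5 * (K * Real.log P) ≤ 5 * (K * (9 * Real.log K)) := by gcongr
  linarith

/-- A crude polynomial bound for the primes. -/
lemma nth_prime_le_sq (n j : ℕ) (hn : 2 ≤ n) (hj : j < n) :
    Nat.nth Nat.Prime j ≤ 45 * n ^ 2 := by
  have h1 : Nat.nth Nat.Prime j ≤ Nat.nth Nat.Prime (n - 1) :=
    Nat.nth_monotone Nat.infinite_setOfPred_prime (by omega)
  have h2 := nth_prime_le n hn
  have hn0 : (0 : ℝ) < n := by exact_mod_cast (by omega : 0 < n)
  have h3 : Real.log n ≤ n := (Real.log_le_sub_one_of_pos hn0).trans (by linarith)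
  have h4 : (Nat.nth Nat.Prime (n - 1) : ℝ) ≤ ((45 * n ^ 2 : ℕ) : ℝ) := by
    push_cast
    refine h2.trans ?_
    nlinarith
  have h5 : Nat.nth Nat.Prime (n - 1) ≤ 45 * n ^ 2 := by exact_mod_cast h4
  exact h1.trans h5

lemma lt_nth_prime (k : ℕ) : k < Nat.nth Nat.Prime k := by
  have h1 : k + 2 ≤ Nat.nth Nat.Prime k := Nat.add_two_le_nth_prime k
  omega

lemma cont_density : Continuous (fun u : ℝ => 2 * Real.sin (Real.pi * u) ^ 2) := by fun_prop

lemma satoTate_Ico (a b : ℝ) (h0 : 0 ≤ a) (hab : a ≤ b) (h1 : b ≤ 1) :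
    satoTate (Ico a b) = ENNReal.ofReal (∫ u in a..b, 2 * Real.sin (Real.pi * u) ^ 2) := by
  rw [satoTate, withDensity_apply _ measurableSet_Ico, Measure.restrict_restrict measurableSet_Ico]
  have h : Ico a b ∩ Icc 0 1 = Ico a b :=
    inter_eq_left.mpr (fun x hx => ⟨h0.trans hx.1, hx.2.le.trans h1⟩)
  rw [h, intervalIntegral.integral_of_le hab, ← integral_Icc_eq_integral_Ioc,
    integral_Icc_eq_integral_Ico, ofReal_integral_eq_lintegral_ofReal]
  · exact (cont_density.integrableOn_Icc (a := a) (b := b)).mono_set Ico_subset_Icc_self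
  · exact Filter.Eventually.of_forall (fun u => by positivity)

lemma integral_density (a b : ℝ) : ∫ u in a..b, 2 * Real.sin (Real.pi * u) ^ 2 =
    (Real.sin (Real.pi * a) * Real.cos (Real.pi * a) - Real.sin (Real.pi * b) *
      Real.cos (Real.pi * b) + Real.pi * b - Real.pi * a) / Real.pi := by
  rw [intervalIntegral.integral_const_mul]
  have := intervalIntegral.integral_comp_mul_left (a := a) (b := b)
    (fun x => Real.sin x ^ 2) Real.pi_ne_zero
  rw [this, integral_sin_sq]
  have := Real.pi_pos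
  simp only [smul_eq_mul]
  field_simp

lemma satoTate_Ico_one : satoTate (Ico 0 1) = 1 := by
  rw [satoTate_Ico 0 1 le_rfl zero_le_one le_rfl, integral_density]
  simp [Real.pi_ne_zero]

instance : IsProbabilityMeasure satoTate := by
  refine ⟨?_⟩
  have h : satoTate univ = satoTate (Ico 0 1) := by
    rw [satoTate, withDensity_apply _ MeasurableSet.univ, withDensity_apply _ measurableSet_Ico,
      Measure.restrict_restrict MeasurableSet.univ, Measure.restrict_restrict measurableSet_Ico,
      univ_inter]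
    have h : Ico (0 : ℝ) 1 ∩ Icc 0 1 = Ico 0 1 := inter_eq_left.mpr Ico_subset_Icc_self
    rw [h]
    exact setLIntegral_congr Ico_ae_eq_Icc.symm
  rw [h, satoTate_Ico_one]

lemma real_box {s : ℕ} (a b : Fin s → ℝ) :
    (Measure.pi (fun _ : Fin s => satoTate)).real (box a b) =
      ∏ i, satoTate.real (Ico (a i) (b i)) := by
  rw [measureReal_def, box, Measure.pi_pi, ENNReal.toReal_prod]
  rfl

end Pool.Agent.H11.STA
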