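import Mathlib
import Pool.Agent.H11.STA.Prime
import Pool.Agent.H11.STA.Window

/-!
# The deterministic part: the averaged local distributions
-/

namespace Pool.Agent.H11.STA

open Finset MeasureTheory

/-- A product is its linearisation plus a quadratic error. -/
lemma prod_linearise {ι : Type*} [DecidableEq ι] (S : Finset ι) (y : ι → ℝ)
    (hy : ∀ i ∈ S, 0 ≤ y i ∧ y i ≤ 1) :
    ∃ c : ι → ℝ, (∀ i, 0 ≤ c i ∧ c i ≤ 1) ∧ ∀ x : ι → ℝ, (∀ i ∈ S, 0 ≤ x i ∧ x i ≤ 1) →
      |∏ i ∈ S, x i - ∏ i ∈ S, y i - ∑ i ∈ S, c i * (x i - y i)| ≤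
        (∑ i ∈ S, |x i - y i|) ^ 2 / 2 := by
  induction S using Finset.induction_on with
  | empty => exact ⟨fun _ => 0, fun _ => ⟨le_rfl, zero_le_one⟩, fun x _ => by simp⟩
  | insert a S ha ih =>
    obtain ⟨c, hc, hcx⟩ := ih (fun i hi => hy i (Finset.mem_insert_of_mem hi))
    have hya := hy a (Finset.mem_insert_self _ _)
    have hyS0 : 0 ≤ ∏ i ∈ S, y i :=
      Finset.prod_nonneg (fun i hi => (hy i (Finset.mem_insert_of_mem hi)).1)
    have hyS1 : ∏ i ∈ S, y i ≤ 1 :=
      Finset.prod_le_one (fun i hi => (hy i (Finset.mem_insert_of_mem hi)).1)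
        (fun i hi => (hy i (Finset.mem_insert_of_mem hi)).2)
    refine ⟨fun i => if i = a then ∏ i ∈ S, y i else y a * c i, ?_, ?_⟩
    · intro i
      dsimp only
      split_ifs
      · exact ⟨hyS0, hyS1⟩
      · exact ⟨mul_nonneg hya.1 (hc i).1, mul_le_one₀ hya.2 (hc i).1 (hc i).2⟩
    · intro x hx
      have hxa := hx a (Finset.mem_insert_self _ _)
      have h1 := hcx x (fun i hi => hx i (Finset.mem_insert_of_mem hi))
      rw [Finset.prod_insert ha, Finset.prod_insert ha, Finset.sum_insert ha,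
        Finset.sum_insert ha]
      beta_reduce
      rw [if_pos rfl]
      have h2 : ∑ i ∈ S, (if i = a then ∏ i ∈ S, y i else y a * c i) * (x i - y i) =
          y a * ∑ i ∈ S, c i * (x i - y i) := by
        rw [Finset.mul_sum]
        refine Finset.sum_congr rfl (fun i hi => ?_)
        have : i ≠ a := fun h => ha (h ▸ hi)
        rw [if_neg this]; ring
      rw [h2]
      set L := ∑ i ∈ S, c i * (x i - y i) with hL
      set D := ∑ i ∈ S, |x i - y i| with hD
      have hLD : |L| ≤ D := by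
        refine (Finset.abs_sum_le_sum_abs _ _).trans (Finset.sum_le_sum (fun i _ => ?_))
        rw [abs_mul, abs_of_nonneg (hc i).1]
        exact mul_le_of_le_one_left (abs_nonneg _) (hc i).2
      have h3 : x a * ∏ i ∈ S, x i - y a * ∏ i ∈ S, y i -
          ((∏ i ∈ S, y i) * (x a - y a) + y a * L) =
          x a * (∏ i ∈ S, x i - ∏ i ∈ S, y i - L) + (x a - y a) * L := by ring
      rw [h3]
      have h4 : |x a * (∏ i ∈ S, x i - ∏ i ∈ S, y i - L)| ≤ D ^ 2 / 2 := by
        rw [abs_mul, abs_of_nonneg hxa.1]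
        exact (mul_le_of_le_one_left (abs_nonneg _) hxa.2).trans h1
      have h5 : |(x a - y a) * L| ≤ |x a - y a| * D := by
        rw [abs_mul]
        exact mul_le_mul_of_nonneg_left hLD (abs_nonneg _)
      have h6 := abs_add_le (x a * (∏ i ∈ S, x i - ∏ i ∈ S, y i - L)) ((x a - y a) * L)
      nlinarith [abs_nonneg (x a - y a), sq_nonneg (|x a - y a|)]

lemma satoTate_unit (I : Set ℝ) : 0 ≤ satoTate.real I ∧ satoTate.real I ≤ 1 :=
  ⟨measureReal_nonneg, measureReal_le_one⟩

lemma localErr_bdd (k : ℕ) : BddAbove {r | ∃ a b : ℝ, 0 ≤ a ∧ a ≤ b ∧ b ≤ 1 ∧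
    r = |angleLaw k (Set.Ico a b) - satoTate.real (Set.Ico a b)|} := by
  refine ⟨1, ?_⟩
  rintro r ⟨a, b, -, -, -, rfl⟩
  have h1 := angleLaw_nonneg k (Set.Ico a b)
  have h2 := angleLaw_le_one k (Set.Ico a b)
  have h3 := satoTate_unit (Set.Ico a b)
  rw [abs_le]; constructor <;> linarith

lemma le_localErr (k : ℕ) {a b : ℝ} (h0 : 0 ≤ a) (hab : a ≤ b) (h1 : b ≤ 1) :
    |angleLaw k (Set.Ico a b) - satoTate.real (Set.Ico a b)| ≤ localErr k :=
  le_csSup (localErr_bdd k) ⟨a, b, h0, hab, h1, rfl⟩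

lemma localErr_nonneg (k : ℕ) : 0 ≤ localErr k :=
  (abs_nonneg _).trans (le_localErr k le_rfl zero_le_one le_rfl)

lemma meanCount_nonneg {s : ℕ} (a b : Fin s → ℝ) (K : ℕ) : 0 ≤ meanCount a b K := by
  unfold meanCount
  exact div_nonneg (Finset.sum_nonneg (fun k _ => Finset.prod_nonneg
    (fun i _ => angleLaw_nonneg _ _))) (Nat.cast_nonneg _)

lemma meanCount_le_one {s : ℕ} (a b : Fin s → ℝ) (K : ℕ) : meanCount a b K ≤ 1 := by
  unfold meanCount
  apply div_le_one_of_le₀ _ (Nat.cast_nonneg _)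
  refine (Finset.sum_le_sum (fun k _ => Finset.prod_le_one
    (fun i _ => angleLaw_nonneg _ _) (fun i _ => angleLaw_le_one _ _))).trans ?_
  simp

lemma meanDisc_bdd (s K : ℕ) : BddAbove {r | ∃ a b : Fin s → ℝ,
    (∀ i, 0 ≤ a i ∧ a i ≤ b i ∧ b i ≤ 1) ∧
    r = |meanCount a b K - (Measure.pi (fun _ : Fin s => satoTate)).real (box a b)|} := by
  refine ⟨1, ?_⟩
  rintro r ⟨a, b, -, rfl⟩
  have h1 := meanCount_nonneg a b K
  have h2 := meanCount_le_one a b K
  have h3 : 0 ≤ (Measure.pi (fun _ : Fin s => satoTate)).real (box a b) := measureReal_nonneg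
  have h4 : (Measure.pi (fun _ : Fin s => satoTate)).real (box a b) ≤ 1 := measureReal_le_one
  rw [abs_le]; constructor <;> linarith

lemma le_meanDisc {s K : ℕ} (a b : Fin s → ℝ) (h : ∀ i, 0 ≤ a i ∧ a i ≤ b i ∧ b i ≤ 1) :
    |meanCount a b K - (Measure.pi (fun _ : Fin s => satoTate)).real (box a b)| ≤ meanDisc s K :=
  le_csSup (meanDisc_bdd s K) ⟨a, b, h, rfl⟩

lemma meanDisc_nonneg (s K : ℕ) : 0 ≤ meanDisc s K :=
  (abs_nonneg _).trans (le_meanDisc (fun _ => 0) (fun _ => 1)
    (fun _ => ⟨le_rfl, zero_le_one, le_rfl⟩))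

/-- The one-dimensional averages. -/
lemma one_dim (K : ℕ) {a b : ℝ} (h0 : 0 ≤ a) (hab : a ≤ b) (h1 : b ≤ 1) :
    |∑ k ∈ range K, (angleLaw k (Set.Ico a b) - satoTate.real (Set.Ico a b))| ≤
      K * meanDisc 1 K := by
  rcases Nat.eq_zero_or_pos K with rfl | hK
  · simp
  have hKR : (0 : ℝ) < K := by exact_mod_cast hK
  have h := le_meanDisc (s := 1) (K := K) (fun _ => a) (fun _ => b) (fun _ => ⟨h0, hab, h1⟩)
  rw [real_box] at h
  unfold meanCount at h
  simp only [Fin.prod_univ_one, Fin.isValue, Fin.val_zero, add_zero] at h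
  have h2 : ∑ k ∈ range K, (angleLaw k (Set.Ico a b) - satoTate.real (Set.Ico a b)) =
      K * ((∑ k ∈ range K, angleLaw k (Set.Ico a b)) / K - satoTate.real (Set.Ico a b)) := by
    rw [Finset.sum_sub_distrib, Finset.sum_const, Finset.card_range, nsmul_eq_mul]
    field_simp
  rw [h2, abs_mul, abs_of_pos hKR]
  exact mul_le_mul_of_nonneg_left h hKR.le

lemma sum_shift (g : ℕ → ℝ) (hg : ∀ k, |g k| ≤ 1) (K i : ℕ) :
    |∑ k ∈ range K, g (k + i)| ≤ |∑ k ∈ range K, g k| + 2 * i := by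
  have h1 : ∑ k ∈ range K, g (k + i) + ∑ k ∈ range i, g k =
      ∑ k ∈ range K, g k + ∑ k ∈ range i, g (K + k) := by
    have e1 := Finset.sum_range_add g i K
    have e2 := Finset.sum_range_add g K i
    rw [Nat.add_comm i K] at e1
    simp only [Nat.add_comm i] at e1
    linarith
  have h2 : |∑ k ∈ range i, g k| ≤ i := by
    refine (Finset.abs_sum_le_sum_abs _ _).trans ((Finset.sum_le_sum (fun k _ => hg k)).trans ?_)
    simp
  have h3 : |∑ k ∈ range i, g (K + k)| ≤ i := by
    refine (Finset.abs_sum_le_sum_abs _ _).trans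
      ((Finset.sum_le_sum (fun k _ => hg (K + k))).trans ?_)
    simp
  have h4 : ∑ k ∈ range K, g (k + i) = ∑ k ∈ range K, g k +
      (∑ k ∈ range i, g (K + k) - ∑ k ∈ range i, g k) := by linarith
  rw [h4]
  have h5 := abs_add_le (∑ k ∈ range K, g k) (∑ k ∈ range i, g (K + k) - ∑ k ∈ range i, g k)
  have h6 := abs_sub (∑ k ∈ range i, g (K + k)) (∑ k ∈ range i, g k)
  linarith

/-- The `s`-dimensional deterministic discrepancy is controlled by the one-dimensional one and the
mean square of the local errors. -/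
theorem meanDisc_le (s K : ℕ) (hK : 1 ≤ K) :
    meanDisc s K ≤ s * meanDisc 1 K + (s : ℝ) ^ 2 / K * ∑ k ∈ range (K + s), localErr k ^ 2 +
      2 * (s : ℝ) ^ 2 / K := by
  classical
  have hKR : (0 : ℝ) < K := by exact_mod_cast hK
  refine csSup_le ?_ ?_
  · exact ⟨_, fun _ => 0, fun _ => 1, fun _ => ⟨le_rfl, zero_le_one, le_rfl⟩, rfl⟩
  rintro r ⟨a, b, hab, rfl⟩
  rw [real_box]
  unfold meanCount
  set y : Fin s → ℝ := fun i => satoTate.real (Set.Ico (a i) (b i)) with hy
  obtain ⟨c, hc, hcx⟩ := prod_linearise (Finset.univ : Finset (Fin s)) y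
    (fun i _ => satoTate_unit _)
  have hx := fun k => hcx (fun i => angleLaw (k + i) (Set.Ico (a i) (b i)))
    (fun i _ => ⟨angleLaw_nonneg _ _, angleLaw_le_one _ _⟩)
  have hloc : ∀ k (i : Fin s), |angleLaw (k + i) (Set.Ico (a i) (b i)) - y i| ≤
      localErr (k + i) := fun k i => le_localErr _ (hab i).1 (hab i).2.1 (hab i).2.2
  -- quadratic part
  have hquad : ∀ k, (∑ i : Fin s, |angleLaw (k + i) (Set.Ico (a i) (b i)) - y i|) ^ 2 / 2 ≤
      s * ∑ i : Fin s, localErr (k + i) ^ 2 := by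
    intro k
    have h1 : (∑ i : Fin s, |angleLaw (k + i) (Set.Ico (a i) (b i)) - y i|) ^ 2 ≤
        (∑ i : Fin s, localErr (k + i)) ^ 2 :=
      pow_le_pow_left₀ (Finset.sum_nonneg (fun i _ => abs_nonneg _))
        (Finset.sum_le_sum (fun i _ => hloc k i)) 2
    have h2 : (∑ i : Fin s, localErr (k + i)) ^ 2 ≤ s * ∑ i : Fin s, localErr (k + i) ^ 2 := by
      have := sq_sum_le_card_mul_sum_sq (s := (Finset.univ : Finset (Fin s)))
        (f := fun i => localErr (k + i))
      simpa using this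
    have h3 : 0 ≤ (s : ℝ) * ∑ i : Fin s, localErr (k + i) ^ 2 := by positivity
    linarith
  have hsumquad : ∑ k ∈ range K, ∑ i : Fin s, localErr (k + i) ^ 2 ≤
      s * ∑ k ∈ range (K + s), localErr k ^ 2 := by
    rw [Finset.sum_comm]
    have h1 : ∀ i ∈ (Finset.univ : Finset (Fin s)), ∑ k ∈ range K, localErr (k + i) ^ 2 ≤
        ∑ k ∈ range (K + s), localErr k ^ 2 := by
      intro i _
      have h2 : ∑ k ∈ range K, localErr (k + i) ^ 2 =
          ∑ k ∈ (range K).image (fun k => k + (i : ℕ)), localErr k ^ 2 := by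
        rw [Finset.sum_image]
        intro k _ l _ hkl
        exact Nat.add_right_cancel hkl
      rw [h2]
      apply Finset.sum_le_sum_of_subset_of_nonneg
      · intro k hk
        rw [Finset.mem_image] at hk
        obtain ⟨l, hl, rfl⟩ := hk
        rw [Finset.mem_range] at hl ⊢
        have := i.2
        omega
      · intro k _ _
        positivity
    refine (Finset.sum_le_sum h1).trans ?_
    simp
  -- linear part
  have hlin : ∀ i : Fin s, |∑ k ∈ range K, (angleLaw (k + i) (Set.Ico (a i) (b i)) - y i)| ≤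
      K * meanDisc 1 K + 2 * s := by
    intro i
    have h1 := sum_shift (fun k => angleLaw k (Set.Ico (a i) (b i)) - y i) ?_ K i
    · have h2 := one_dim K (hab i).1 (hab i).2.1 (hab i).2.2
      have h3 : ((i : ℕ) : ℝ) ≤ s := by exact_mod_cast i.2.le
      have h4 := h1
      simp only [hy] at h4 ⊢
      linarith
    · intro k
      have h1 := angleLaw_nonneg k (Set.Ico (a i) (b i))
      have h2 := angleLaw_le_one k (Set.Ico (a i) (b i))
      have h3 := satoTate_unit (Set.Ico (a i) (b i))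
      simp only [hy]
      rw [abs_le]; constructor <;> linarith
  -- put together
  have hmain : |∑ k ∈ range K, (∏ i : Fin s, angleLaw (k + i) (Set.Ico (a i) (b i)) -
      ∏ i, y i)| ≤ s * (K * meanDisc 1 K + 2 * s) +
        s * (s * ∑ k ∈ range (K + s), localErr k ^ 2) := by
    have h1 : ∑ k ∈ range K, (∏ i : Fin s, angleLaw (k + i) (Set.Ico (a i) (b i)) -
        ∏ i, y i) = ∑ i : Fin s, c i * ∑ k ∈ range K,
          (angleLaw (k + i) (Set.Ico (a i) (b i)) - y i) +
        ∑ k ∈ range K, (∏ i : Fin s, angleLaw (k + i) (Set.Ico (a i) (b i)) -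
          ∏ i, y i - ∑ i : Fin s, c i * (angleLaw (k + i) (Set.Ico (a i) (b i)) - y i)) := by
      simp only [Finset.mul_sum]
      rw [Finset.sum_comm, ← Finset.sum_add_distrib]
      refine Finset.sum_congr rfl (fun k _ => ?_)
      ring
    rw [h1]
    refine (abs_add_le _ _).trans (add_le_add ?_ ?_)
    · refine (Finset.abs_sum_le_sum_abs _ _).trans ?_
      have h2 : ∀ i ∈ (Finset.univ : Finset (Fin s)), |c i * ∑ k ∈ range K,
          (angleLaw (k + i) (Set.Ico (a i) (b i)) - y i)| ≤ K * meanDisc 1 K + 2 * s := by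
        intro i _
        rw [abs_mul, abs_of_nonneg (hc i).1]
        exact (mul_le_of_le_one_left (abs_nonneg _) (hc i).2).trans (hlin i)
      refine (Finset.sum_le_sum h2).trans ?_
      rw [Finset.sum_const, Finset.card_univ, Fintype.card_fin, nsmul_eq_mul]
    · refine (Finset.abs_sum_le_sum_abs _ _).trans ?_
      refine (Finset.sum_le_sum (fun k _ => (hx k).trans (hquad k))).trans ?_
      rw [← Finset.mul_sum]
      exact mul_le_mul_of_nonneg_left hsumquad (Nat.cast_nonneg _)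
  have h5 : (∑ k ∈ range K, ∏ i : Fin s, angleLaw (k + i) (Set.Ico (a i) (b i))) / K -
      ∏ i, y i = (∑ k ∈ range K, (∏ i : Fin s, angleLaw (k + i) (Set.Ico (a i) (b i)) -
      ∏ i, y i)) / K := by
    rw [Finset.sum_sub_distrib, Finset.sum_const, Finset.card_range, nsmul_eq_mul]
    field_simp
  rw [h5, abs_div, abs_of_pos hKR, div_le_iff₀ hKR]
  refine hmain.trans (le_of_eq ?_)
  field_simp
  ring

end Pool.Agent.H11.STA
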