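import Mathlib
import Pool.Agent.H11.STA.Mean
import Pool.Agent.H11.STA.Bad

/-!
# Almost all curves: the deviation of the discrepancy from its deterministic value
-/

namespace Pool.Agent.H11.STA

open Finset MeasureTheory

/-- For the curve `y² = x³ + ax + b`, the proportion of tuples in every box of `[0,1]^s` is within
`d` of the averaged local distribution of the box. -/
def Close (s K : ℕ) (d : ℝ) (a b : ℤ) : Prop :=
  ∀ α β : Fin s → ℝ, (∀ i, 0 ≤ α i ∧ α i ≤ β i ∧ β i ≤ 1) →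
    |(boxCount (shortCurve (a : ℚ) (b : ℚ)) α β K : ℝ) / K - meanCount α β K| ≤ d

lemma boxCount_le (E : WeierstrassCurve ℚ) {s : ℕ} (a b : Fin s → ℝ) (K : ℕ) :
    boxCount E a b K ≤ K := by
  classical
  unfold boxCount
  exact (Finset.card_filter_le _ _).trans (by simp)

lemma boxFrac (E : WeierstrassCurve ℚ) {s : ℕ} (a b : Fin s → ℝ) (K : ℕ) :
    0 ≤ (boxCount E a b K : ℝ) / K ∧ (boxCount E a b K : ℝ) / K ≤ 1 := by
  refine ⟨by positivity, ?_⟩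
  apply div_le_one_of_le₀ _ (Nat.cast_nonneg _)
  exact_mod_cast boxCount_le E a b K

lemma close_one (s K : ℕ) (a b : ℤ) : Close s K 1 a b := by
  intro α β _
  have h1 := boxFrac (shortCurve (a : ℚ) (b : ℚ)) α β K
  have h2 := meanCount_nonneg α β K
  have h3 := meanCount_le_one α β K
  rw [abs_le]; constructor <;> linarith [h1.1, h1.2]

lemma Close.mono {s K : ℕ} {d e : ℝ} {a b : ℤ} (h : Close s K d a b) (hde : d ≤ e) :
    Close s K e a b := fun α β hab => (h α β hab).trans hde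

lemma extreme_bdd (E : WeierstrassCurve ℚ) (s K : ℕ) : BddAbove
    {r | ∃ a b : Fin s → ℝ, (∀ i, 0 ≤ a i ∧ a i ≤ b i ∧ b i ≤ 1) ∧ r = localDisc E a b K} := by
  refine ⟨1, ?_⟩
  rintro r ⟨a, b, -, rfl⟩
  unfold localDisc
  have h1 := boxFrac E a b K
  have h3 : 0 ≤ (Measure.pi (fun _ : Fin s => satoTate)).real (box a b) := measureReal_nonneg
  have h4 : (Measure.pi (fun _ : Fin s => satoTate)).real (box a b) ≤ 1 := measureReal_le_one
  rw [abs_le]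
  constructor <;> linarith [h1.1, h1.2]

lemma disc_of_close {s K : ℕ} {d : ℝ} {a b : ℤ} (h : Close s K d a b) :
    |extremeDisc (shortCurve (a : ℚ) (b : ℚ)) s K - meanDisc s K| ≤ d := by
  set E := shortCurve (a : ℚ) (b : ℚ) with hE
  have h1 : extremeDisc E s K ≤ meanDisc s K + d := by
    unfold extremeDisc
    refine csSup_le ?_ ?_
    · exact ⟨_, fun _ => 0, fun _ => 1, fun _ => ⟨le_rfl, zero_le_one, le_rfl⟩, rfl⟩
    rintro r ⟨α, β, hab, rfl⟩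
    have h2 := h α β hab
    have h3 := le_meanDisc (K := K) α β hab
    unfold localDisc
    have h4 := abs_sub_le ((boxCount E α β K : ℝ) / K) (meanCount α β K)
      ((Measure.pi (fun _ : Fin s => satoTate)).real (box α β))
    linarith
  have h2 : meanDisc s K ≤ extremeDisc E s K + d := by
    unfold meanDisc
    refine csSup_le ?_ ?_
    · exact ⟨_, fun _ => 0, fun _ => 1, fun _ => ⟨le_rfl, zero_le_one, le_rfl⟩, rfl⟩
    rintro r ⟨α, β, hab, rfl⟩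
    have h2 := h α β hab
    have h3 : localDisc E α β K ≤ extremeDisc E s K := le_csSup (extreme_bdd E s K)
      ⟨α, β, hab, rfl⟩
    unfold localDisc at h3
    have h4 := abs_sub_le (meanCount α β K) ((boxCount E α β K : ℝ) / K)
      ((Measure.pi (fun _ : Fin s => satoTate)).real (box α β))
    rw [abs_sub_comm (meanCount α β K) ((boxCount E α β K : ℝ) / K)] at h4
    linarith
  rw [abs_le]
  constructor <;> linarith

/-- Closeness from a bound for the deviations. -/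
lemma close_of_dev (s K k0 : ℕ) (hK : 1 ≤ K) (hk0 : 2 ≤ k0) (a b : ℤ) (l : ℝ)
    (hgcd : ∀ k, k0 ≤ k → k < K + s → ¬ (((a : ℤ) : ZMod (Nat.nth Nat.Prime k)) = 0 ∧
      ((b : ℤ) : ZMod (Nat.nth Nat.Prime k)) = 0))
    (hdev : ∀ α β : Fin s → ℝ, |dev s α β K a b| ≤ l) : Close s K ((k0 + l) / K) a b := by
  intro α β _
  have hKR : (0 : ℝ) < K := by exact_mod_cast hK
  have h := (boxCount_near s α β K k0 hk0 a b hgcd).trans (add_le_add_right (hdev α β) (k0 : ℝ))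
  unfold meanCount
  rw [← sub_div, abs_div, abs_of_pos hKR]
  exact div_le_div_of_nonneg_right h hKR.le

/-! ### Common divisors -/

lemma card_dvd (A : ℤ) (X p : ℕ) (hp : 1 ≤ p) (hpX : p ≤ X) :
    (((Ico A (A + X)).filter (fun a => (p : ℤ) ∣ a)).card : ℝ) ≤ 2 * X / p := by
  have hp0 : (0 : ℤ) < p := by exact_mod_cast hp
  have h := Int.Ico_filter_dvd_card A (A + X) hp0
  have hpQ : (0 : ℚ) < ((p : ℤ) : ℚ) := by exact_mod_cast hp0
  have h1 : ⌈((A + X : ℤ) : ℚ) / ((p : ℤ) : ℚ)⌉ - ⌈(A : ℚ) / ((p : ℤ) : ℚ)⌉ ≤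
      ⌈(X : ℚ) / ((p : ℤ) : ℚ)⌉ := by
    have h2 : ((A + X : ℤ) : ℚ) / ((p : ℤ) : ℚ) = (A : ℚ) / ((p : ℤ) : ℚ) +
        (X : ℚ) / ((p : ℤ) : ℚ) := by push_cast; ring
    rw [h2]
    have := Int.ceil_add_le ((A : ℚ) / ((p : ℤ) : ℚ)) ((X : ℚ) / ((p : ℤ) : ℚ))
    linarith
  have h2 : ((⌈(X : ℚ) / ((p : ℤ) : ℚ)⌉ : ℤ) : ℚ) ≤ 2 * X / p := by
    have h3 := (Int.ceil_lt_add_one ((X : ℚ) / ((p : ℤ) : ℚ))).le
    have hpQ' : (0 : ℚ) < (p : ℚ) := by exact_mod_cast hp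
    have h4 : (1 : ℚ) ≤ (X : ℚ) / (p : ℚ) := by
      rw [le_div_iff₀ hpQ', one_mul]; exact_mod_cast hpX
    have h5 : 2 * (X : ℚ) / p = (X : ℚ) / (p : ℚ) + (X : ℚ) / (p : ℚ) := by ring
    rw [h5]
    push_cast at h3 ⊢
    linarith
  have h3 : (((((Ico A (A + X)).filter (fun a => (p : ℤ) ∣ a)).card : ℤ)) : ℚ) ≤ 2 * X / p := by
    rw [h]
    refine le_trans ?_ h2
    have h6 : (0 : ℤ) ≤ ⌈(X : ℚ) / ((p : ℤ) : ℚ)⌉ := by positivity
    exact_mod_cast max_le h1 h6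
  have h4 : ((((((Ico A (A + X)).filter (fun a => (p : ℤ) ∣ a)).card : ℤ)) : ℚ) : ℝ) ≤
      ((2 * X / p : ℚ) : ℝ) := by exact_mod_cast h3
  push_cast at h4
  exact h4

open Classical in
/-- Few pairs are both divisible by a prime beyond the `k0`-th. -/
lemma card_common (A B : ℤ) (X Y k0 : ℕ) (hk0 : 1 ≤ k0) :
    (((curveBox A B X Y).filter (fun w => ∃ k, k0 ≤ k ∧ Nat.nth Nat.Prime k ≤ min X Y ∧
      ((w.1 : ℤ) : ZMod (Nat.nth Nat.Prime k)) = 0 ∧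
      ((w.2 : ℤ) : ZMod (Nat.nth Nat.Prime k)) = 0)).card : ℝ) ≤ 8 / k0 * (X * Y) := by
  set n := min X Y with hn
  have hsub : (curveBox A B X Y).filter (fun w => ∃ k, k0 ≤ k ∧ Nat.nth Nat.Prime k ≤ n ∧
      ((w.1 : ℤ) : ZMod (Nat.nth Nat.Prime k)) = 0 ∧
      ((w.2 : ℤ) : ZMod (Nat.nth Nat.Prime k)) = 0) ⊆
      ((Ioo (k0 - 1) (n + 1)).filter (fun k => Nat.nth Nat.Prime k ≤ n)).biUnion (fun k =>
        ((Ico A (A + X)).filter (fun a => ((Nat.nth Nat.Prime k : ℕ) : ℤ) ∣ a)) ×ˢ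
        ((Ico B (B + Y)).filter (fun b => ((Nat.nth Nat.Prime k : ℕ) : ℤ) ∣ b))) := by
    intro w hw
    rw [Finset.mem_filter] at hw
    obtain ⟨hw1, k, hk, hkn, ha, hb⟩ := hw
    unfold curveBox at hw1
    rw [Finset.mem_product] at hw1
    have hlt := lt_nth_prime k
    rw [Finset.mem_biUnion]
    refine ⟨k, ?_, ?_⟩
    · rw [Finset.mem_filter, Finset.mem_Ioo]
      exact ⟨⟨by omega, by omega⟩, hkn⟩
    · rw [Finset.mem_product, Finset.mem_filter, Finset.mem_filter]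
      exact ⟨⟨hw1.1, (ZMod.intCast_zmod_eq_zero_iff_dvd _ _).mp ha⟩,
        ⟨hw1.2, (ZMod.intCast_zmod_eq_zero_iff_dvd _ _).mp hb⟩⟩
  have h1 : (((curveBox A B X Y).filter (fun w => ∃ k, k0 ≤ k ∧ Nat.nth Nat.Prime k ≤ n ∧
      ((w.1 : ℤ) : ZMod (Nat.nth Nat.Prime k)) = 0 ∧
      ((w.2 : ℤ) : ZMod (Nat.nth Nat.Prime k)) = 0)).card : ℝ) ≤
      ∑ k ∈ (Ioo (k0 - 1) (n + 1)).filter (fun k => Nat.nth Nat.Prime k ≤ n),
      ((((Ico A (A + X)).filter (fun a => ((Nat.nth Nat.Prime k : ℕ) : ℤ) ∣ a)) ×ˢ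
        ((Ico B (B + Y)).filter (fun b => ((Nat.nth Nat.Prime k : ℕ) : ℤ) ∣ b))).card : ℝ) := by
    exact_mod_cast (Finset.card_le_card hsub).trans Finset.card_biUnion_le
  refine h1.trans ?_
  have h2 : ∀ k ∈ (Ioo (k0 - 1) (n + 1)).filter (fun k => Nat.nth Nat.Prime k ≤ n),
      ((((Ico A (A + X)).filter (fun a => ((Nat.nth Nat.Prime k : ℕ) : ℤ) ∣ a)) ×ˢ
        ((Ico B (B + Y)).filter (fun b => ((Nat.nth Nat.Prime k : ℕ) : ℤ) ∣ b))).card : ℝ) ≤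
      4 * (X * Y) * ((k : ℝ) ^ 2)⁻¹ := by
    intro k hk
    rw [Finset.mem_filter, Finset.mem_Ioo] at hk
    obtain ⟨⟨hk1, hk2⟩, hkn⟩ := hk
    have hp1 : 1 ≤ Nat.nth Nat.Prime k := (Nat.prime_nth_prime k).one_le
    have ha := card_dvd A X (Nat.nth Nat.Prime k) hp1 (hkn.trans (min_le_left _ _))
    have hb := card_dvd B Y (Nat.nth Nat.Prime k) hp1 (hkn.trans (min_le_right _ _))
    rw [Finset.card_product]
    push_cast
    have hkR : (0 : ℝ) < k := by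
      have : 0 < k := by omega
      exact_mod_cast this
    have hkp : (k : ℝ) ≤ (Nat.nth Nat.Prime k : ℝ) := by exact_mod_cast (lt_nth_prime k).le
    have hpR : (0 : ℝ) < (Nat.nth Nat.Prime k : ℝ) := hkR.trans_le hkp
    calc _ ≤ (2 * X / (Nat.nth Nat.Prime k : ℝ)) * (2 * Y / (Nat.nth Nat.Prime k : ℝ)) :=
          mul_le_mul ha hb (Nat.cast_nonneg _) (by positivity)
      _ = 4 * (X * Y) * (((Nat.nth Nat.Prime k : ℝ)) ^ 2)⁻¹ := by field_simp; ring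
      _ ≤ 4 * (X * Y) * ((k : ℝ) ^ 2)⁻¹ := by
          refine mul_le_mul_of_nonneg_left ?_ (by positivity)
          exact inv_anti₀ (by positivity) (pow_le_pow_left₀ hkR.le hkp 2)
  refine (Finset.sum_le_sum h2).trans ?_
  rw [← Finset.mul_sum]
  have h3 : ∑ k ∈ (Ioo (k0 - 1) (n + 1)).filter (fun k => Nat.nth Nat.Prime k ≤ n),
      ((k : ℝ) ^ 2)⁻¹ ≤ ∑ k ∈ Ioo (k0 - 1) (n + 1), ((k : ℝ) ^ 2)⁻¹ :=
    Finset.sum_le_sum_of_subset_of_nonneg (Finset.filter_subset _ _)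
      (fun _ _ _ => by positivity)
  have h4 := sum_Ioo_inv_sq_le (α := ℝ) (k0 - 1) (n + 1)
  have h5 : ((k0 - 1 : ℕ) : ℝ) + 1 = k0 := by
    rw [Nat.cast_sub hk0]; push_cast; ring
  rw [h5] at h4
  calc 4 * ((X : ℝ) * Y) * ∑ k ∈ (Ioo (k0 - 1) (n + 1)).filter
        (fun k => Nat.nth Nat.Prime k ≤ n), ((k : ℝ) ^ 2)⁻¹
      ≤ 4 * ((X : ℝ) * Y) * (2 / k0) :=
        mul_le_mul_of_nonneg_left (h3.trans h4) (by positivity)
    _ = 8 / k0 * (X * Y) := by ring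

/-! ### The constants -/

lemma constants (s q K X Y : ℕ) (hK : 1 ≤ K) (hmin : K ^ (q + 4 * q * s) ≤ min X Y) :
    (((K + s) * (45 * (K + s) ^ 2) ^ 2 + 1 : ℕ) : ℝ) ^ (2 * s) *
      ((s : ℝ) ^ (2 * q) * ((q : ℝ) ^ (2 * q) * (K : ℝ) ^ q * ((X : ℝ) * Y) +
        (K : ℝ) ^ (2 * q) * (((45 * (K + s) ^ 2 : ℕ) : ℝ) ^ (2 * q * s) * ((X : ℝ) + Y)))) ≤
      ((2 * (s + 1) * (45 * (s + 1) ^ 2) ^ 2 : ℝ) ^ (2 * s) * ((s : ℝ) ^ (2 * q) *
        ((q : ℝ) ^ (2 * q) + 2 * (45 * (s + 1) ^ 2 : ℝ) ^ (2 * q * s)))) *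
        (K : ℝ) ^ (10 * s + q) * ((X : ℝ) * Y) := by
  have hKR : (1 : ℝ) ≤ K := by exact_mod_cast hK
  have hs0 : (0 : ℝ) ≤ s := Nat.cast_nonneg _
  have hKs : (K : ℝ) + s ≤ (s + 1) * K := by nlinarith
  have hP : ((45 * (K + s) ^ 2 : ℕ) : ℝ) ≤ (45 * (s + 1) ^ 2 : ℝ) * K ^ 2 := by
    push_cast
    have : ((K : ℝ) + s) ^ 2 ≤ ((s + 1) * K) ^ 2 := pow_le_pow_left₀ (by positivity) hKs 2
    nlinarith
  have hV : (((K + s) * (45 * (K + s) ^ 2) ^ 2 + 1 : ℕ) : ℝ) ≤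
      (2 * (s + 1) * (45 * (s + 1) ^ 2) ^ 2 : ℝ) * K ^ 5 := by
    have h1 : (((K + s) * (45 * (K + s) ^ 2) ^ 2 + 1 : ℕ) : ℝ) =
        ((K : ℝ) + s) * (((45 * (K + s) ^ 2 : ℕ) : ℝ)) ^ 2 + 1 := by push_cast; ring
    rw [h1]
    have h2 : (((45 * (K + s) ^ 2 : ℕ) : ℝ)) ^ 2 ≤ ((45 * (s + 1) ^ 2 : ℝ) * K ^ 2) ^ 2 :=
      pow_le_pow_left₀ (Nat.cast_nonneg _) hP 2
    have h3 : ((K : ℝ) + s) * (((45 * (K + s) ^ 2 : ℕ) : ℝ)) ^ 2 ≤
        ((s + 1) * K) * ((45 * (s + 1) ^ 2 : ℝ) * K ^ 2) ^ 2 :=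
      mul_le_mul hKs h2 (by positivity) (by positivity)
    have h4 : ((s + 1) * K) * ((45 * (s + 1) ^ 2 : ℝ) * K ^ 2) ^ 2 =
        ((s + 1) * (45 * (s + 1) ^ 2) ^ 2 : ℝ) * K ^ 5 := by ring
    have h5 : (1 : ℝ) ≤ ((s + 1) * (45 * (s + 1) ^ 2) ^ 2 : ℝ) * K ^ 5 := by
      have e1 : (1 : ℝ) ≤ (K : ℝ) ^ 5 := one_le_pow₀ hKR
      have e2 : (1 : ℝ) ≤ (s : ℝ) + 1 := by linarith
      have e3 : (1 : ℝ) ≤ (45 * ((s : ℝ) + 1) ^ 2) ^ 2 := by
        apply one_le_pow₀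
        nlinarith
      have e4 : (1 : ℝ) ≤ ((s : ℝ) + 1) * (45 * ((s : ℝ) + 1) ^ 2) ^ 2 :=
        one_le_mul_of_one_le_of_one_le e2 e3
      exact one_le_mul_of_one_le_of_one_le e4 e1
    rw [h4] at h3
    have h6 : (2 * (s + 1) * (45 * (s + 1) ^ 2) ^ 2 : ℝ) * K ^ 5 =
      ((s + 1) * (45 * (s + 1) ^ 2) ^ 2 : ℝ) * K ^ 5 +
      ((s + 1) * (45 * (s + 1) ^ 2) ^ 2 : ℝ) * K ^ 5 := by ring
    rw [h6]
    linarith
  have hXY : (K : ℝ) ^ (q + 4 * q * s) * ((X : ℝ) + Y) ≤ 2 * ((X : ℝ) * Y) := by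
    have h1 : (K : ℝ) ^ (q + 4 * q * s) ≤ X := by exact_mod_cast hmin.trans (min_le_left _ _)
    have h2 : (K : ℝ) ^ (q + 4 * q * s) ≤ Y := by exact_mod_cast hmin.trans (min_le_right _ _)
    have h3 : (0 : ℝ) ≤ X := Nat.cast_nonneg _
    have h4 : (0 : ℝ) ≤ Y := Nat.cast_nonneg _
    nlinarith
  have hinner : (K : ℝ) ^ (2 * q) * (((45 * (K + s) ^ 2 : ℕ) : ℝ) ^ (2 * q * s) *
      ((X : ℝ) + Y)) ≤ 2 * (45 * (s + 1) ^ 2 : ℝ) ^ (2 * q * s) * ((K : ℝ) ^ q * ((X : ℝ) * Y)) := by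
    have h1 : ((45 * (K + s) ^ 2 : ℕ) : ℝ) ^ (2 * q * s) ≤
        ((45 * (s + 1) ^ 2 : ℝ) * K ^ 2) ^ (2 * q * s) :=
      pow_le_pow_left₀ (Nat.cast_nonneg _) hP _
    calc (K : ℝ) ^ (2 * q) * (((45 * (K + s) ^ 2 : ℕ) : ℝ) ^ (2 * q * s) * ((X : ℝ) + Y))
        ≤ (K : ℝ) ^ (2 * q) * (((45 * (s + 1) ^ 2 : ℝ) * K ^ 2) ^ (2 * q * s) *
          ((X : ℝ) + Y)) := by gcongr
      _ = (45 * (s + 1) ^ 2 : ℝ) ^ (2 * q * s) * (K : ℝ) ^ q *
          ((K : ℝ) ^ (q + 4 * q * s) * ((X : ℝ) + Y)) := by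
          rw [mul_pow, ← pow_mul]
          have : (K : ℝ) ^ (2 * q) * (K : ℝ) ^ (2 * (2 * q * s)) =
              (K : ℝ) ^ q * (K : ℝ) ^ (q + 4 * q * s) := by
            rw [← pow_add, ← pow_add]; congr 1; ring
          linear_combination (45 * (s + 1) ^ 2 : ℝ) ^ (2 * q * s) * ((X : ℝ) + Y) * this
      _ ≤ (45 * (s + 1) ^ 2 : ℝ) ^ (2 * q * s) * (K : ℝ) ^ q * (2 * ((X : ℝ) * Y)) := by
          gcongr
      _ = _ := by ring
  calc (((K + s) * (45 * (K + s) ^ 2) ^ 2 + 1 : ℕ) : ℝ) ^ (2 * s) *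
      ((s : ℝ) ^ (2 * q) * ((q : ℝ) ^ (2 * q) * (K : ℝ) ^ q * ((X : ℝ) * Y) +
        (K : ℝ) ^ (2 * q) * (((45 * (K + s) ^ 2 : ℕ) : ℝ) ^ (2 * q * s) * ((X : ℝ) + Y))))
      ≤ ((2 * (s + 1) * (45 * (s + 1) ^ 2) ^ 2 : ℝ) * K ^ 5) ^ (2 * s) *
      ((s : ℝ) ^ (2 * q) * ((q : ℝ) ^ (2 * q) * (K : ℝ) ^ q * ((X : ℝ) * Y) +
        2 * (45 * (s + 1) ^ 2 : ℝ) ^ (2 * q * s) * ((K : ℝ) ^ q * ((X : ℝ) * Y)))) := by
        gcongr
    _ = _ := by
        rw [mul_pow ((2 * (s + 1) * (45 * (s + 1) ^ 2) ^ 2 : ℝ)), ← pow_mul, pow_add]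
        have : (5 : ℕ) * (2 * s) = 10 * s := by ring
        rw [this]
        ring

/-! ### The main theorem -/

open Classical in
/-- For each `s`, `ε`, `η` there is `C` such that in every box of curves all but a proportion `η`
satisfy the closeness with `C K^(ε-1/2)` for all `K` with `K^C` at most the sides of the box. -/
theorem close_all (s : ℕ) (hs : 1 ≤ s) (ε η : ℝ) (hε : 0 < ε) (hη : 0 < η) :
    ∃ C : ℝ, 0 < C ∧ ∀ (A B : ℤ) (X Y : ℕ),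
      (((curveBox A B X Y).filter (fun w => ¬ ∀ K : ℕ, 1 ≤ K → (K : ℝ) ^ C ≤ min (X : ℝ) Y →
        Close s K (C * (K : ℝ) ^ (ε - 1 / 2)) w.1 w.2)).card : ℝ) ≤ η * (X * Y) := by
  set q : ℕ := ⌈(10 * s + 2 : ℝ) / (2 * ε)⌉₊ + 1 with hq
  have hq1 : 1 ≤ q := by omega
  have hqε : (10 * s + 2 : ℝ) ≤ 2 * q * ε := by
    have h1 : (10 * s + 2 : ℝ) / (2 * ε) ≤ q := by
      rw [hq]; push_cast
      linarith [Nat.le_ceil ((10 * s + 2 : ℝ) / (2 * ε))]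
    rw [div_le_iff₀ (by positivity)] at h1
    linarith
  set c3 : ℝ := ((2 * (s + 1) * (45 * (s + 1) ^ 2) ^ 2 : ℝ) ^ (2 * s) * ((s : ℝ) ^ (2 * q) *
        ((q : ℝ) ^ (2 * q) + 2 * (45 * (s + 1) ^ 2 : ℝ) ^ (2 * q * s)))) with hc3
  have hc30 : 0 ≤ c3 := by positivity
  set k0 : ℕ := ⌈16 / η⌉₊ + 2 with hk0
  have hk0η : 8 / (k0 : ℝ) ≤ η / 2 := by
    have h1 : 16 / η ≤ k0 := by
      rw [hk0]; push_cast
      linarith [Nat.le_ceil (16 / η)]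
    have hk0R : (0 : ℝ) < k0 := by rw [hk0]; push_cast; positivity
    rw [div_le_iff₀ hη] at h1
    rw [div_le_iff₀ hk0R]
    linarith
  set K0 : ℕ := max (⌈4 * c3 / η⌉₊ + 1) (45 * (s + 1) ^ 2) with hK0
  have hK01 : 1 ≤ K0 := le_max_of_le_left (by omega)
  have hK0η : c3 * (2 / (K0 : ℝ)) ≤ η / 2 := by
    have h1 : 4 * c3 / η ≤ K0 := by
      have h2 : ((⌈4 * c3 / η⌉₊ + 1 : ℕ) : ℝ) ≤ K0 := by exact_mod_cast le_max_left _ _
      push_cast at h2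
      linarith [Nat.le_ceil (4 * c3 / η)]
    have hK0R : (0 : ℝ) < K0 := by exact_mod_cast hK01
    rw [div_le_iff₀ hη] at h1
    rw [← mul_div_assoc, div_le_iff₀ hK0R]
    linarith
  set D : ℕ := q + 4 * q * s + 3 with hD
  set C : ℝ := max (D : ℝ) (max (k0 + 1 : ℝ) K0) with hC
  have hCD : (D : ℝ) ≤ C := le_max_left _ _
  have hCk0 : (k0 + 1 : ℝ) ≤ C := (le_max_left _ _).trans (le_max_right _ _)
  have hCK0 : (K0 : ℝ) ≤ C := (le_max_right _ _).trans (le_max_right _ _)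
  have hC0 : 0 < C := lt_of_lt_of_le (by positivity) hCk0
  refine ⟨C, hC0, fun A B X Y => ?_⟩
  set n := min X Y with hn
  -- the pieces
  set E1 := (curveBox A B X Y).filter (fun w => ∃ k, k0 ≤ k ∧ Nat.nth Nat.Prime k ≤ min X Y ∧
      ((w.1 : ℤ) : ZMod (Nat.nth Nat.Prime k)) = 0 ∧
      ((w.2 : ℤ) : ZMod (Nat.nth Nat.Prime k)) = 0) with hE1
  set BK : ℕ → Finset (ℤ × ℤ) := fun K => (curveBox A B X Y).filter
    (fun w => ∃ α β : Fin s → ℝ, (K : ℝ) ^ (1 / 2 + ε) < |dev s α β K w.1 w.2|) with hBK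
  set R := (Ioo (K0 - 1) (n + 1)).filter (fun K => K ^ D ≤ n) with hR
  have hBKbound : ∀ K ∈ R, ((BK K).card : ℝ) ≤ c3 * (X * Y) * ((K : ℝ) ^ 2)⁻¹ := by
    intro K hK
    rw [hR, Finset.mem_filter, Finset.mem_Ioo] at hK
    obtain ⟨⟨hK1, hK2⟩, hKD⟩ := hK
    have hK1' : 1 ≤ K := by omega
    have hKR : (1 : ℝ) ≤ K := by exact_mod_cast hK1'
    have hl : (0 : ℝ) < (K : ℝ) ^ (1 / 2 + ε) := Real.rpow_pos_of_pos (by linarith) _
    have h1 := card_bad s hs K (45 * (K + s) ^ 2) q hq1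
      (fun j hj => nth_prime_le_sq (K + s) j (by omega) hj) A B X Y _ hl
    have hmin : K ^ (q + 4 * q * s) ≤ min X Y := by
      refine le_trans ?_ hKD
      exact Nat.pow_le_pow_right hK1' (by omega)
    have h2 := constants s q K X Y hK1' hmin
    have h3 : (K : ℝ) ^ (q + 10 * s + 2) ≤ ((K : ℝ) ^ (1 / 2 + ε)) ^ (2 * q) := by
      rw [← Real.rpow_natCast, ← Real.rpow_natCast, ← Real.rpow_mul (by linarith)]
      apply Real.rpow_le_rpow_of_exponent_le hKR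
      push_cast
      linarith
    have h4 : ((BK K).card : ℝ) * (K : ℝ) ^ (q + 10 * s + 2) ≤
        c3 * (K : ℝ) ^ (10 * s + q) * ((X : ℝ) * Y) := by
      calc ((BK K).card : ℝ) * (K : ℝ) ^ (q + 10 * s + 2)
          ≤ ((BK K).card : ℝ) * ((K : ℝ) ^ (1 / 2 + ε)) ^ (2 * q) :=
            mul_le_mul_of_nonneg_left h3 (Nat.cast_nonneg _)
        _ ≤ _ := h1.trans h2
    have h5 : (K : ℝ) ^ (q + 10 * s + 2) = (K : ℝ) ^ (10 * s + q) * (K : ℝ) ^ 2 := by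
      rw [← pow_add]; congr 1; ring
    have h6 : (0 : ℝ) < (K : ℝ) ^ (10 * s + q) := by positivity
    have h7 : (0 : ℝ) < (K : ℝ) ^ 2 := by positivity
    rw [h5] at h4
    rw [← div_eq_mul_inv, le_div_iff₀ h7]
    have h8 : (K : ℝ) ^ (10 * s + q) * (((BK K).card : ℝ) * (K : ℝ) ^ 2) ≤
        (K : ℝ) ^ (10 * s + q) * (c3 * (X * Y)) := by linarith
    exact le_of_mul_le_mul_left h8 h6
  have hsub : (curveBox A B X Y).filter (fun w => ¬ ∀ K : ℕ, 1 ≤ K →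
      (K : ℝ) ^ C ≤ min (X : ℝ) Y → Close s K (C * (K : ℝ) ^ (ε - 1 / 2)) w.1 w.2) ⊆
      E1 ∪ R.biUnion BK := by
    intro w hw
    rw [Finset.mem_filter] at hw
    obtain ⟨hwbox, hnot⟩ := hw
    push Not at hnot
    obtain ⟨K, hK1, hKC, hncl⟩ := hnot
    have hKR : (1 : ℝ) ≤ K := by exact_mod_cast hK1
    have hKpos : (0 : ℝ) < K := by linarith
    rw [Finset.mem_union]
    by_contra hcon
    push Not at hcon
    obtain ⟨hnE1, hnB⟩ := hcon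
    apply hncl
    by_cases hKK0 : K < K0
    · -- small K
      refine (close_one s K w.1 w.2).mono ?_
      have h1 : (K : ℝ) ^ (-(1 : ℝ)) ≤ (K : ℝ) ^ (ε - 1 / 2) :=
        Real.rpow_le_rpow_of_exponent_le hKR (by linarith)
      rw [Real.rpow_neg_one] at h1
      have h2 : (K : ℝ) ≤ K0 := by exact_mod_cast hKK0.le
      calc (1 : ℝ) = K * (K : ℝ)⁻¹ := by field_simp
        _ ≤ C * (K : ℝ)⁻¹ := mul_le_mul_of_nonneg_right (h2.trans hCK0) (by positivity)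
        _ ≤ C * (K : ℝ) ^ (ε - 1 / 2) := mul_le_mul_of_nonneg_left h1 hC0.le
    · push Not at hKK0
      have hKD : K ^ D ≤ n := by
        have h1 : (K : ℝ) ^ (D : ℝ) ≤ (K : ℝ) ^ C :=
          Real.rpow_le_rpow_of_exponent_le hKR hCD
        rw [Real.rpow_natCast] at h1
        have h2 : ((K ^ D : ℕ) : ℝ) ≤ ((min X Y : ℕ) : ℝ) := by
          push_cast; exact h1.trans hKC
        exact_mod_cast h2
      have hKn : K ≤ n := by
        refine le_trans ?_ hKD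
        calc K = K ^ 1 := (pow_one K).symm
          _ ≤ K ^ D := Nat.pow_le_pow_right hK1 (by omega)
      have hKR' : K ∈ R := by
        rw [hR, Finset.mem_filter, Finset.mem_Ioo]
        exact ⟨⟨by omega, by omega⟩, hKD⟩
      have hdev : ∀ α β : Fin s → ℝ, |dev s α β K w.1 w.2| ≤ (K : ℝ) ^ (1 / 2 + ε) := by
        intro α β
        by_contra hlt
        push Not at hlt
        apply hnB
        rw [Finset.mem_biUnion]
        refine ⟨K, hKR', ?_⟩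
        rw [hBK]
        exact Finset.mem_filter.mpr ⟨hwbox, α, β, hlt⟩
      have hgcd : ∀ k, k0 ≤ k → k < K + s → ¬ (((w.1 : ℤ) : ZMod (Nat.nth Nat.Prime k)) = 0 ∧
          ((w.2 : ℤ) : ZMod (Nat.nth Nat.Prime k)) = 0) := by
        intro k hk hkK hab
        apply hnE1
        rw [hE1, Finset.mem_filter]
        refine ⟨hwbox, k, hk, ?_, hab⟩
        have h1 := nth_prime_le_sq (K + s) k (by omega) hkK
        refine h1.trans ?_
        have h2 : K + s ≤ (s + 1) * K := by nlinarith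
        have h3 : 45 * (K + s) ^ 2 ≤ (45 * (s + 1) ^ 2) * K ^ 2 := by
          have : (K + s) ^ 2 ≤ ((s + 1) * K) ^ 2 := Nat.pow_le_pow_left h2 2
          calc 45 * (K + s) ^ 2 ≤ 45 * ((s + 1) * K) ^ 2 := Nat.mul_le_mul_left _ this
            _ = _ := by ring
        have h4 : 45 * (s + 1) ^ 2 ≤ K := (le_max_right _ _).trans hKK0
        calc 45 * (K + s) ^ 2 ≤ (45 * (s + 1) ^ 2) * K ^ 2 := h3
          _ ≤ K * K ^ 2 := Nat.mul_le_mul_right _ h4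
          _ = K ^ 3 := by ring
          _ ≤ K ^ D := Nat.pow_le_pow_right hK1 (by omega)
          _ ≤ n := hKD
      have hcl := close_of_dev s K k0 hK1 (by omega) w.1 w.2 _ hgcd hdev
      refine hcl.mono ?_
      have h1 : (K : ℝ) ^ (1 / 2 + ε) / K = (K : ℝ) ^ (ε - 1 / 2) := by
        rw [← Real.rpow_sub_one hKpos.ne']
        congr 1; ring
      have h2 : (1 : ℝ) / K ≤ (K : ℝ) ^ (ε - 1 / 2) := by
        have h3 : (K : ℝ) ^ (-(1 : ℝ)) ≤ (K : ℝ) ^ (ε - 1 / 2) :=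
          Real.rpow_le_rpow_of_exponent_le hKR (by linarith)
        rwa [Real.rpow_neg_one, ← one_div] at h3
      have h4 : ((k0 : ℝ) + (K : ℝ) ^ (1 / 2 + ε)) / K =
          k0 * (1 / K) + (K : ℝ) ^ (1 / 2 + ε) / K := by ring
      rw [h4, h1]
      have h5 : (k0 : ℝ) * (1 / K) ≤ k0 * (K : ℝ) ^ (ε - 1 / 2) :=
        mul_le_mul_of_nonneg_left h2 (Nat.cast_nonneg _)
      have h6 : (0 : ℝ) ≤ (K : ℝ) ^ (ε - 1 / 2) := (Real.rpow_pos_of_pos hKpos _).le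
      nlinarith
  have hcardE1 : (E1.card : ℝ) ≤ 8 / k0 * (X * Y) := by
    have := card_common A B X Y k0 (by omega)
    exact this
  have hsum : ∑ K ∈ R, ((BK K).card : ℝ) ≤ c3 * (2 / K0) * (X * Y) := by
    refine (Finset.sum_le_sum hBKbound).trans ?_
    rw [← Finset.mul_sum]
    have h3 : ∑ K ∈ R, ((K : ℝ) ^ 2)⁻¹ ≤ ∑ K ∈ Ioo (K0 - 1) (n + 1), ((K : ℝ) ^ 2)⁻¹ :=
      Finset.sum_le_sum_of_subset_of_nonneg (Finset.filter_subset _ _)
        (fun _ _ _ => by positivity)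
    have h4 := sum_Ioo_inv_sq_le (α := ℝ) (K0 - 1) (n + 1)
    have h5 : ((K0 - 1 : ℕ) : ℝ) + 1 = K0 := by
      rw [Nat.cast_sub hK01]; push_cast; ring
    rw [h5] at h4
    calc c3 * ((X : ℝ) * Y) * ∑ K ∈ R, ((K : ℝ) ^ 2)⁻¹
        ≤ c3 * ((X : ℝ) * Y) * (2 / K0) :=
          mul_le_mul_of_nonneg_left (h3.trans h4) (by positivity)
      _ = _ := by ring
  calc (((curveBox A B X Y).filter (fun w => ¬ ∀ K : ℕ, 1 ≤ K → (K : ℝ) ^ C ≤ min (X : ℝ) Y →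
        Close s K (C * (K : ℝ) ^ (ε - 1 / 2)) w.1 w.2)).card : ℝ)
      ≤ ((E1 ∪ R.biUnion BK).card : ℝ) := by exact_mod_cast Finset.card_le_card hsub
    _ ≤ (E1.card : ℝ) + ((R.biUnion BK).card : ℝ) := by
        exact_mod_cast Finset.card_union_le _ _
    _ ≤ (E1.card : ℝ) + ∑ K ∈ R, ((BK K).card : ℝ) := by
        have : ((R.biUnion BK).card : ℝ) ≤ ∑ K ∈ R, ((BK K).card : ℝ) := by
          exact_mod_cast Finset.card_biUnion_le
        linarith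
    _ ≤ 8 / k0 * (X * Y) + c3 * (2 / K0) * (X * Y) := add_le_add hcardE1 hsum
    _ ≤ η / 2 * (X * Y) + η / 2 * (X * Y) := by
        have h0 : (0 : ℝ) ≤ (X : ℝ) * Y := by positivity
        exact add_le_add (mul_le_mul_of_nonneg_right hk0η h0)
          (mul_le_mul_of_nonneg_right hK0η h0)
    _ = η * (X * Y) := by ring

end Pool.Agent.H11.STA
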