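import Mathlib
import Pool.Agent.H11.STA.Prime
import Pool.Agent.H11.STA.Main

/-!
# The folded discrepancy: each angle replaced by `x` or `1 - x` with equal weight
-/

namespace Pool.Agent.H11.STA

open MeasureTheory Set Filter Topology

open Classical in
/-- The average over `k < K` and over all sign patterns of the indicator that the tuple obtained
from `(x_k, …, x_{k+s-1})` by replacing `x` by `1 - x` in the coordinates of the pattern lies in
the box `∏ [a_i, b_i)`. -/
noncomputable def foldCount (E : WeierstrassCurve ℚ) {s : ℕ} (a b : Fin s → ℝ) (K : ℕ) : ℝ :=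
  (∑ k ∈ Finset.range K, ∏ i : Fin s,
    ((if angle E (k + i) ∈ Ico (a i) (b i) then (1 : ℝ) else 0) +
      (if 1 - angle E (k + i) ∈ Ico (a i) (b i) then (1 : ℝ) else 0)) / 2) / K

/-- The folded discrepancy: supremum over all boxes in `[0,1]^s` of the difference between
`foldCount` and the Sato-Tate measure. It depends only on the absolute values of the traces. -/
noncomputable def foldDisc (E : WeierstrassCurve ℚ) (s K : ℕ) : ℝ :=
  sSup {r | ∃ a b : Fin s → ℝ, (∀ i, 0 ≤ a i ∧ a i ≤ b i ∧ b i ≤ 1) ∧
    r = |foldCount E a b K - (Measure.pi (fun _ : Fin s => satoTate)).real (box a b)|}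

/-- The Sato-Tate distribution function. -/
noncomputable def stF (c : ℝ) : ℝ := ∫ u in (0 : ℝ)..c, 2 * Real.sin (Real.pi * u) ^ 2

lemma st_real (a b : ℝ) (h0 : 0 ≤ a) (hab : a ≤ b) (h1 : b ≤ 1) :
    satoTate.real (Ico a b) = stF b - stF a := by
  rw [measureReal_def, satoTate_Ico a b h0 hab h1, ENNReal.toReal_ofReal
    (intervalIntegral.integral_nonneg hab (fun u _ => by positivity))]
  have := intervalIntegral.integral_add_adjacent_intervals
      (cont_density.intervalIntegrable (μ := volume) 0 a)
      (cont_density.intervalIntegrable (μ := volume) a b)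
  unfold stF
  linarith

lemma stF_formula (c : ℝ) : stF c =
    c - Real.sin (Real.pi * c) * Real.cos (Real.pi * c) / Real.pi := by
  unfold stF
  rw [integral_density]
  have := Real.pi_ne_zero
  simp
  field_simp
  ring

lemma stF_symm (c : ℝ) : stF (1 - c) = 1 - stF c := by
  rw [stF_formula, stF_formula]
  have h1 : Real.pi * (1 - c) = Real.pi - Real.pi * c := by ring
  rw [h1, Real.sin_pi_sub, Real.cos_pi_sub]
  ring

lemma stF_lip {x y : ℝ} (h : x ≤ y) : 0 ≤ stF y - stF x ∧ stF y - stF x ≤ 2 * (y - x) := by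
  have hadd := intervalIntegral.integral_add_adjacent_intervals
      (cont_density.intervalIntegrable (μ := volume) 0 x)
      (cont_density.intervalIntegrable (μ := volume) x y)
  have h1 : stF y - stF x = ∫ u in x..y, 2 * Real.sin (Real.pi * u) ^ 2 := by
    unfold stF; linarith
  rw [h1]
  constructor
  · exact intervalIntegral.integral_nonneg h (fun u _ => by positivity)
  · have h2 : ∫ u in x..y, (2 : ℝ) = 2 * (y - x) := by
      rw [intervalIntegral.integral_const]; simp only [smul_eq_mul]; ring
    rw [← h2]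
    apply intervalIntegral.integral_mono_on h
    · exact cont_density.intervalIntegrable _ _
    · exact continuous_const.intervalIntegrable _ _
    · intro u _
      have := Real.sin_sq_le_one (Real.pi * u)
      linarith

lemma abs_prod_sub_prod {ι : Type*} [DecidableEq ι] (S : Finset ι) (x y : ι → ℝ)
    (hx : ∀ i ∈ S, 0 ≤ x i ∧ x i ≤ 1) (hy : ∀ i ∈ S, 0 ≤ y i ∧ y i ≤ 1) :
    |∏ i ∈ S, x i - ∏ i ∈ S, y i| ≤ ∑ i ∈ S, |x i - y i| := by
  induction S using Finset.induction_on with
  | empty => simp
  | insert a S ha ih =>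
    have h1 := ih (fun i hi => hx i (Finset.mem_insert_of_mem hi))
      (fun i hi => hy i (Finset.mem_insert_of_mem hi))
    rw [Finset.prod_insert ha, Finset.prod_insert ha, Finset.sum_insert ha]
    have hxa := hx a (Finset.mem_insert_self _ _)
    have hy0 : 0 ≤ ∏ i ∈ S, y i :=
      Finset.prod_nonneg (fun i hi => (hy i (Finset.mem_insert_of_mem hi)).1)
    have hy1 : ∏ i ∈ S, y i ≤ 1 :=
      Finset.prod_le_one (fun i hi => (hy i (Finset.mem_insert_of_mem hi)).1)
        (fun i hi => (hy i (Finset.mem_insert_of_mem hi)).2)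
    have h2 : x a * ∏ i ∈ S, x i - y a * ∏ i ∈ S, y i =
        x a * (∏ i ∈ S, x i - ∏ i ∈ S, y i) + (x a - y a) * ∏ i ∈ S, y i := by ring
    rw [h2]
    have h3 : |x a * (∏ i ∈ S, x i - ∏ i ∈ S, y i)| ≤ ∑ i ∈ S, |x i - y i| := by
      rw [abs_mul, abs_of_nonneg hxa.1]
      exact (mul_le_of_le_one_left (abs_nonneg _) hxa.2).trans h1
    have h4 : |(x a - y a) * ∏ i ∈ S, y i| ≤ |x a - y a| := by
      rw [abs_mul, abs_of_nonneg hy0]
      exact mul_le_of_le_one_right (abs_nonneg _) hy1
    have h5 := abs_add_le (x a * (∏ i ∈ S, x i - ∏ i ∈ S, y i)) ((x a - y a) * ∏ i ∈ S, y i)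
    linarith

lemma angle_bounds (E : WeierstrassCurve ℚ) (k : ℕ) : 0 ≤ angle E k ∧ angle E k ≤ 1 := by
  unfold angle
  split_ifs
  · exact ⟨div_nonneg (Real.arccos_nonneg _) Real.pi_pos.le,
      (div_le_one Real.pi_pos).mpr (Real.arccos_le_pi _)⟩
  · norm_num

/-- Eventually, for small `δ > 0`, no given point lies in `(c, c + δ)`. -/
lemma eventually_gap (x c : ℝ) : ∀ᶠ δ in 𝓝[>] (0 : ℝ), x ≤ c ∨ c + δ ≤ x := by
  by_cases h : x ≤ c
  · exact Eventually.of_forall (fun _ => Or.inl h)
  · push Not at h
    have h1 : ∀ᶠ δ in 𝓝 (0 : ℝ), δ < x - c := eventually_lt_nhds (by linarith)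
    filter_upwards [nhdsWithin_le_nhds h1] with δ hδ
    right; linarith

/-- The reflected boxes have local discrepancy at most twice the extreme discrepancy. -/
lemma pattern_bound (E : WeierstrassCurve ℚ) (s K : ℕ) (hK : 1 ≤ K) (a b : Fin s → ℝ)
    (hab : ∀ i, 0 ≤ a i ∧ a i ≤ b i ∧ b i ≤ 1) (e : Fin s → Bool) (N : ℕ)
    (hN : N = ((Finset.range K).filter (fun k => ∀ i : Fin s,
      (if e i then 1 - angle E (k + i) else angle E (k + i)) ∈ Ico (a i) (b i))).card) :
    |(N : ℝ) / K - ∏ i, satoTate.real (Ico (a i) (b i))| ≤ 2 * extremeDisc E s K := by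
  classical
  have hKR : (0 : ℝ) < K := by exact_mod_cast hK
  set D := extremeDisc E s K with hD
  -- an eventual bound
  have hev : ∀ᶠ δ in 𝓝[>] (0 : ℝ), |(N : ℝ) / K - ∏ i, satoTate.real (Ico (a i) (b i))| ≤
      2 * D + 4 * s * δ := by
    have hg1 : ∀ᶠ δ in 𝓝[>] (0 : ℝ), ∀ k ∈ Finset.range (K + s), ∀ i : Fin s,
        angle E k ≤ 1 - b i ∨ 1 - b i + δ ≤ angle E k := by
      rw [Filter.eventually_all_finset]
      intro k _
      rw [Filter.eventually_all]
      intro i
      exact eventually_gap _ _
    have hg2 : ∀ᶠ δ in 𝓝[>] (0 : ℝ), ∀ k ∈ Finset.range (K + s), ∀ i : Fin s,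
        angle E k ≤ 1 - a i ∨ 1 - a i + δ ≤ angle E k := by
      rw [Filter.eventually_all_finset]
      intro k _
      rw [Filter.eventually_all]
      intro i
      exact eventually_gap _ _
    filter_upwards [hg1, hg2, self_mem_nhdsWithin] with δ h1 h2 hδ
    have hδ0 : 0 < δ := hδ
    set a' : Fin s → ℝ := fun i => if e i then min 1 (1 - b i + δ) else a i with ha'
    set b' : Fin s → ℝ := fun i => if e i then min 1 (1 - a i + δ) else b i with hb'
    have hab' : ∀ i, 0 ≤ a' i ∧ a' i ≤ b' i ∧ b' i ≤ 1 := by
      intro i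
      obtain ⟨h3, h4, h5⟩ := hab i
      simp only [ha', hb']
      split_ifs
      · refine ⟨le_min zero_le_one (by linarith), ?_, min_le_left _ _⟩
        exact min_le_min_left _ (by linarith)
      · exact ⟨h3, h4, h5⟩
    -- measures
    have hmeas : |∏ i, satoTate.real (Ico (a' i) (b' i)) -
        ∏ i, satoTate.real (Ico (a i) (b i))| ≤ 4 * s * δ := by
      refine (abs_prod_sub_prod Finset.univ _ _
        (fun i _ => ⟨measureReal_nonneg, measureReal_le_one⟩)
        (fun i _ => ⟨measureReal_nonneg, measureReal_le_one⟩)).trans ?_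
      have h6 : ∀ i ∈ (Finset.univ : Finset (Fin s)), |satoTate.real (Ico (a' i) (b' i)) -
          satoTate.real (Ico (a i) (b i))| ≤ 4 * δ := by
        intro i _
        obtain ⟨h3, h4, h5⟩ := hab i
        rw [st_real _ _ (hab' i).1 (hab' i).2.1 (hab' i).2.2, st_real _ _ h3 h4 h5]
        simp only [ha', hb']
        split_ifs
        · have e1 := stF_symm (a i)
          have e2 := stF_symm (b i)
          have m1 : 1 - b i ≤ min 1 (1 - b i + δ) := le_min (by linarith) (by linarith)
          have m2 : 1 - a i ≤ min 1 (1 - a i + δ) := le_min (by linarith) (by linarith)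
          have l1 := stF_lip m1
          have l2 := stF_lip m2
          have u1 : min 1 (1 - b i + δ) ≤ 1 - b i + δ := min_le_right _ _
          have u2 : min 1 (1 - a i + δ) ≤ 1 - a i + δ := min_le_right _ _
          rw [abs_le]
          constructor <;> linarith [l1.1, l1.2, l2.1, l2.2]
        · rw [sub_self, abs_zero]; positivity
      refine (Finset.sum_le_sum h6).trans ?_
      rw [Finset.sum_const, Finset.card_univ, Fintype.card_fin, nsmul_eq_mul]
      linarith
    -- counts
    have hloc : |(boxCount E a' b' K : ℝ) / K - ∏ i, satoTate.real (Ico (a' i) (b' i))| ≤ D := by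
      rw [← real_box]
      exact le_csSup (extreme_bdd E s K) ⟨a', b', hab', rfl⟩
    have hloc1 : |(boxCount E (fun _ : Fin s => (0 : ℝ)) (fun _ => 1) K : ℝ) / K - 1| ≤ D := by
      have h3 : (Measure.pi (fun _ : Fin s => satoTate)).real
          (box (fun _ : Fin s => (0 : ℝ)) (fun _ => 1)) = 1 := by
        rw [real_box]
        simp [measureReal_def, satoTate_Ico_one]
      have h4 : localDisc E (fun _ : Fin s => (0 : ℝ)) (fun _ => 1) K ≤ D :=
        le_csSup (extreme_bdd E s K) ⟨fun _ => 0, fun _ => 1,
          fun _ => ⟨le_rfl, zero_le_one, le_rfl⟩, rfl⟩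
      unfold localDisc at h4
      rw [h3] at h4
      exact h4
    set S := (Finset.range K).filter (fun k => ∀ i : Fin s,
      (if e i then 1 - angle E (k + i) else angle E (k + i)) ∈ Ico (a i) (b i)) with hS
    set T := (Finset.range K).filter (fun k =>
      (fun i : Fin s => angle E (k + i)) ∈ box a' b') with hT
    set U := (Finset.range K).filter (fun k =>
      (fun i : Fin s => angle E (k + i)) ∈ box (fun _ : Fin s => (0 : ℝ)) (fun _ => 1)) with hU
    have hTcard : boxCount E a' b' K = T.card := by
      unfold boxCount; rw [hT]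
    have hUcard : boxCount E (fun _ : Fin s => (0 : ℝ)) (fun _ => 1) K = U.card := by
      unfold boxCount; rw [hU]
    have hkey : ∀ k ∈ Finset.range K, (∀ i : Fin s, angle E (k + i) < 1) →
        ((∀ i : Fin s, (if e i then 1 - angle E (k + i) else angle E (k + i)) ∈
          Ico (a i) (b i)) ↔ (fun i : Fin s => angle E (k + i)) ∈ box a' b') := by
      intro k hk hlt
      rw [Finset.mem_range] at hk
      unfold box
      rw [Set.mem_univ_pi]
      refine forall_congr' (fun i => ?_)
      have hi := i.2
      have g1 := h1 (k + i) (Finset.mem_range.mpr (by omega)) i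
      have g2 := h2 (k + i) (Finset.mem_range.mpr (by omega)) i
      have hl := hlt i
      simp only [ha', hb']
      split_ifs
      · rw [Set.mem_Ico, Set.mem_Ico, lt_min_iff]
        constructor
        · rintro ⟨q1, q2⟩
          refine ⟨?_, hl, by linarith⟩
          rcases g1 with g1 | g1
          · linarith
          · exact (min_le_right _ _).trans g1
        · rintro ⟨q1, -, q2⟩
          constructor
          · rcases g2 with g2 | g2
            · linarith
            · linarith
          · rcases min_le_iff.mp q1 with q3 | q3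
            · linarith
            · linarith
      · rfl
    have hTS : T ⊆ S := by
      intro k hk
      rw [hT, Finset.mem_filter] at hk
      rw [hS, Finset.mem_filter]
      refine ⟨hk.1, (hkey k hk.1 ?_).mpr hk.2⟩
      intro i
      have h3 := hk.2
      unfold box at h3
      rw [Set.mem_univ_pi] at h3
      exact (h3 i).2.trans_le (hab' i).2.2
    have hSTU : S ⊆ T ∪ (Finset.range K \ U) := by
      intro k hk
      rw [hS, Finset.mem_filter] at hk
      rw [Finset.mem_union, Finset.mem_sdiff]
      by_cases hlt : ∀ i : Fin s, angle E (k + i) < 1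
      · left
        rw [hT, Finset.mem_filter]
        exact ⟨hk.1, (hkey k hk.1 hlt).mp hk.2⟩
      · right
        refine ⟨hk.1, fun h' => hlt ?_⟩
        rw [hU, Finset.mem_filter] at h'
        have h3 := h'.2
        unfold box at h3
        rw [Set.mem_univ_pi] at h3
        exact fun i => (h3 i).2
    have hc1 : (T.card : ℝ) ≤ N := by rw [hN]; exact_mod_cast Finset.card_le_card hTS
    have hUle : U.card ≤ K := by
      have := Finset.card_filter_le (Finset.range K) (fun k =>
        (fun i : Fin s => angle E (k + i)) ∈ box (fun _ : Fin s => (0 : ℝ)) (fun _ => 1))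
      rw [Finset.card_range] at this
      exact this
    have hsd : ((Finset.range K \ U).card : ℝ) = K - U.card := by
      have h3 := Finset.card_sdiff_add_card_eq_card (Finset.filter_subset (fun k =>
        (fun i : Fin s => angle E (k + i)) ∈ box (fun _ : Fin s => (0 : ℝ)) (fun _ => 1))
        (Finset.range K))
      rw [← hU, Finset.card_range] at h3
      have h4 : (((Finset.range K \ U).card + U.card : ℕ) : ℝ) = K := by exact_mod_cast h3
      push_cast at h4
      linarith
    have hc2 : (N : ℝ) ≤ T.card + (K - U.card) := by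
      rw [← hsd, hN]
      exact_mod_cast (Finset.card_le_card hSTU).trans (Finset.card_union_le _ _)
    rw [hTcard] at hloc
    rw [hUcard] at hloc1
    have hd1 : (T.card : ℝ) / K ≤ N / K := div_le_div_of_nonneg_right hc1 hKR.le
    have hd2 : (N : ℝ) / K ≤ T.card / K + (1 - U.card / K) := by
      have : (T.card : ℝ) / K + (1 - U.card / K) = (T.card + (K - U.card)) / K := by
        field_simp
      rw [this]
      exact div_le_div_of_nonneg_right hc2 hKR.le
    have l1 := abs_le.mp hloc
    have l2 := abs_le.mp hloc1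
    have l3 := abs_le.mp hmeas
    rw [abs_le]
    constructor <;> linarith [l1.1, l1.2, l2.1, l2.2, l3.1, l3.2]
  -- pass to the limit
  have hlim : Tendsto (fun δ : ℝ => 2 * D + 4 * s * δ) (𝓝[>] 0) (𝓝 (2 * D)) := by
    have h1 : Tendsto (fun δ : ℝ => 2 * D + 4 * s * δ) (𝓝 0) (𝓝 (2 * D + 4 * s * 0)) := by
      apply Continuous.tendsto
      fun_prop
    rw [mul_zero, add_zero] at h1
    exact h1.mono_left nhdsWithin_le_nhds
  exact ge_of_tendsto hlim hev

/-- The folded discrepancy is at most twice the extreme discrepancy. -/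
theorem foldDisc_le (E : WeierstrassCurve ℚ) (s K : ℕ) (hK : 1 ≤ K) :
    foldDisc E s K ≤ 2 * extremeDisc E s K := by
  classical
  have hKR : (0 : ℝ) < K := by exact_mod_cast hK
  unfold foldDisc
  refine csSup_le ?_ ?_
  · exact ⟨_, fun _ => 0, fun _ => 1, fun _ => ⟨le_rfl, zero_le_one, le_rfl⟩, rfl⟩
  rintro r ⟨a, b, hab, rfl⟩
  rw [real_box]
  set D := extremeDisc E s K with hD
  set μ := ∏ i, satoTate.real (Ico (a i) (b i)) with hμ
  set N : (Fin s → Bool) → ℕ := fun e => ((Finset.range K).filter (fun k => ∀ i : Fin s,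
      (if e i then 1 - angle E (k + i) else angle E (k + i)) ∈ Ico (a i) (b i))).card with hN
  have hpat : ∀ e, |(N e : ℝ) / K - μ| ≤ 2 * D := fun e =>
    pattern_bound E s K hK a b hab e (N e) rfl
  have hfold : foldCount E a b K = (1 / 2) ^ s * ∑ e : Fin s → Bool, (N e : ℝ) / K := by
    unfold foldCount
    have h1 : ∀ k, ∏ i : Fin s, ((if angle E (k + i) ∈ Ico (a i) (b i) then (1 : ℝ) else 0) +
        (if 1 - angle E (k + i) ∈ Ico (a i) (b i) then (1 : ℝ) else 0)) / 2 =
        (1 / 2) ^ s * ∑ e : Fin s → Bool, if (∀ i : Fin s,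
          (if e i then 1 - angle E (k + i) else angle E (k + i)) ∈ Ico (a i) (b i))
          then (1 : ℝ) else 0 := by
      intro k
      have h2 : ∀ i : Fin s, ((if angle E (k + i) ∈ Ico (a i) (b i) then (1 : ℝ) else 0) +
          (if 1 - angle E (k + i) ∈ Ico (a i) (b i) then (1 : ℝ) else 0)) / 2 =
          (1 / 2) * ∑ c : Bool, (if (if c then 1 - angle E (k + i) else angle E (k + i)) ∈
            Ico (a i) (b i) then (1 : ℝ) else 0) := by
        intro i
        rw [Fintype.sum_bool]
        simp only [if_true, Bool.false_eq_true, if_false]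
        ring
      simp only [h2]
      rw [Finset.prod_mul_distrib, Finset.prod_const, Finset.card_univ, Fintype.card_fin,
        Fintype.prod_sum]
      congr 1
      refine Finset.sum_congr rfl (fun e _ => ?_)
      by_cases h : ∀ i : Fin s,
          (if e i then 1 - angle E (k + i) else angle E (k + i)) ∈ Ico (a i) (b i)
      · rw [if_pos h]
        exact Finset.prod_eq_one (fun i _ => if_pos (h i))
      · rw [if_neg h]
        push Not at h
        obtain ⟨i, hi⟩ := h
        exact Finset.prod_eq_zero (Finset.mem_univ i) (if_neg hi)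
    simp only [h1]
    rw [← Finset.mul_sum, Finset.sum_comm, ← Finset.sum_div, mul_div_assoc]
    congr 2
    refine Finset.sum_congr rfl (fun e _ => ?_)
    simp only [hN]
    rw [Finset.card_filter]
    push_cast
    rfl
  have hcardB : (Finset.univ : Finset (Fin s → Bool)).card = 2 ^ s := by
    rw [Finset.card_univ, Fintype.card_fun, Fintype.card_bool, Fintype.card_fin]
  have h3 : foldCount E a b K - μ = (1 / 2) ^ s * ∑ e : Fin s → Bool, ((N e : ℝ) / K - μ) := by
    rw [hfold, Finset.sum_sub_distrib, Finset.sum_const, hcardB, nsmul_eq_mul]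
    push_cast
    have : ((1 : ℝ) / 2) ^ s * 2 ^ s = 1 := by rw [← mul_pow]; norm_num
    linear_combination μ * this
  rw [h3, abs_mul, abs_of_pos (by positivity : (0 : ℝ) < (1 / 2) ^ s)]
  have h4 : |∑ e : Fin s → Bool, ((N e : ℝ) / K - μ)| ≤ 2 ^ s * (2 * D) := by
    refine (Finset.abs_sum_le_sum_abs _ _).trans
      ((Finset.sum_le_sum (fun e _ => hpat e)).trans ?_)
    rw [Finset.sum_const, hcardB, nsmul_eq_mul]
    push_cast
    exact le_rfl
  calc (1 / 2 : ℝ) ^ s * |∑ e : Fin s → Bool, ((N e : ℝ) / K - μ)|
      ≤ (1 / 2 : ℝ) ^ s * (2 ^ s * (2 * D)) := mul_le_mul_of_nonneg_left h4 (by positivity)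
    _ = 2 * D := by
        rw [← mul_assoc, ← mul_pow]; norm_num

end Pool.Agent.H11.STA
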