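import Mathlib
import Pool.Agent.H11.STA.Window
import Pool.Agent.H11.STA.Bad
import Pool.Agent.H11.STA.Main

/-!
# Windows of consecutive primes: general local functions

The same as `Window` and `Bad`, for arbitrary functions `Y k` of two residues modulo the
`(k+1)`-st prime in place of the angle of the reduced curve.
-/

namespace Pool.Agent.H11.STA

open Finset

/-- A family of real functions of two residues modulo the primes. -/
abbrev LocFun := ∀ k : ℕ, ZMod (Nat.nth Nat.Prime k) → ZMod (Nat.nth Nat.Prime k) → ℝ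

open Classical in
/-- Indicator that the local function at `j` lies in `[α, β)`. -/
noncomputable def gind (Y : LocFun) (j : ℕ) (α β : ℝ) (u v : ZMod (Nat.nth Nat.Prime j)) : ℝ :=
  if Y j u v ∈ Set.Ico α β then 1 else 0

open Classical in
/-- The proportion of pairs of residues for which the local function lies in `I`. -/
noncomputable def glaw (Y : LocFun) (k : ℕ) (I : Set ℝ) : ℝ :=
  ((Finset.univ.filter fun w : ZMod (Nat.nth Nat.Prime k) × ZMod (Nat.nth Nat.Prime k) =>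
    Y k w.1 w.2 ∈ I).card : ℝ) / (Nat.nth Nat.Prime k : ℝ) ^ 2

lemma gind_nonneg (Y : LocFun) (j : ℕ) (α β : ℝ) (u v : ZMod (Nat.nth Nat.Prime j)) :
    0 ≤ gind Y j α β u v := by
  unfold gind; split_ifs <;> norm_num

lemma gind_le_one (Y : LocFun) (j : ℕ) (α β : ℝ) (u v : ZMod (Nat.nth Nat.Prime j)) :
    gind Y j α β u v ≤ 1 := by
  unfold gind; split_ifs <;> norm_num

lemma sum_gind (Y : LocFun) (j : ℕ) (α β : ℝ) :
    ∑ u, ∑ v, gind Y j α β u v = (Nat.nth Nat.Prime j : ℝ) ^ 2 * glaw Y j (Set.Ico α β) := by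
  classical
  have h0 : (Nat.nth Nat.Prime j : ℝ) ≠ 0 := by exact_mod_cast (NeZero.ne _)
  unfold glaw
  rw [mul_div_cancel₀ _ (pow_ne_zero 2 h0)]
  rw [Finset.card_filter]
  push_cast
  rw [Fintype.sum_prod_type]
  rfl

lemma glaw_nonneg (Y : LocFun) (j : ℕ) (I : Set ℝ) : 0 ≤ glaw Y j I := by
  unfold glaw; positivity

lemma glaw_le_one (Y : LocFun) (j : ℕ) (I : Set ℝ) : glaw Y j I ≤ 1 := by
  classical
  have h0 : (0 : ℝ) < (Nat.nth Nat.Prime j : ℝ) := by exact_mod_cast (NeZero.pos _)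
  unfold glaw
  rw [div_le_one (by positivity)]
  have h1 := Finset.card_filter_le (Finset.univ : Finset (ZMod (Nat.nth Nat.Prime j) ×
    ZMod (Nat.nth Nat.Prime j))) (fun w => Y j w.1 w.2 ∈ I)
  rw [Finset.card_univ, Fintype.card_prod, ZMod.card] at h1
  calc _ ≤ ((Nat.nth Nat.Prime j * Nat.nth Nat.Prime j : ℕ) : ℝ) := by exact_mod_cast h1
    _ = _ := by push_cast; ring

/-- The centred indicator of a box in the window starting at `k`. -/
noncomputable def gcen (Y : LocFun) (s : ℕ) (α β : Fin s → ℝ) (k : ℕ)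
    (x y : ZMod (winMod s k)) : ℝ :=
  winFun s k (fun i => gind Y (k + i) (α i) (β i)) x y - ∏ i : Fin s, glaw Y (k + i)
    (Set.Ico (α i) (β i))

lemma gcen_sum (Y : LocFun) (s : ℕ) (α β : Fin s → ℝ) (k : ℕ) :
    ∑ x, ∑ y, gcen Y s α β k x y = 0 := by
  unfold gcen
  simp only [Finset.sum_sub_distrib]
  rw [sum_winFun]
  simp only [sum_gind, Finset.sum_const, Finset.card_univ, ZMod.card, nsmul_eq_mul]
  rw [Finset.prod_mul_distrib, Finset.prod_pow]
  have : (winMod s k : ℝ) = ∏ i : Fin s, (Nat.nth Nat.Prime (k + i) : ℝ) := by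
    unfold winMod; push_cast; rfl
  rw [this]
  ring

lemma gcen_abs (Y : LocFun) (s : ℕ) (α β : Fin s → ℝ) (k : ℕ) (x y : ZMod (winMod s k)) :
    |gcen Y s α β k x y| ≤ 1 := by
  unfold gcen winFun
  have h1 := Finset.prod_nonneg (s := Finset.univ) (f := fun i : Fin s =>
    gind Y (k + i) (α i) (β i) (ZMod.prodEquivPi _ (win_pairwise s k) x i)
      (ZMod.prodEquivPi _ (win_pairwise s k) y i)) (fun i _ => gind_nonneg _ _ _ _ _ _)
  have h2 := Finset.prod_le_one (s := Finset.univ) (f := fun i : Fin s =>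
    gind Y (k + i) (α i) (β i) (ZMod.prodEquivPi _ (win_pairwise s k) x i)
      (ZMod.prodEquivPi _ (win_pairwise s k) y i)) (fun i _ => gind_nonneg _ _ _ _ _ _)
      (fun i _ => gind_le_one _ _ _ _ _ _)
  have h3 := Finset.prod_nonneg (s := Finset.univ) (f := fun i : Fin s =>
    glaw Y (k + i) (Set.Ico (α i) (β i))) (fun i _ => glaw_nonneg _ _ _)
  have h4 := Finset.prod_le_one (s := Finset.univ) (f := fun i : Fin s =>
    glaw Y (k + i) (Set.Ico (α i) (β i))) (fun i _ => glaw_nonneg _ _ _)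
      (fun i _ => glaw_le_one _ _ _)
  rw [abs_le]
  constructor <;> linarith

/-- The sum of the centred indicators of a box over the first `K` windows. -/
noncomputable def gdev (Y : LocFun) (s : ℕ) (α β : Fin s → ℝ) (K : ℕ) (a b : ℤ) : ℝ :=
  ∑ k ∈ range K, gcen Y s α β k (a : ZMod (winMod s k)) (b : ZMod (winMod s k))

/-- The `2q`-th moment of the deviation over a box. -/
theorem gdev_moment (Z : LocFun) (s : ℕ) (hs : 1 ≤ s) (α β : Fin s → ℝ) (K P q : ℕ) (hq : 1 ≤ q)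
    (hP : ∀ j < K + s, Nat.nth Nat.Prime j ≤ P) (A B : ℤ) (X Y : ℕ) :
    ∑ a ∈ Ico A (A + X), ∑ b ∈ Ico B (B + Y), (gdev Z s α β K a b) ^ (2 * q) ≤
      (s : ℝ) ^ (2 * q) * ((q : ℝ) ^ (2 * q) * (K : ℝ) ^ q * ((X : ℝ) * Y) +
        (K : ℝ) ^ (2 * q) * ((P : ℝ) ^ (2 * q * s) * ((X : ℝ) + Y))) := by
  classical
  have hsplit : ∀ a b : ℤ, gdev Z s α β K a b = ∑ c ∈ range s,
      ∑ k ∈ (range K).filter (fun k => k % s = c),
        gcen Z s α β k (a : ZMod (winMod s k)) (b : ZMod (winMod s k)) := by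
    intro a b
    unfold gdev
    rw [← Finset.sum_fiberwise_of_maps_to (g := fun k => k % s) (t := range s)]
    intro k _
    exact Finset.mem_range.mpr (Nat.mod_lt _ hs)
  have hcard : ∀ c, (((range K).filter (fun k => k % s = c)).card : ℝ) ≤ K := by
    intro c
    have := Finset.card_filter_le (range K) (fun k => k % s = c)
    rw [Finset.card_range] at this
    exact_mod_cast this
  have hmom : ∀ c ∈ range s, ∑ a ∈ Ico A (A + X), ∑ b ∈ Ico B (B + Y),
      (∑ k ∈ (range K).filter (fun k => k % s = c),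
        gcen Z s α β k (a : ZMod (winMod s k)) (b : ZMod (winMod s k))) ^ (2 * q) ≤
      (q : ℝ) ^ (2 * q) * (K : ℝ) ^ q * ((X : ℝ) * Y) +
        (K : ℝ) ^ (2 * q) * ((P : ℝ) ^ (2 * q * s) * ((X : ℝ) + Y)) := by
    intro c _
    have h := moment_bound (fun k => winMod s k) (fun k => gcen Z s α β k)
      ((range K).filter (fun k => k % s = c)) (fun i _ u v => gcen_abs Z s α β i u v)
      (fun i _ => gcen_sum Z s α β i) ?_ (P ^ s) ?_ q hq A B X Y
    · refine h.trans ?_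
      have h1 := hcard c
      have h2 : (((P ^ s : ℕ) : ℝ)) ^ (2 * q) = (P : ℝ) ^ (2 * q * s) := by
        push_cast; rw [← pow_mul, mul_comm s]
      rw [h2]
      gcongr
    · intro i hi j hj hij
      rw [Finset.mem_filter, Finset.mem_range] at hi hj
      apply winMod_coprime
      have h3 := Nat.div_add_mod i s
      have h4 := Nat.div_add_mod j s
      rw [hi.2] at h3
      rw [hj.2] at h4
      rcases lt_trichotomy (i / s) (j / s) with h5 | h5 | h5
      · left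
        have : s * (i / s) + s ≤ s * (j / s) := by
          calc s * (i / s) + s = s * (i / s + 1) := by ring
            _ ≤ s * (j / s) := Nat.mul_le_mul_left _ h5
        omega
      · exact absurd (by rw [← h3, ← h4, h5]) hij
      · right
        have : s * (j / s) + s ≤ s * (i / s) := by
          calc s * (j / s) + s = s * (j / s + 1) := by ring
            _ ≤ s * (i / s) := Nat.mul_le_mul_left _ h5
        omega
    · intro i hi
      rw [Finset.mem_filter, Finset.mem_range] at hi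
      exact winMod_le s i P (fun j hj => hP _ (by omega))
  have hpm : ∀ a b : ℤ, (gdev Z s α β K a b) ^ (2 * q) ≤ (s : ℝ) ^ (2 * q - 1) *
      ∑ c ∈ range s, (∑ k ∈ (range K).filter (fun k => k % s = c),
        gcen Z s α β k (a : ZMod (winMod s k)) (b : ZMod (winMod s k))) ^ (2 * q) := by
    intro a b
    obtain ⟨n, hn⟩ : ∃ n, 2 * q = n + 1 := ⟨2 * q - 1, by omega⟩
    have hev : Even (n + 1) := hn ▸ even_two_mul q
    rw [hsplit, hn, Nat.add_sub_cancel]
    have h1 := pow_sum_div_card_le_sum_pow (s := range s) (f := fun c =>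
      |∑ k ∈ (range K).filter (fun k => k % s = c),
        gcen Z s α β k (a : ZMod (winMod s k)) (b : ZMod (winMod s k))|)
      (fun c _ => abs_nonneg _) n
    rw [Finset.card_range, div_le_iff₀ (by positivity)] at h1
    have h2 : (∑ c ∈ range s, ∑ k ∈ (range K).filter (fun k => k % s = c),
        gcen Z s α β k (a : ZMod (winMod s k)) (b : ZMod (winMod s k))) ^ (n + 1) ≤
        (∑ c ∈ range s, |∑ k ∈ (range K).filter (fun k => k % s = c),
        gcen Z s α β k (a : ZMod (winMod s k)) (b : ZMod (winMod s k))|) ^ (n + 1) := by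
      rw [← hev.pow_abs]
      exact pow_le_pow_left₀ (abs_nonneg _) (Finset.abs_sum_le_sum_abs _ _) _
    refine h2.trans (h1.trans (le_of_eq ?_))
    rw [mul_comm]
    congr 1
    refine Finset.sum_congr rfl (fun c _ => ?_)
    exact hev.pow_abs _
  calc ∑ a ∈ Ico A (A + X), ∑ b ∈ Ico B (B + Y), (gdev Z s α β K a b) ^ (2 * q)
      ≤ ∑ a ∈ Ico A (A + X), ∑ b ∈ Ico B (B + Y), (s : ℝ) ^ (2 * q - 1) *
      ∑ c ∈ range s, (∑ k ∈ (range K).filter (fun k => k % s = c),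
        gcen Z s α β k (a : ZMod (winMod s k)) (b : ZMod (winMod s k))) ^ (2 * q) :=
        Finset.sum_le_sum (fun a _ => Finset.sum_le_sum (fun b _ => hpm a b))
    _ = (s : ℝ) ^ (2 * q - 1) * ∑ c ∈ range s, ∑ a ∈ Ico A (A + X), ∑ b ∈ Ico B (B + Y),
        (∑ k ∈ (range K).filter (fun k => k % s = c),
        gcen Z s α β k (a : ZMod (winMod s k)) (b : ZMod (winMod s k))) ^ (2 * q) := by
        simp only [← Finset.mul_sum]
        congr 1
        rw [Finset.sum_comm]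
        conv_lhs => arg 2; ext b; rw [Finset.sum_comm]
        rw [Finset.sum_comm]
        refine Finset.sum_congr rfl (fun t _ => ?_)
        rw [Finset.sum_comm]
    _ ≤ (s : ℝ) ^ (2 * q - 1) * ∑ c ∈ range s,
        ((q : ℝ) ^ (2 * q) * (K : ℝ) ^ q * ((X : ℝ) * Y) +
        (K : ℝ) ^ (2 * q) * ((P : ℝ) ^ (2 * q * s) * ((X : ℝ) + Y))) :=
        mul_le_mul_of_nonneg_left (Finset.sum_le_sum hmom) (by positivity)
    _ = (s : ℝ) ^ (2 * q) * ((q : ℝ) ^ (2 * q) * (K : ℝ) ^ q * ((X : ℝ) * Y) +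
        (K : ℝ) ^ (2 * q) * ((P : ℝ) ^ (2 * q * s) * ((X : ℝ) + Y))) := by
        rw [Finset.sum_const, Finset.card_range, nsmul_eq_mul, ← mul_assoc]
        congr 1
        obtain ⟨n, hn⟩ : ∃ n, 2 * q = n + 1 := ⟨2 * q - 1, by omega⟩
        rw [hn, Nat.add_sub_cancel, pow_succ]

open Classical in
/-- All values occurring at the first `n` primes. -/
noncomputable def gvals (Y : LocFun) (n : ℕ) : Finset ℝ := (range n).biUnion fun j =>
  (univ : Finset (ZMod (Nat.nth Nat.Prime j) × ZMod (Nat.nth Nat.Prime j))).image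
    fun w => Y j w.1 w.2

lemma mem_gvals (Y : LocFun) {n j : ℕ} (hj : j < n) (u v : ZMod (Nat.nth Nat.Prime j)) :
    Y j u v ∈ gvals Y n := by
  classical
  unfold gvals
  rw [Finset.mem_biUnion]
  exact ⟨j, Finset.mem_range.mpr hj, Finset.mem_image.mpr ⟨(u, v), Finset.mem_univ _, rfl⟩⟩

lemma gvals_le_one (Y : LocFun) (hY : ∀ k u v, Y k u v ≤ 1) {n : ℕ} {x : ℝ}
    (hx : x ∈ gvals Y n) : x ≤ 1 := by
  classical
  unfold gvals at hx
  rw [Finset.mem_biUnion] at hx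
  obtain ⟨j, -, hj⟩ := hx
  rw [Finset.mem_image] at hj
  obtain ⟨w, -, rfl⟩ := hj
  exact hY _ _ _

lemma card_gvals (Y : LocFun) (n P : ℕ) (hP : ∀ j < n, Nat.nth Nat.Prime j ≤ P) :
    (gvals Y n).card ≤ n * P ^ 2 := by
  classical
  unfold gvals
  refine Finset.card_biUnion_le.trans ?_
  have h : ∀ j ∈ range n, ((univ : Finset (ZMod (Nat.nth Nat.Prime j) ×
      ZMod (Nat.nth Nat.Prime j))).image
      fun w => Y j w.1 w.2).card ≤ P ^ 2 := by
    intro j hj
    refine Finset.card_image_le.trans ?_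
    rw [Finset.card_univ, Fintype.card_prod, ZMod.card]
    have := hP j (Finset.mem_range.mp hj)
    nlinarith
  refine (Finset.sum_le_sum h).trans ?_
  simp

lemma gind_rnd (Y : LocFun) (hY : ∀ k u v, Y k u v ≤ 1) {n j : ℕ} (hj : j < n) (α β : ℝ)
    (u v : ZMod (Nat.nth Nat.Prime j)) :
    gind Y j (rnd (gvals Y n) α) (rnd (gvals Y n) β) u v = gind Y j α β u v := by
  unfold gind
  have h1 := rnd_le_iff (gvals Y n) (fun v hv => gvals_le_one Y hY hv) α (mem_gvals Y hj u v)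
  have h2 := rnd_le_iff (gvals Y n) (fun v hv => gvals_le_one Y hY hv) β (mem_gvals Y hj u v)
  have h3 : Y j u v ∈ Set.Ico (rnd (gvals Y n) α) (rnd (gvals Y n) β) ↔
      Y j u v ∈ Set.Ico α β := by
    rw [Set.mem_Ico, Set.mem_Ico, h1, ← not_le, ← not_le, h2]
  simp only [h3]

lemma glaw_rnd (Y : LocFun) (hY : ∀ k u v, Y k u v ≤ 1) {n j : ℕ} (hj : j < n) (α β : ℝ) :
    glaw Y j (Set.Ico (rnd (gvals Y n) α) (rnd (gvals Y n) β)) = glaw Y j (Set.Ico α β) := by
  have h0 : (Nat.nth Nat.Prime j : ℝ) ^ 2 ≠ 0 := by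
    have : (Nat.nth Nat.Prime j : ℝ) ≠ 0 := by exact_mod_cast (NeZero.ne _)
    positivity
  apply mul_left_cancel₀ h0
  rw [← sum_gind, ← sum_gind]
  simp only [gind_rnd Y hY hj]

lemma gdev_int (Y : LocFun) (s : ℕ) (α β : Fin s → ℝ) (K : ℕ) (a b : ℤ) :
    gdev Y s α β K a b = ∑ k ∈ range K, (∏ i : Fin s, gind Y (k + i) (α i) (β i) a b -
      ∏ i : Fin s, glaw Y (k + i) (Set.Ico (α i) (β i))) := by
  unfold gdev gcen
  simp only [winFun_int]

lemma gdev_rnd (Y : LocFun) (hY : ∀ k u v, Y k u v ≤ 1) (s : ℕ) (α β : Fin s → ℝ) (K : ℕ)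
    (a b : ℤ) :
    gdev Y s (fun i => rnd (gvals Y (K + s)) (α i)) (fun i => rnd (gvals Y (K + s)) (β i)) K a b =
      gdev Y s α β K a b := by
  rw [gdev_int, gdev_int]
  refine Finset.sum_congr rfl (fun k hk => ?_)
  rw [Finset.mem_range] at hk
  congr 1
  · refine Finset.prod_congr rfl (fun i _ => ?_)
    have := i.2
    exact gind_rnd Y hY (by omega) _ _ _ _
  · refine Finset.prod_congr rfl (fun i _ => ?_)
    have := i.2
    exact glaw_rnd Y hY (by omega) _ _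

open Classical in
/-- Union bound over all boxes. -/
theorem gcard_bad (Z : LocFun) (hZ : ∀ k u v, Z k u v ≤ 1) (s : ℕ) (hs : 1 ≤ s) (K P q : ℕ)
    (hq : 1 ≤ q)
    (hP : ∀ j < K + s, Nat.nth Nat.Prime j ≤ P) (A B : ℤ) (X Y : ℕ) (l : ℝ) (hl : 0 < l) :
    (((curveBox A B X Y).filter
      (fun w => ∃ α β : Fin s → ℝ, l < |gdev Z s α β K w.1 w.2|)).card : ℝ) *
      l ^ (2 * q) ≤ (((K + s) * P ^ 2 + 1 : ℕ) : ℝ) ^ (2 * s) *
      ((s : ℝ) ^ (2 * q) * ((q : ℝ) ^ (2 * q) * (K : ℝ) ^ q * ((X : ℝ) * Y) +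
        (K : ℝ) ^ (2 * q) * ((P : ℝ) ^ (2 * q * s) * ((X : ℝ) + Y)))) := by
  set V' := insert 2 (gvals Z (K + s)) with hV'
  set Pi := Fintype.piFinset (fun _ : Fin s => V') with hPi
  set M := (s : ℝ) ^ (2 * q) * ((q : ℝ) ^ (2 * q) * (K : ℝ) ^ q * ((X : ℝ) * Y) +
        (K : ℝ) ^ (2 * q) * ((P : ℝ) ^ (2 * q * s) * ((X : ℝ) + Y))) with hM
  have hM0 : 0 ≤ M := by positivity
  have hsub : (curveBox A B X Y).filter
      (fun w => ∃ α β : Fin s → ℝ, l < |gdev Z s α β K w.1 w.2|) ⊆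
      (Pi ×ˢ Pi).biUnion (fun ab => (curveBox A B X Y).filter
        (fun w => l < |gdev Z s ab.1 ab.2 K w.1 w.2|)) := by
    intro w hw
    rw [Finset.mem_filter] at hw
    obtain ⟨hw1, α, β, hab⟩ := hw
    rw [Finset.mem_biUnion]
    refine ⟨(fun i => rnd (gvals Z (K + s)) (α i), fun i => rnd (gvals Z (K + s)) (β i)), ?_, ?_⟩
    · rw [Finset.mem_product, hPi, Fintype.mem_piFinset, Fintype.mem_piFinset]
      exact ⟨fun i => rnd_mem _ _, fun i => rnd_mem _ _⟩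
    · rw [Finset.mem_filter]
      refine ⟨hw1, ?_⟩
      rw [gdev_rnd Z hZ]
      exact hab
  have hone : ∀ ab ∈ Pi ×ˢ Pi, (((curveBox A B X Y).filter
      (fun w => l < |gdev Z s ab.1 ab.2 K w.1 w.2|)).card : ℝ) * l ^ (2 * q) ≤ M := by
    intro ab _
    have h1 := gdev_moment Z s hs ab.1 ab.2 K P q hq hP A B X Y
    refine le_trans ?_ h1
    rw [← Finset.sum_product' (Ico A (A + X)) (Ico B (B + Y))
      (fun a b => (gdev Z s ab.1 ab.2 K a b) ^ (2 * q))]
    change _ ≤ ∑ x ∈ curveBox A B X Y, (gdev Z s ab.1 ab.2 K x.1 x.2) ^ (2 * q)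
    calc (((curveBox A B X Y).filter
      (fun w => l < |gdev Z s ab.1 ab.2 K w.1 w.2|)).card : ℝ) * l ^ (2 * q)
        = ∑ x ∈ (curveBox A B X Y).filter
          (fun w => l < |gdev Z s ab.1 ab.2 K w.1 w.2|), l ^ (2 * q) := by
          rw [Finset.sum_const, nsmul_eq_mul]
      _ ≤ ∑ x ∈ (curveBox A B X Y).filter
          (fun w => l < |gdev Z s ab.1 ab.2 K w.1 w.2|),
            (gdev Z s ab.1 ab.2 K x.1 x.2) ^ (2 * q) := by
          refine Finset.sum_le_sum (fun x hx => ?_)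
          rw [Finset.mem_filter] at hx
          rw [← (even_two_mul q).pow_abs (gdev Z s ab.1 ab.2 K x.1 x.2)]
          exact pow_le_pow_left₀ hl.le hx.2.le _
      _ ≤ ∑ x ∈ curveBox A B X Y, (gdev Z s ab.1 ab.2 K x.1 x.2) ^ (2 * q) := by
          refine Finset.sum_le_sum_of_subset_of_nonneg (Finset.filter_subset _ _) ?_
          intro x _ _
          exact (even_two_mul q).pow_nonneg _
  have hcV : V'.card ≤ (K + s) * P ^ 2 + 1 := by
    rw [hV']
    exact (Finset.card_insert_le _ _).trans (Nat.add_le_add_right (card_gvals Z _ _ hP) 1)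
  have hcPi : (Pi ×ˢ Pi).card ≤ ((K + s) * P ^ 2 + 1) ^ (2 * s) := by
    rw [Finset.card_product, hPi, Fintype.card_piFinset_const, ← pow_add, ← two_mul]
    exact Nat.pow_le_pow_left hcV _
  calc (((curveBox A B X Y).filter (fun w => ∃ α β : Fin s → ℝ,
        l < |gdev Z s α β K w.1 w.2|)).card : ℝ) * l ^ (2 * q)
      ≤ (∑ ab ∈ Pi ×ˢ Pi, (((curveBox A B X Y).filter
        (fun w => l < |gdev Z s ab.1 ab.2 K w.1 w.2|)).card : ℝ)) * l ^ (2 * q) := by
        refine mul_le_mul_of_nonneg_right ?_ (by positivity)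
        exact_mod_cast (Finset.card_le_card hsub).trans Finset.card_biUnion_le
    _ = ∑ ab ∈ Pi ×ˢ Pi, (((curveBox A B X Y).filter
        (fun w => l < |gdev Z s ab.1 ab.2 K w.1 w.2|)).card : ℝ) * l ^ (2 * q) := by
        rw [Finset.sum_mul]
    _ ≤ ∑ ab ∈ Pi ×ˢ Pi, M := Finset.sum_le_sum hone
    _ = ((Pi ×ˢ Pi).card : ℝ) * M := by rw [Finset.sum_const, nsmul_eq_mul]
    _ ≤ (((K + s) * P ^ 2 + 1 : ℕ) : ℝ) ^ (2 * s) * M := by
        refine mul_le_mul_of_nonneg_right ?_ hM0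
        exact_mod_cast hcPi

lemma gdev_abs_le (Z : LocFun) (s : ℕ) (α β : Fin s → ℝ) (K : ℕ) (a b : ℤ) :
    |gdev Z s α β K a b| ≤ K := by
  unfold gdev
  refine (Finset.abs_sum_le_sum_abs _ _).trans
    ((Finset.sum_le_sum (fun k _ => gcen_abs Z s α β k _ _)).trans ?_)
  simp

open Classical in
/-- For each `s`, `ε`, `η` there is `C` such that for every family of local functions bounded by
`1`, in every box all but a proportion `η` of the pairs have deviations at most `C K^(1/2+ε)` for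
all `K` with `K^C` at most the sides of the box. -/
theorem gdev_all (s : ℕ) (hs : 1 ≤ s) (ε η : ℝ) (hε : 0 < ε) (hη : 0 < η) :
    ∃ C : ℝ, 0 < C ∧ ∀ (Z : LocFun), (∀ k u v, Z k u v ≤ 1) → ∀ (A B : ℤ) (X Y : ℕ),
      (((curveBox A B X Y).filter (fun w => ¬ ∀ K : ℕ, 1 ≤ K → (K : ℝ) ^ C ≤ min (X : ℝ) Y →
        ∀ α β : Fin s → ℝ, |gdev Z s α β K w.1 w.2| ≤ C * (K : ℝ) ^ (1 / 2 + ε))).card : ℝ) ≤
        η * (X * Y) := by
  set q : ℕ := ⌈(10 * s + 2 : ℝ) / (2 * ε)⌉₊ + 1 with hq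
  have hq1 : 1 ≤ q := by omega
  have hqε : (10 * s + 2 : ℝ) ≤ 2 * q * ε := by
    have h1 : (10 * s + 2 : ℝ) / (2 * ε) ≤ q := by
      rw [hq]; push_cast
      linarith [Nat.le_ceil ((10 * s + 2 : ℝ) / (2 * ε))]
    rw [div_le_iff₀ (by positivity)] at h1
    linarith
  set c3 : ℝ := ((2 * (s + 1) * (45 * (s + 1) ^ 2) ^ 2 : ℝ) ^ (2 * s) * ((s : ℝ) ^ (2 * q) *
        ((q : ℝ) ^ (2 * q) + 2 * (45 * (s + 1) ^ 2 : ℝ) ^ (2 * q * s)))) with hc3
  have hc30 : 0 ≤ c3 := by positivity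
  set K0 : ℕ := ⌈2 * c3 / η⌉₊ + 1 with hK0
  have hK01 : 1 ≤ K0 := by omega
  have hK0η : c3 * (2 / (K0 : ℝ)) ≤ η := by
    have h1 : 2 * c3 / η ≤ K0 := by
      rw [hK0]; push_cast
      linarith [Nat.le_ceil (2 * c3 / η)]
    have hK0R : (0 : ℝ) < K0 := by exact_mod_cast hK01
    rw [div_le_iff₀ hη] at h1
    rw [← mul_div_assoc, div_le_iff₀ hK0R]
    linarith
  set D : ℕ := q + 4 * q * s + 1 with hD
  set C : ℝ := max (D : ℝ) (K0 : ℝ) with hC
  have hCD : (D : ℝ) ≤ C := le_max_left _ _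
  have hCK0 : (K0 : ℝ) ≤ C := le_max_right _ _
  have hC1 : 1 ≤ C := by
    have : (1 : ℝ) ≤ K0 := by exact_mod_cast hK01
    linarith
  have hC0 : 0 < C := by linarith
  refine ⟨C, hC0, fun Z hZ A B X Y => ?_⟩
  set n := min X Y with hn
  set BK : ℕ → Finset (ℤ × ℤ) := fun K => (curveBox A B X Y).filter
    (fun w => ∃ α β : Fin s → ℝ, (K : ℝ) ^ (1 / 2 + ε) < |gdev Z s α β K w.1 w.2|) with hBK
  set R := (Ioo (K0 - 1) (n + 1)).filter (fun K => K ^ D ≤ n) with hR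
  have hBKbound : ∀ K ∈ R, ((BK K).card : ℝ) ≤ c3 * (X * Y) * ((K : ℝ) ^ 2)⁻¹ := by
    intro K hK
    rw [hR, Finset.mem_filter, Finset.mem_Ioo] at hK
    obtain ⟨⟨hK1, hK2⟩, hKD⟩ := hK
    have hK1' : 1 ≤ K := by omega
    have hKR : (1 : ℝ) ≤ K := by exact_mod_cast hK1'
    have hl : (0 : ℝ) < (K : ℝ) ^ (1 / 2 + ε) := Real.rpow_pos_of_pos (by linarith) _
    have h1 := gcard_bad Z hZ s hs K (45 * (K + s) ^ 2) q hq1
      (fun j hj => nth_prime_le_sq (K + s) j (by omega) hj) A B X Y _ hl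
    have hmin : K ^ (q + 4 * q * s) ≤ min X Y := by
      refine le_trans ?_ hKD
      exact Nat.pow_le_pow_right hK1' (by omega)
    have h2 := constants s q K X Y hK1' hmin
    have h3 : (K : ℝ) ^ (q + 10 * s + 2) ≤ ((K : ℝ) ^ (1 / 2 + ε)) ^ (2 * q) := by
      rw [← Real.rpow_natCast, ← Real.rpow_natCast, ← Real.rpow_mul (by linarith)]
      apply Real.rpow_le_rpow_of_exponent_le hKR
      push_cast
      linarith
    have h4 : ((BK K).card : ℝ) * (K : ℝ) ^ (q + 10 * s + 2) ≤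
        c3 * (K : ℝ) ^ (10 * s + q) * ((X : ℝ) * Y) := by
      calc ((BK K).card : ℝ) * (K : ℝ) ^ (q + 10 * s + 2)
          ≤ ((BK K).card : ℝ) * ((K : ℝ) ^ (1 / 2 + ε)) ^ (2 * q) :=
            mul_le_mul_of_nonneg_left h3 (Nat.cast_nonneg _)
        _ ≤ _ := h1.trans h2
    have h5 : (K : ℝ) ^ (q + 10 * s + 2) = (K : ℝ) ^ (10 * s + q) * (K : ℝ) ^ 2 := by
      rw [← pow_add]; congr 1; ring
    have h6 : (0 : ℝ) < (K : ℝ) ^ (10 * s + q) := by positivity
    have h7 : (0 : ℝ) < (K : ℝ) ^ 2 := by positivity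
    rw [h5] at h4
    rw [← div_eq_mul_inv, le_div_iff₀ h7]
    have h8 : (K : ℝ) ^ (10 * s + q) * (((BK K).card : ℝ) * (K : ℝ) ^ 2) ≤
        (K : ℝ) ^ (10 * s + q) * (c3 * (X * Y)) := by linarith
    exact le_of_mul_le_mul_left h8 h6
  have hsub : (curveBox A B X Y).filter (fun w => ¬ ∀ K : ℕ, 1 ≤ K →
      (K : ℝ) ^ C ≤ min (X : ℝ) Y → ∀ α β : Fin s → ℝ,
      |gdev Z s α β K w.1 w.2| ≤ C * (K : ℝ) ^ (1 / 2 + ε)) ⊆ R.biUnion BK := by
    intro w hw
    rw [Finset.mem_filter] at hw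
    obtain ⟨hwbox, hnot⟩ := hw
    push Not at hnot
    obtain ⟨K, hK1, hKC, α, β, hlt⟩ := hnot
    have hKR : (1 : ℝ) ≤ K := by exact_mod_cast hK1
    have hKpos : (0 : ℝ) < K := by linarith
    have hpowpos : (0 : ℝ) < (K : ℝ) ^ (1 / 2 + ε) := Real.rpow_pos_of_pos hKpos _
    have hpow1 : (1 : ℝ) ≤ (K : ℝ) ^ (1 / 2 + ε) := Real.one_le_rpow hKR (by linarith)
    have hKK0 : K0 ≤ K := by
      by_contra hlt2
      push Not at hlt2
      have h1 := gdev_abs_le Z s α β K w.1 w.2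
      have h2 : (K : ℝ) ≤ K0 := by exact_mod_cast hlt2.le
      have h3 : C * 1 ≤ C * (K : ℝ) ^ (1 / 2 + ε) := mul_le_mul_of_nonneg_left hpow1 hC0.le
      linarith
    have hKD : K ^ D ≤ n := by
      have h1 : (K : ℝ) ^ (D : ℝ) ≤ (K : ℝ) ^ C :=
        Real.rpow_le_rpow_of_exponent_le hKR hCD
      rw [Real.rpow_natCast] at h1
      have h2 : ((K ^ D : ℕ) : ℝ) ≤ ((min X Y : ℕ) : ℝ) := by
        push_cast; exact h1.trans hKC
      exact_mod_cast h2
    have hKn : K ≤ n := by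
      refine le_trans ?_ hKD
      calc K = K ^ 1 := (pow_one K).symm
        _ ≤ K ^ D := Nat.pow_le_pow_right hK1 (by omega)
    have hKR' : K ∈ R := by
      rw [hR, Finset.mem_filter, Finset.mem_Ioo]
      exact ⟨⟨by omega, by omega⟩, hKD⟩
    rw [Finset.mem_biUnion]
    refine ⟨K, hKR', ?_⟩
    rw [hBK]
    refine Finset.mem_filter.mpr ⟨hwbox, α, β, ?_⟩
    have h3 : 1 * (K : ℝ) ^ (1 / 2 + ε) ≤ C * (K : ℝ) ^ (1 / 2 + ε) :=
      mul_le_mul_of_nonneg_right hC1 hpowpos.le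
    linarith
  have hsum : ∑ K ∈ R, ((BK K).card : ℝ) ≤ c3 * (2 / K0) * (X * Y) := by
    refine (Finset.sum_le_sum hBKbound).trans ?_
    rw [← Finset.mul_sum]
    have h3 : ∑ K ∈ R, ((K : ℝ) ^ 2)⁻¹ ≤ ∑ K ∈ Ioo (K0 - 1) (n + 1), ((K : ℝ) ^ 2)⁻¹ :=
      Finset.sum_le_sum_of_subset_of_nonneg (Finset.filter_subset _ _)
        (fun _ _ _ => by positivity)
    have h4 := sum_Ioo_inv_sq_le (α := ℝ) (K0 - 1) (n + 1)
    have h5 : ((K0 - 1 : ℕ) : ℝ) + 1 = K0 := by
      rw [Nat.cast_sub hK01]; push_cast; ring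
    rw [h5] at h4
    calc c3 * ((X : ℝ) * Y) * ∑ K ∈ R, ((K : ℝ) ^ 2)⁻¹
        ≤ c3 * ((X : ℝ) * Y) * (2 / K0) :=
          mul_le_mul_of_nonneg_left (h3.trans h4) (by positivity)
      _ = _ := by ring
  calc (((curveBox A B X Y).filter (fun w => ¬ ∀ K : ℕ, 1 ≤ K → (K : ℝ) ^ C ≤ min (X : ℝ) Y →
        ∀ α β : Fin s → ℝ, |gdev Z s α β K w.1 w.2| ≤ C * (K : ℝ) ^ (1 / 2 + ε))).card : ℝ)
      ≤ ((R.biUnion BK).card : ℝ) := by exact_mod_cast Finset.card_le_card hsub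
    _ ≤ ∑ K ∈ R, ((BK K).card : ℝ) := by exact_mod_cast Finset.card_biUnion_le
    _ ≤ c3 * (2 / K0) * (X * Y) := hsum
    _ ≤ η * (X * Y) := mul_le_mul_of_nonneg_right hK0η (by positivity)

end Pool.Agent.H11.STA
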