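import Mathlib
import Pool.Agent.H11.STA.Moment

/-!
# Periodic functions of two integers and their mean values
-/

namespace Pool.Agent.H11.STA

open Finset

/-- `F` is periodic modulo `m` in both variables, with mean value `μ`. -/
def HasMean (F : ℤ → ℤ → ℝ) (m : ℕ) (μ : ℝ) : Prop :=
  ∃ (_ : NeZero m) (f : ZMod m → ZMod m → ℝ), (∀ a b : ℤ, F a b = f a b) ∧
    ∑ u, ∑ v, f u v = (m : ℝ) ^ 2 * μ

/-- Sums over residues modulo a product of coprime moduli. -/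
lemma sum_coprime_mul' (m n : ℕ) [NeZero m] [NeZero n] (hmn : m.Coprime n)
    (f : ZMod m → ZMod m → ℝ) (h : ZMod n → ZMod n → ℝ) :
    haveI : NeZero (m * n) := ⟨mul_ne_zero (NeZero.ne m) (NeZero.ne n)⟩
    ∑ u : ZMod (m * n), ∑ v : ZMod (m * n),
      f (ZMod.chineseRemainder hmn u).1 (ZMod.chineseRemainder hmn v).1 *
      h (ZMod.chineseRemainder hmn u).2 (ZMod.chineseRemainder hmn v).2 =
      (∑ u, ∑ v, f u v) * ∑ u, ∑ v, h u v := by
  haveI : NeZero (m * n) := ⟨mul_ne_zero (NeZero.ne m) (NeZero.ne n)⟩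
  set e := (ZMod.chineseRemainder hmn).toEquiv with he
  have h1 : ∀ g : ZMod m × ZMod n → ZMod m × ZMod n → ℝ,
      ∑ u : ZMod (m * n), ∑ v : ZMod (m * n), g (e u) (e v) = ∑ x, ∑ y, g x y := by
    intro g
    rw [← Equiv.sum_comp e]
    refine Finset.sum_congr rfl (fun u _ => ?_)
    rw [← Equiv.sum_comp e]
  have h2 := h1 (fun x y => f x.1 y.1 * h x.2 y.2)
  refine h2.trans ?_
  simp only [Fintype.sum_prod_type]
  have h3 : ∀ u : ZMod m, ∑ u' : ZMod n, ∑ v : ZMod m, ∑ v' : ZMod n, f u v * h u' v' =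
      (∑ v, f u v) * ∑ u', ∑ v', h u' v' := by
    intro u
    rw [Finset.sum_mul_sum, Finset.sum_comm]
    refine Finset.sum_congr rfl (fun v _ => ?_)
    refine Finset.sum_congr rfl (fun u' _ => ?_)
    rw [Finset.mul_sum]
  simp only [h3]
  rw [← Finset.sum_mul]

lemma HasMean.mul {F G : ℤ → ℤ → ℝ} {m n : ℕ} {μ ν : ℝ} (hF : HasMean F m μ)
    (hG : HasMean G n ν) (hmn : m.Coprime n) :
    HasMean (fun a b => F a b * G a b) (m * n) (μ * ν) := by
  obtain ⟨hm, f, hf, hfs⟩ := hF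
  obtain ⟨hn, g, hg, hgs⟩ := hG
  haveI : NeZero (m * n) := ⟨mul_ne_zero (NeZero.ne m) (NeZero.ne n)⟩
  refine ⟨this, fun u v => f (ZMod.chineseRemainder hmn u).1 (ZMod.chineseRemainder hmn v).1 *
      g (ZMod.chineseRemainder hmn u).2 (ZMod.chineseRemainder hmn v).2, ?_, ?_⟩
  · intro a b
    simp only [map_intCast, Prod.fst_intCast, Prod.snd_intCast, hf, hg]
  · rw [sum_coprime_mul' m n hmn f g, hfs, hgs]
    push_cast
    ring

lemma HasMean.add {F G : ℤ → ℤ → ℝ} {m : ℕ} {μ ν : ℝ} (hF : HasMean F m μ)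
    (hG : HasMean G m ν) : HasMean (fun a b => F a b + G a b) m (μ + ν) := by
  obtain ⟨hm, f, hf, hfs⟩ := hF
  obtain ⟨_, g, hg, hgs⟩ := hG
  refine ⟨hm, fun u v => f u v + g u v, fun a b => by simp only [hf, hg], ?_⟩
  simp only [Finset.sum_add_distrib]
  rw [hfs, hgs]
  ring

lemma HasMean.smul {F : ℤ → ℤ → ℝ} {m : ℕ} {μ : ℝ} (c : ℝ) (hF : HasMean F m μ) :
    HasMean (fun a b => c * F a b) m (c * μ) := by
  obtain ⟨hm, f, hf, hfs⟩ := hF
  refine ⟨hm, fun u v => c * f u v, fun a b => by simp only [hf], ?_⟩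
  simp only [← Finset.mul_sum]
  rw [hfs]
  ring

lemma HasMean.const (c : ℝ) {m : ℕ} (hm : m ≠ 0) : HasMean (fun _ _ => c) m c := by
  haveI : NeZero m := ⟨hm⟩
  refine ⟨this, fun _ _ => c, fun _ _ => rfl, ?_⟩
  simp only [Finset.sum_const, Finset.card_univ, ZMod.card, nsmul_eq_mul]
  ring

lemma HasMean.ne_zero {F : ℤ → ℤ → ℝ} {m : ℕ} {μ : ℝ} (hF : HasMean F m μ) : m ≠ 0 := by
  obtain ⟨hm, -⟩ := hF
  exact NeZero.ne m

lemma HasMean.congr {F G : ℤ → ℤ → ℝ} {m : ℕ} {μ : ℝ} (hF : HasMean F m μ)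
    (h : ∀ a b, G a b = F a b) : HasMean G m μ := by
  obtain ⟨hm, f, hf, hfs⟩ := hF
  exact ⟨hm, f, fun a b => (h a b).trans (hf a b), hfs⟩

lemma HasMean.mono {F G : ℤ → ℤ → ℝ} {m : ℕ} {μ ν : ℝ} (hF : HasMean F m μ)
    (hG : HasMean G m ν) (h : ∀ a b, F a b ≤ G a b) : μ ≤ ν := by
  obtain ⟨hm, f, hf, hfs⟩ := hF
  obtain ⟨_, g, hg, hgs⟩ := hG
  have h1 : ∑ u, ∑ v, f u v ≤ ∑ u, ∑ v, g u v := by
    refine Finset.sum_le_sum (fun u _ => Finset.sum_le_sum (fun v _ => ?_))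
    obtain ⟨a, rfl⟩ := ZMod.intCast_surjective u
    obtain ⟨b, rfl⟩ := ZMod.intCast_surjective v
    rw [← hf, ← hg]
    exact h a b
  rw [hfs, hgs] at h1
  have hm0 : (0 : ℝ) < (m : ℝ) ^ 2 := by
    have : (0 : ℝ) < m := by exact_mod_cast NeZero.pos m
    positivity
  exact le_of_mul_le_mul_left h1 hm0

lemma HasMean.comp {F : ℤ → ℤ → ℝ} {m : ℕ} {μ : ℝ} (g : ℝ → ℝ) (hF : HasMean F m μ) :
    ∃ ν, HasMean (fun a b => g (F a b)) m ν := by
  obtain ⟨hm, f, hf, hfs⟩ := hF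
  have hm0 : (m : ℝ) ^ 2 ≠ 0 := by
    have : (0 : ℝ) < m := by exact_mod_cast NeZero.pos m
    positivity
  refine ⟨(∑ u, ∑ v, g (f u v)) / (m : ℝ) ^ 2, hm, fun u v => g (f u v),
    fun a b => by simp only [hf], ?_⟩
  rw [mul_div_cancel₀ _ hm0]

lemma HasMean.lift {F : ℤ → ℤ → ℝ} {m n : ℕ} {μ : ℝ} (hF : HasMean F m μ) (hn : n ≠ 0)
    (hmn : m.Coprime n) : HasMean F (m * n) μ := by
  have h := hF.mul (HasMean.const 1 hn) hmn
  rw [mul_one] at h
  exact h.congr (fun a b => (mul_one _).symm)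

lemma HasMean.lift' {F : ℤ → ℤ → ℝ} {m n : ℕ} {μ : ℝ} (hF : HasMean F m μ) (hn : n ≠ 0)
    (hmn : n.Coprime m) : HasMean F (n * m) μ := by
  have h := (HasMean.const 1 hn).mul hF hmn
  rw [one_mul] at h
  exact h.congr (fun a b => (one_mul _).symm)

/-- Products of periodic functions with pairwise coprime periods. -/
lemma HasMean.prod {ι : Type*} [DecidableEq ι] (S : Finset ι) (F : ι → ℤ → ℤ → ℝ) (m : ι → ℕ)
    (μ : ι → ℝ) (h : ∀ i ∈ S, HasMean (F i) (m i) (μ i))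
    (hcop : ∀ i ∈ S, ∀ j ∈ S, i ≠ j → (m i).Coprime (m j)) :
    HasMean (fun a b => ∏ i ∈ S, F i a b) (∏ i ∈ S, m i) (∏ i ∈ S, μ i) := by
  induction S using Finset.induction_on with
  | empty => simpa using HasMean.const 1 one_ne_zero
  | insert i S hi ih =>
    have h1 := h i (Finset.mem_insert_self _ _)
    have h2 := ih (fun j hj => h j (Finset.mem_insert_of_mem hj))
      (fun j hj k hk => hcop j (Finset.mem_insert_of_mem hj) k (Finset.mem_insert_of_mem hk))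
    have hc : (m i).Coprime (∏ j ∈ S, m j) := by
      refine Nat.Coprime.prod_right (fun j hj => hcop i (Finset.mem_insert_self _ _) j
        (Finset.mem_insert_of_mem hj) ?_)
      rintro rfl; exact hi hj
    rw [Finset.prod_insert hi, Finset.prod_insert hi]
    refine (h1.mul h2 hc).congr (fun a b => ?_)
    rw [Finset.prod_insert hi]

/-- The sum over a box of a periodic function with values in `[0,1]`. -/
lemma HasMean.box {F : ℤ → ℤ → ℝ} {m : ℕ} {μ : ℝ} (hF : HasMean F m μ)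
    (h0 : ∀ a b, 0 ≤ F a b) (h1 : ∀ a b, F a b ≤ 1) (A B : ℤ) (X Y : ℕ) :
    ∑ a ∈ Ico A (A + X), ∑ b ∈ Ico B (B + Y), F a b ≤ μ * (X * Y) + m * ((X : ℝ) + Y) := by
  have hμ0 : 0 ≤ μ := (HasMean.const 0 hF.ne_zero).mono hF (fun a b => h0 a b)
  have hμ1 : μ ≤ 1 := hF.mono (HasMean.const 1 hF.ne_zero) (fun a b => h1 a b)
  obtain ⟨hm, f, hf, hfs⟩ := hF
  have hG : ∀ u v, |f u v - μ| ≤ 1 := by
    intro u v
    obtain ⟨a, rfl⟩ := ZMod.intCast_surjective u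
    obtain ⟨b, rfl⟩ := ZMod.intCast_surjective v
    rw [← hf, abs_le]
    constructor <;> linarith [h0 a b, h1 a b]
  have hG0 : ∑ u, ∑ v, (f u v - μ) = 0 := by
    simp only [Finset.sum_sub_distrib, Finset.sum_const, Finset.card_univ, ZMod.card,
      nsmul_eq_mul]
    rw [hfs]; ring
  have h := box_sum m (fun u v => f u v - μ) hG hG0 A B X Y
  have h2 : ∑ a ∈ Ico A (A + X), ∑ b ∈ Ico B (B + Y), (f a b - μ) =
      ∑ a ∈ Ico A (A + X), ∑ b ∈ Ico B (B + Y), F a b - μ * (X * Y) := by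
    simp only [Finset.sum_sub_distrib, Finset.sum_const, Int.card_Ico, nsmul_eq_mul, hf]
    simp
    ring
  rw [h2] at h
  have := (abs_le.mp h).2
  linarith

end Pool.Agent.H11.STA
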