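import Mathlib
import Pool.Agent.H11.STA.HasMean
import Pool.Agent.H11.STA.Twist
import Pool.Agent.H11.STA.Window
import Pool.Agent.H11.STA.Prime

/-!
# The walk of the signs of the traces
-/

namespace Pool.Agent.H11.STA

open Finset

/-- The sign of `1/2 - x`. -/
noncomputable def sg (x : ℝ) : ℝ := if x < 1 / 2 then 1 else if 1 / 2 < x then -1 else 0

lemma sg_cases (x : ℝ) : sg x = 1 ∨ sg x = -1 ∨ sg x = 0 := by
  unfold sg
  split_ifs
  · exact Or.inl rfl
  · exact Or.inr (Or.inl rfl)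
  · exact Or.inr (Or.inr rfl)

lemma sg_one_sub (x : ℝ) : sg (1 - x) = - sg x := by
  unfold sg
  rcases lt_trichotomy x (1 / 2) with h | h | h
  · rw [if_neg (by linarith), if_pos (by linarith), if_pos h]
  · subst h; norm_num
  · rw [if_pos (by linarith), if_neg (by linarith), if_pos h]; norm_num

lemma sg_cube (x : ℝ) : sg x ^ 3 = sg x := by
  rcases sg_cases x with h | h | h <;> rw [h] <;> norm_num

lemma sg_four (x : ℝ) : sg x ^ 4 = sg x ^ 2 := by
  rcases sg_cases x with h | h | h <;> rw [h] <;> norm_num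

lemma sg_abs (x : ℝ) : |sg x| ≤ 1 := by
  rcases sg_cases x with h | h | h <;> rw [h] <;> norm_num

lemma sg_sq (x : ℝ) : sg x ^ 2 ≤ 1 := by
  rcases sg_cases x with h | h | h <;> rw [h] <;> norm_num

lemma sg_sq_of_ne {x : ℝ} (h : x ≠ 1 / 2) : sg x ^ 2 = 1 := by
  unfold sg
  rcases lt_or_gt_of_ne h with h1 | h1
  · rw [if_pos h1]; norm_num
  · rw [if_neg (by linarith), if_pos h1]; norm_num

/-- The sign of the trace at the `(k+1)`-st prime, as a function of two integers. -/
noncomputable def sgn (k : ℕ) (a b : ℤ) : ℝ := sg (redAngle (Nat.nth Nat.Prime k) a b)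

lemma five_le (k : ℕ) (hk : 2 ≤ k) : 5 ≤ Nat.nth Nat.Prime k := by
  have h1 : Nat.nth Nat.Prime 2 ≤ Nat.nth Nat.Prime k :=
    Nat.nth_monotone Nat.infinite_setOfPred_prime hk
  have h2 : Nat.nth Nat.Prime 2 = 5 := Nat.nth_prime_two_eq_five
  omega

lemma sum_sg {p : ℕ} [Fact p.Prime] (hp : 5 ≤ p) :
    ∑ u : ZMod p, ∑ v : ZMod p, sg (redAngle p u v) = 0 := by
  obtain ⟨d, hd⟩ := quadraticChar_exists_neg_one (ringChar_ne_two (p := p) (by omega))
  have hd0 : d ≠ 0 := by
    rintro rfl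
    simp at hd
  have h1 : ∑ u : ZMod p, ∑ v : ZMod p, sg (redAngle p u v) =
      ∑ u : ZMod p, ∑ v : ZMod p, sg (redAngle p (d ^ 2 * u) (d ^ 3 * v)) := by
    rw [← Equiv.sum_comp (Equiv.mulLeft₀ (d ^ 2) (pow_ne_zero 2 hd0))]
    refine Finset.sum_congr rfl (fun u _ => ?_)
    rw [← Equiv.sum_comp (Equiv.mulLeft₀ (d ^ 3) (pow_ne_zero 3 hd0))]
    rfl
  have h2 : ∀ u v : ZMod p, sg (redAngle p (d ^ 2 * u) (d ^ 3 * v)) = - sg (redAngle p u v) := by
    intro u v
    rw [redAngle_twist (by omega) u v d hd0 hd, sg_one_sub]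
  simp only [h2, Finset.sum_neg_distrib] at h1
  linarith

lemma sum_sg_sq {p : ℕ} [Fact p.Prime] (hp : 5 ≤ p) :
    (p : ℝ) ^ 2 / 4 ≤ ∑ u : ZMod p, ∑ v : ZMod p, sg (redAngle p u v) ^ 2 := by
  classical
  have h1 := card_no_root (p := p)
  have h2 : ((Finset.univ.filter (fun w : ZMod p × ZMod p =>
      ∀ x : ZMod p, x ^ 3 + w.1 * x + w.2 ≠ 0)).card : ℝ) ≤
      ∑ u : ZMod p, ∑ v : ZMod p, sg (redAngle p u v) ^ 2 := by
    rw [Finset.card_filter]
    push_cast
    rw [Fintype.sum_prod_type]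
    refine Finset.sum_le_sum (fun u _ => Finset.sum_le_sum (fun v _ => ?_))
    split_ifs with h
    · rw [sg_sq_of_ne (redAngle_ne_half hp u v h)]
    · positivity
  refine le_trans ?_ (h1.trans h2)
  have h5 : (5 : ℝ) ≤ p := by exact_mod_cast hp
  nlinarith

lemma sgn_mean (k : ℕ) (hk : 2 ≤ k) : HasMean (sgn k) (Nat.nth Nat.Prime k) 0 :=
  ⟨nzPrime k, fun u v => sg (redAngle (Nat.nth Nat.Prime k) u v), fun _ _ => rfl, by
    rw [mul_zero]; exact sum_sg (five_le k hk)⟩

lemma sgn_sq_mean (k : ℕ) (hk : 2 ≤ k) : ∃ w, 1 / 4 ≤ w ∧ w ≤ 1 ∧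
    HasMean (fun a b => sgn k a b ^ 2) (Nat.nth Nat.Prime k) w := by
  obtain ⟨w, hw⟩ := (sgn_mean k hk).comp (fun x => x ^ 2)
  refine ⟨w, ?_, ?_, hw⟩
  · have hm : HasMean (fun a b => sgn k a b ^ 2) (Nat.nth Nat.Prime k)
        ((∑ u : ZMod (Nat.nth Nat.Prime k), ∑ v : ZMod (Nat.nth Nat.Prime k),
          sg (redAngle (Nat.nth Nat.Prime k) u v) ^ 2) / (Nat.nth Nat.Prime k : ℝ) ^ 2) := by
      refine ⟨nzPrime k, fun u v => sg (redAngle (Nat.nth Nat.Prime k) u v) ^ 2,
        fun _ _ => rfl, ?_⟩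
      have hp0 : (Nat.nth Nat.Prime k : ℝ) ^ 2 ≠ 0 := by
        have : (0 : ℝ) < Nat.nth Nat.Prime k := by exact_mod_cast NeZero.pos _
        positivity
      rw [mul_div_cancel₀ _ hp0]
    have h1 := hm.mono hw (fun a b => le_rfl)
    refine le_trans ?_ h1
    have hp0 : (0 : ℝ) < (Nat.nth Nat.Prime k : ℝ) ^ 2 := by
      have : (0 : ℝ) < Nat.nth Nat.Prime k := by exact_mod_cast NeZero.pos _
      positivity
    rw [le_div_iff₀ hp0]
    have := sum_sg_sq (p := Nat.nth Nat.Prime k) (five_le k hk)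
    linarith
  · exact hw.mono (HasMean.const 1 (NeZero.ne _)) (fun a b => sg_sq _)

/-- The modulus of a set of primes. -/
noncomputable def setMod (I : Finset ℕ) : ℕ := ∏ k ∈ I, Nat.nth Nat.Prime k

lemma setMod_ne_zero (I : Finset ℕ) : setMod I ≠ 0 :=
  Finset.prod_ne_zero_iff.mpr (fun _ _ => NeZero.ne _)

lemma setMod_coprime {I J : Finset ℕ} (h : Disjoint I J) : (setMod I).Coprime (setMod J) := by
  refine Nat.Coprime.prod_left (fun i hi => Nat.Coprime.prod_right (fun j hj => nth_coprime ?_))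
  rintro rfl
  exact Finset.disjoint_left.mp h hi hj

/-- The sum of the signs over a set of primes. -/
noncomputable def wsum (I : Finset ℕ) (a b : ℤ) : ℝ := ∑ k ∈ I, sgn k a b

/-- First, second and fourth moments of the sum of the signs. -/
lemma wsum_moments (I : Finset ℕ) (hI : ∀ k ∈ I, 2 ≤ k) :
    ∃ V Q : ℝ, HasMean (wsum I) (setMod I) 0 ∧
      HasMean (fun a b => wsum I a b ^ 2) (setMod I) V ∧
      HasMean (fun a b => wsum I a b ^ 4) (setMod I) Q ∧
      (I.card : ℝ) / 4 ≤ V ∧ V ≤ I.card ∧ Q ≤ 3 * (I.card : ℝ) ^ 2 := by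
  induction I using Finset.induction_on with
  | empty =>
    refine ⟨0, 0, ?_, ?_, ?_, by simp, by simp, by simp⟩
    · exact (HasMean.const 0 (setMod_ne_zero ∅)).congr (fun a b => by simp [wsum])
    · exact (HasMean.const 0 (setMod_ne_zero ∅)).congr (fun a b => by simp [wsum])
    · exact (HasMean.const 0 (setMod_ne_zero ∅)).congr (fun a b => by simp [wsum])
  | insert k I hk ih =>
    obtain ⟨V, Q, h1, h2, h4, hV, hV', hQ⟩ := ih (fun j hj => hI j (Finset.mem_insert_of_mem hj))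
    have hk2 := hI k (Finset.mem_insert_self _ _)
    obtain ⟨w, hw, hw', hsq⟩ := sgn_sq_mean k hk2
    have hs := sgn_mean k hk2
    set p := Nat.nth Nat.Prime k with hp
    have hpne : p ≠ 0 := NeZero.ne _
    have hc : p.Coprime (setMod I) := by
      refine Nat.Coprime.prod_right (fun j hj => nth_coprime ?_)
      rintro rfl
      exact hk hj
    have hmod : setMod (insert k I) = p * setMod I := by
      unfold setMod; rw [Finset.prod_insert hk]
    have hI0 := setMod_ne_zero I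
    have hwsum : ∀ a b, wsum (insert k I) a b = sgn k a b + wsum I a b := by
      intro a b; unfold wsum; rw [Finset.sum_insert hk]
    have hcard : ((insert k I).card : ℝ) = I.card + 1 := by
      rw [Finset.card_insert_of_notMem hk]; push_cast; ring
    obtain ⟨T, hT⟩ := h1.comp (fun x => x ^ 3)
    -- lifts
    have a1 := hs.lift hI0 hc
    have a2 := h1.lift' hpne hc
    have b1 := hsq.lift hI0 hc
    have b2 := (hs.mul h1 hc)
    have b3 := h2.lift' hpne hc
    have c2 := hsq.mul h2 hc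
    have c3 := hs.mul hT hc
    have c4 := h4.lift' hpne hc
    rw [hmod, hcard]
    refine ⟨w + V, w + 6 * (w * V) + Q, ?_, ?_, ?_, by linarith, by linarith, ?_⟩
    · have := a1.add a2
      rw [add_zero] at this
      exact this.congr (fun a b => hwsum a b)
    · have := (b1.add (b2.smul 2)).add b3
      rw [show w + 2 * (0 * 0) + V = w + V by ring] at this
      exact this.congr (fun a b => by rw [hwsum]; ring)
    · have := (((b1.add (b2.smul 4)).add (c2.smul 6)).add (c3.smul 4)).add c4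
      rw [show w + 4 * (0 * 0) + 6 * (w * V) + 4 * (0 * T) + Q = w + 6 * (w * V) + Q by ring]
        at this
      refine this.congr (fun a b => ?_)
      rw [hwsum]
      have e3 : sgn k a b ^ 3 = sgn k a b := sg_cube _
      have e4 : sgn k a b ^ 4 = sgn k a b ^ 2 := sg_four _
      linear_combination e4 + 4 * wsum I a b * e3
    · have hV0 : 0 ≤ V := by
        have : (0 : ℝ) ≤ (I.card : ℝ) := Nat.cast_nonneg _
        linarith
      have : w * V ≤ 1 * I.card := mul_le_mul hw' hV' hV0 (by norm_num)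
      nlinarith

/-- The polynomial inequality behind the lower bound for the probability of a large value. -/
lemma poly_ineq (x : ℝ) : (1 / 26) * (8 / 3 * x + x ^ 2 - x ^ 4 / 48 - 1 / 8) ≤
    if 1 / 22 ≤ x then (1 : ℝ) else 0 := by
  split_ifs with h
  · nlinarith [sq_nonneg (x ^ 2 - 30), sq_nonneg (x - 11 / 2), sq_nonneg (x ^ 2 - 24 - x)]
  · push Not at h
    rcases le_or_gt 0 x with h0 | h0
    · nlinarith [mul_nonneg h0 (sub_nonneg.mpr h.le), pow_nonneg h0 4]
    · nlinarith [sq_nonneg (x ^ 2 - 16), sq_nonneg (x + 4), mul_pos_of_neg_of_neg h0 h0]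

end Pool.Agent.H11.STA
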