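import Mathlib
import Pool.Agent.H11.STA.Prime
import Pool.Agent.H11.STA.Walk

/-!
# The star discrepancy and the sum of the signs of the traces
-/

namespace Pool.Agent.H11.STA

open MeasureTheory Set

/-- The star discrepancy `D_K^{*,[s]}`: supremum over all boxes `∏ [0, w_i) ⊆ [0,1]^s`. -/
noncomputable def starDisc (E : WeierstrassCurve ℚ) (s K : ℕ) : ℝ :=
  sSup {r | ∃ w : Fin s → ℝ, (∀ i, 0 ≤ w i ∧ w i ≤ 1) ∧ r = localDisc E (fun _ => 0) w K}

lemma localDisc_le_one (E : WeierstrassCurve ℚ) {s : ℕ} (a b : Fin s → ℝ) (K : ℕ) :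
    localDisc E a b K ≤ 1 := by
  classical
  unfold localDisc
  have h0 : boxCount E a b K ≤ K := by
    unfold boxCount
    exact (Finset.card_filter_le _ _).trans (by simp)
  have h1 : (0 : ℝ) ≤ (boxCount E a b K : ℝ) / K := by positivity
  have h2 : (boxCount E a b K : ℝ) / K ≤ 1 := by
    apply div_le_one_of_le₀ _ (Nat.cast_nonneg _)
    exact_mod_cast h0
  have h3 : 0 ≤ (Measure.pi (fun _ : Fin s => satoTate)).real (box a b) := measureReal_nonneg
  have h4 : (Measure.pi (fun _ : Fin s => satoTate)).real (box a b) ≤ 1 := measureReal_le_one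
  rw [abs_le]
  constructor <;> linarith

lemma star_bdd (E : WeierstrassCurve ℚ) (s K : ℕ) : BddAbove
    {r | ∃ w : Fin s → ℝ, (∀ i, 0 ≤ w i ∧ w i ≤ 1) ∧ r = localDisc E (fun _ => 0) w K} := by
  refine ⟨1, ?_⟩
  rintro r ⟨w, -, rfl⟩
  exact localDisc_le_one _ _ _ _

lemma angle_nonneg (E : WeierstrassCurve ℚ) (k : ℕ) : 0 ≤ angle E k := by
  unfold angle
  split_ifs
  · exact div_nonneg (Real.arccos_nonneg _) Real.pi_pos.le
  · norm_num

lemma meas_cons (t : ℕ) (c : ℝ) (h0 : 0 ≤ c) (h1 : c ≤ 1) :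
    (Measure.pi (fun _ : Fin (t + 1) => satoTate)).real
      (box (fun _ => 0) (Fin.cons c (fun _ => 1) : Fin (t + 1) → ℝ)) =
      ∫ u in (0 : ℝ)..c, 2 * Real.sin (Real.pi * u) ^ 2 := by
  rw [real_box, Fin.prod_univ_succ]
  simp only [Fin.cons_zero, Fin.cons_succ, measureReal_def, satoTate_Ico_one,
    ENNReal.toReal_one, Finset.prod_const_one, mul_one]
  rw [satoTate_Ico 0 c le_rfl h0 h1, ENNReal.toReal_ofReal]
  exact intervalIntegral.integral_nonneg h0 (fun u _ => by positivity)

/-- The sum of the signs is controlled by the star discrepancy. -/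
theorem sign_sum_le (E : WeierstrassCurve ℚ) (s K : ℕ) (hs : 1 ≤ s) (hK : 1 ≤ K) :
    |∑ k ∈ Finset.range K, sg (angle E k)| ≤ 4 * K * starDisc E s K := by
  classical
  obtain ⟨t, rfl⟩ : ∃ t, s = t + 1 := ⟨s - 1, by omega⟩
  have hKR : (0 : ℝ) < K := by exact_mod_cast hK
  set D := starDisc E (t + 1) K with hD
  set w : ℝ → (Fin (t + 1) → ℝ) := fun c => Fin.cons c (fun _ => 1) with hw
  have hloc : ∀ c : ℝ, 0 ≤ c → c ≤ 1 → |(boxCount E (fun _ => 0) (w c) K : ℝ) / K -
      ∫ u in (0 : ℝ)..c, 2 * Real.sin (Real.pi * u) ^ 2| ≤ D := by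
    intro c h0 h1
    rw [← meas_cons t c h0 h1]
    apply le_csSup (star_bdd E (t + 1) K)
    refine ⟨w c, ?_, rfl⟩
    intro i
    refine Fin.cases ?_ (fun j => ?_) i
    · simp only [hw, Fin.cons_zero]; exact ⟨h0, h1⟩
    · simp [hw]
  have hF1 : ∫ u in (0 : ℝ)..1, 2 * Real.sin (Real.pi * u) ^ 2 = 1 := by
    rw [integral_density]; simp [Real.pi_ne_zero]
  have hFh : ∫ u in (0 : ℝ)..(1 / 2), 2 * Real.sin (Real.pi * u) ^ 2 = 1 / 2 := by
    rw [integral_density]
    have h1 : Real.pi * (1 / 2) = Real.pi / 2 := by ring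
    rw [h1, Real.cos_pi_div_two]
    simp
    field_simp
  -- membership
  have hmem : ∀ (c : ℝ) (k : ℕ), ((fun i : Fin (t + 1) => angle E (k + i)) ∈
      box (fun _ => 0) (w c)) ↔ angle E k < c ∧ ∀ j : Fin t, angle E (k + (j + 1)) < 1 := by
    intro c k
    simp only [box, Set.mem_univ_pi]
    rw [Fin.forall_fin_succ]
    simp only [hw, Fin.cons_zero, Fin.cons_succ, Set.mem_Ico, Fin.val_zero, add_zero,
      Fin.val_succ]
    constructor
    · rintro ⟨h1, h2⟩; exact ⟨h1.2, fun j => (h2 j).2⟩
    · rintro ⟨h1, h2⟩; exact ⟨⟨angle_nonneg _ _, h1⟩, fun j => ⟨angle_nonneg _ _, h2 j⟩⟩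
  set S : ℝ → Finset ℕ := fun c => (Finset.range K).filter
    (fun k => angle E k < c ∧ ∀ j : Fin t, angle E (k + (j + 1)) < 1) with hS
  have hbc : ∀ c, boxCount E (fun _ => 0) (w c) K = (S c).card := by
    intro c
    unfold boxCount
    congr 1
    apply Finset.filter_congr
    intro k _
    exact hmem c k
  set P := ((Finset.range K).filter (fun k => angle E k < 1 / 2)).card with hP
  set Q := ((Finset.range K).filter (fun k => angle E k ≤ 1 / 2)).card with hQ
  have hcardS1 : (K : ℝ) - (S 1).card ≤ K * D := by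
    have h1 := (abs_le.mp (hloc 1 zero_le_one le_rfl)).1
    rw [hF1, hbc] at h1
    have h2 : (1 - D) * K ≤ ((S 1).card : ℝ) := by
      have : 1 - D ≤ ((S 1).card : ℝ) / K := by linarith
      rwa [le_div_iff₀ hKR] at this
    linarith
  have hsplit : ∀ (T : Finset ℕ) (c : ℝ), T ⊆ Finset.range K → (∀ k ∈ T, angle E k < c) →
      c ≤ 1 → (T.card : ℝ) ≤ (S c).card + ((K : ℝ) - (S 1).card) := by
    intro T c hT hc hc1
    have h1 : T ⊆ S c ∪ (Finset.range K \ S 1) := by
      intro k hk
      rw [Finset.mem_union, Finset.mem_sdiff]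
      by_cases h : ∀ j : Fin t, angle E (k + (j + 1)) < 1
      · left
        rw [hS]
        exact Finset.mem_filter.mpr ⟨hT hk, hc k hk, h⟩
      · right
        refine ⟨hT hk, fun h' => h ?_⟩
        rw [hS, Finset.mem_filter] at h'
        exact h'.2.2
    have h2 := (Finset.card_le_card h1).trans (Finset.card_union_le _ _)
    have h3 : (Finset.range K \ S 1).card + (S 1).card = K := by
      have := Finset.card_sdiff_add_card_eq_card (Finset.filter_subset
        (fun k => angle E k < 1 ∧ ∀ j : Fin t, angle E (k + (j + 1)) < 1) (Finset.range K))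
      simpa [hS] using this
    have h4 : ((Finset.range K \ S 1).card : ℝ) = K - (S 1).card := by
      have : (((Finset.range K \ S 1).card + (S 1).card : ℕ) : ℝ) = K := by exact_mod_cast h3
      push_cast at this
      linarith
    have h5 : (T.card : ℝ) ≤ ((S c).card : ℝ) + ((Finset.range K \ S 1).card : ℝ) := by
      exact_mod_cast h2
    linarith
  -- the half-open half
  have hPu : (P : ℝ) ≤ K / 2 + 2 * (K * D) := by
    have h1 := hsplit ((Finset.range K).filter (fun k => angle E k < 1 / 2)) (1 / 2)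
      (Finset.filter_subset _ _) (fun k hk => (Finset.mem_filter.mp hk).2) (by norm_num)
    have h2 := (abs_le.mp (hloc (1 / 2) (by norm_num) (by norm_num))).2
    rw [hFh, hbc] at h2
    have h3 : ((S (1 / 2)).card : ℝ) ≤ (1 / 2 + D) * K := by
      have : ((S (1 / 2)).card : ℝ) / K ≤ 1 / 2 + D := by linarith
      rwa [div_le_iff₀ hKR] at this
    have h4 : (P : ℝ) ≤ ((S (1 / 2)).card : ℝ) + ((K : ℝ) - (S 1).card) := h1
    nlinarith
  have hPl : (K : ℝ) / 2 - K * D ≤ P := by
    have h2 := (abs_le.mp (hloc (1 / 2) (by norm_num) (by norm_num))).1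
    rw [hFh, hbc] at h2
    have h3 : (1 / 2 - D) * K ≤ ((S (1 / 2)).card : ℝ) := by
      have : 1 / 2 - D ≤ ((S (1 / 2)).card : ℝ) / K := by linarith
      rwa [le_div_iff₀ hKR] at this
    have h4 : ((S (1 / 2)).card : ℝ) ≤ P := by
      have : (S (1 / 2)).card ≤ P := by
        apply Finset.card_le_card
        intro k hk
        rw [hS, Finset.mem_filter] at hk
        exact Finset.mem_filter.mpr ⟨hk.1, hk.2.1⟩
      exact_mod_cast this
    linarith
  -- a gap above 1/2
  obtain ⟨δ0, hδ0, hgap⟩ : ∃ δ0 : ℝ, 0 < δ0 ∧ ∀ k ∈ Finset.range K,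
      angle E k ≤ 1 / 2 ∨ 1 / 2 + δ0 ≤ angle E k := by
    have : ∀ n : ℕ, ∃ δ0 : ℝ, 0 < δ0 ∧ ∀ k ∈ Finset.range n,
        angle E k ≤ 1 / 2 ∨ 1 / 2 + δ0 ≤ angle E k := by
      intro n
      induction n with
      | zero => exact ⟨1, one_pos, fun k hk => by simp at hk⟩
      | succ n ih =>
        obtain ⟨δ, hδ, h⟩ := ih
        by_cases hn : angle E n ≤ 1 / 2
        · refine ⟨δ, hδ, fun k hk => ?_⟩
          rcases Nat.lt_succ_iff_lt_or_eq.mp (Finset.mem_range.mp hk) with h' | h'
          · exact h k (Finset.mem_range.mpr h')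
          · subst h'; exact Or.inl hn
        · push Not at hn
          refine ⟨min δ (angle E n - 1 / 2), lt_min hδ (by linarith), fun k hk => ?_⟩
          rcases Nat.lt_succ_iff_lt_or_eq.mp (Finset.mem_range.mp hk) with h' | h'
          · rcases h k (Finset.mem_range.mpr h') with h'' | h''
            · exact Or.inl h''
            · right
              have := min_le_left δ (angle E n - 1 / 2)
              linarith
          · subst h'
            right
            have := min_le_right δ (angle E k - 1 / 2)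
            linarith
    exact this K
  have hQ' : ∀ δ : ℝ, 0 < δ → δ ≤ δ0 → δ ≤ 1 / 2 →
      (Q : ℝ) ≤ K / 2 + 2 * (K * D) + 2 * K * δ ∧ (K : ℝ) / 2 - K * D ≤ Q := by
    intro δ hδ hδ0' hδ1
    have hadd := intervalIntegral.integral_add_adjacent_intervals
      (cont_density.intervalIntegrable (μ := volume) 0 (1 / 2))
      (cont_density.intervalIntegrable (μ := volume) (1 / 2) (1 / 2 + δ))
    have hlow : 0 ≤ ∫ u in (1 / 2 : ℝ)..(1 / 2 + δ), 2 * Real.sin (Real.pi * u) ^ 2 :=
      intervalIntegral.integral_nonneg (by linarith) (fun u _ => by positivity)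
    have hup : ∫ u in (1 / 2 : ℝ)..(1 / 2 + δ), 2 * Real.sin (Real.pi * u) ^ 2 ≤ 2 * δ := by
      have h1 : ∫ u in (1 / 2 : ℝ)..(1 / 2 + δ), (2 : ℝ) = 2 * δ := by
        rw [intervalIntegral.integral_const]; simp only [smul_eq_mul]; ring
      rw [← h1]
      apply intervalIntegral.integral_mono_on (by linarith)
      · exact cont_density.intervalIntegrable _ _
      · exact continuous_const.intervalIntegrable _ _
      · intro u _
        have := Real.sin_sq_le_one (Real.pi * u)
        linarith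
    have hl := hloc (1 / 2 + δ) (by linarith) (by linarith)
    rw [hbc] at hl
    constructor
    · have h1 := hsplit ((Finset.range K).filter (fun k => angle E k ≤ 1 / 2)) (1 / 2 + δ)
        (Finset.filter_subset _ _) (fun k hk => by
          have := (Finset.mem_filter.mp hk).2
          linarith) (by linarith)
      have h2 := (abs_le.mp hl).2
      have h3 : ((S (1 / 2 + δ)).card : ℝ) ≤ (1 / 2 + 2 * δ + D) * K := by
        have : ((S (1 / 2 + δ)).card : ℝ) / K ≤ 1 / 2 + 2 * δ + D := by linarith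
        rwa [div_le_iff₀ hKR] at this
      have h4 : (Q : ℝ) ≤ ((S (1 / 2 + δ)).card : ℝ) + ((K : ℝ) - (S 1).card) := h1
      nlinarith
    · have h2 := (abs_le.mp hl).1
      have h3 : (1 / 2 - D) * K ≤ ((S (1 / 2 + δ)).card : ℝ) := by
        have : 1 / 2 - D ≤ ((S (1 / 2 + δ)).card : ℝ) / K := by linarith
        rwa [le_div_iff₀ hKR] at this
      have h4 : ((S (1 / 2 + δ)).card : ℝ) ≤ Q := by
        have : (S (1 / 2 + δ)).card ≤ Q := by
          apply Finset.card_le_card
          intro k hk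
          rw [hS, Finset.mem_filter] at hk
          refine Finset.mem_filter.mpr ⟨hk.1, ?_⟩
          rcases hgap k hk.1 with h5 | h5
          · exact h5
          · linarith [hk.2.1]
        exact_mod_cast this
      linarith
  have hQu : (Q : ℝ) ≤ K / 2 + 2 * (K * D) := by
    apply le_of_forall_pos_le_add
    intro e he
    set δ := min (min δ0 (1 / 2)) (e / (2 * K)) with hδ
    have hδpos : 0 < δ := lt_min (lt_min hδ0 (by norm_num)) (by positivity)
    have h1 := (hQ' δ hδpos ((min_le_left _ _).trans (min_le_left _ _))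
      ((min_le_left _ _).trans (min_le_right _ _))).1
    have h2 : δ ≤ e / (2 * K) := min_le_right _ _
    rw [le_div_iff₀ (by positivity)] at h2
    linarith
  have hQl : (K : ℝ) / 2 - K * D ≤ Q :=
    (hQ' (min δ0 (1 / 2)) (lt_min hδ0 (by norm_num)) (min_le_left _ _) (min_le_right _ _)).2
  -- the sum of the signs
  have hsum : ∑ k ∈ Finset.range K, sg (angle E k) = (P : ℝ) + Q - K := by
    have h1 : ∀ k ∈ Finset.range K, sg (angle E k) = (if angle E k < 1 / 2 then (1 : ℝ) else 0) +
        (if angle E k ≤ 1 / 2 then (1 : ℝ) else 0) - 1 := by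
      intro k _
      unfold sg
      rcases lt_trichotomy (angle E k) (1 / 2) with h | h | h
      · rw [if_pos h, if_pos h, if_pos h.le]; norm_num
      · rw [h]; norm_num
      · rw [if_neg (by linarith), if_pos h, if_neg (by linarith), if_neg (by linarith)]; norm_num
    rw [Finset.sum_congr rfl h1, Finset.sum_sub_distrib, Finset.sum_add_distrib,
      ← Finset.sum_filter, ← Finset.sum_filter]
    simp [hP, hQ]
  have hD0 : 0 ≤ K * D := by
    have : 0 ≤ D := (abs_nonneg _).trans (hloc 1 zero_le_one le_rfl)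
    positivity
  rw [hsum, abs_le]
  constructor <;> nlinarith

end Pool.Agent.H11.STA
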