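import Mathlib
import Pool.Agent.H11.STA.Star
import Pool.Agent.H11.STA.Main

/-!
# Almost all curves: large values of `√K · D_K`
-/

namespace Pool.Agent.H11.STA

open Finset

open Classical in
/-- The indicator that the sum of the signs over `I` is at least `√|I|/22`. -/
noncomputable def big (I : Finset ℕ) (a b : ℤ) : ℝ :=
  if √(I.card : ℝ) / 22 ≤ wsum I a b then 1 else 0

lemma big_nonneg (I : Finset ℕ) (a b : ℤ) : 0 ≤ big I a b := by
  unfold big; split_ifs <;> norm_num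

lemma big_le_one (I : Finset ℕ) (a b : ℤ) : big I a b ≤ 1 := by
  unfold big; split_ifs <;> norm_num

lemma big_mean (I : Finset ℕ) (hI : ∀ k ∈ I, 2 ≤ k) (hne : I.Nonempty) :
    ∃ P : ℝ, 1 / 416 ≤ P ∧ P ≤ 1 ∧ HasMean (big I) (setMod I) P := by
  obtain ⟨V, Q, h1, h2, h4, hV, hV', hQ⟩ := wsum_moments I hI
  have hn : (0 : ℝ) < I.card := by exact_mod_cast Finset.card_pos.mpr hne
  set n : ℝ := (I.card : ℝ) with hndef
  set r : ℝ := √n with hr
  have hr0 : 0 < r := Real.sqrt_pos.mpr hn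
  have hr2 : r ^ 2 = n := Real.sq_sqrt hn.le
  obtain ⟨P, hP⟩ := h1.comp (fun x => if r / 22 ≤ x then (1 : ℝ) else 0)
  have hP' : HasMean (big I) (setMod I) P := hP.congr (fun a b => by
    unfold big
    congr)
  refine ⟨P, ?_, hP'.mono (HasMean.const 1 (setMod_ne_zero I)) (big_le_one I), hP'⟩
  -- the polynomial minorant
  have hpoly := (((h1.smul (1 / 26 * (8 / 3) / r)).add (h2.smul (1 / 26 / n))).add
    (h4.smul (-(1 / 26 / (48 * n ^ 2))))).add
    (HasMean.const (-(1 / 26 / 8)) (setMod_ne_zero I))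
  have hle := hpoly.mono hP' (fun a b => by
    have h := poly_ineq (wsum I a b / r)
    have h5 : (1 / 22 ≤ wsum I a b / r) ↔ (r / 22 ≤ wsum I a b) := by
      rw [le_div_iff₀ hr0]
      constructor <;> intro h <;> linarith
    have h6 : (1 / 26) * (8 / 3 * (wsum I a b / r) + (wsum I a b / r) ^ 2 -
        (wsum I a b / r) ^ 4 / 48 - 1 / 8) =
        1 / 26 * (8 / 3) / r * wsum I a b + 1 / 26 / n * wsum I a b ^ 2 +
        -(1 / 26 / (48 * n ^ 2)) * wsum I a b ^ 4 + -(1 / 26 / 8) := by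
      rw [← hr2]
      field_simp
      ring
    rw [h6] at h
    refine h.trans (le_of_eq ?_)
    unfold big
    simp only [h5]
    congr)
  refine le_trans ?_ hle
  have h7 : 1 / 26 / n * V ≥ 1 / 26 / 4 := by
    rw [ge_iff_le, div_mul_eq_mul_div, le_div_iff₀ hn]
    nlinarith
  have h8 : 1 / 26 / (48 * n ^ 2) * Q ≤ 1 / 26 / 16 := by
    rw [div_mul_eq_mul_div, div_le_iff₀ (by positivity)]
    nlinarith
  have h9 : -(1 / 26 / (48 * n ^ 2)) * Q = -(1 / 26 / (48 * n ^ 2) * Q) := by ring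
  rw [h9, mul_zero, zero_add]
  linarith

/-- The start of the `j`-th scale. -/
def start (K0 m j : ℕ) : ℕ := K0 * (m + 1) ^ j

/-- The `i`-th block of the `j`-th scale. -/
def blk (K0 m j i : ℕ) : Finset ℕ :=
  Ico (start K0 m j * (1 + i)) (start K0 m j * (2 + i))

lemma start_succ (K0 m j : ℕ) : start K0 m (j + 1) = start K0 m j * (m + 1) := by
  unfold start; rw [pow_succ]; ring

lemma start_mono (K0 m : ℕ) {i j : ℕ} (h : i ≤ j) : start K0 m i ≤ start K0 m j :=
  Nat.mul_le_mul_left _ (Nat.pow_le_pow_right (by omega) h)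

lemma start_pos {K0 : ℕ} (m j : ℕ) (h : 0 < K0) : 0 < start K0 m j :=
  Nat.mul_pos h (Nat.pow_pos (by omega))

lemma blk_card (K0 m j i : ℕ) : (blk K0 m j i).card = start K0 m j := by
  unfold blk
  rw [Nat.card_Ico]
  have : start K0 m j * (2 + i) = start K0 m j * (1 + i) + start K0 m j := by ring
  omega

lemma blk_mem {K0 m j i k : ℕ} (hi : i < m) (hk : k ∈ blk K0 m j i) :
    start K0 m j ≤ k ∧ k < start K0 m (j + 1) := by
  unfold blk at hk
  rw [Finset.mem_Ico] at hk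
  rw [start_succ]
  constructor
  · calc start K0 m j = start K0 m j * 1 := (mul_one _).symm
      _ ≤ start K0 m j * (1 + i) := Nat.mul_le_mul_left _ (by omega)
      _ ≤ k := hk.1
  · calc k < start K0 m j * (2 + i) := hk.2
      _ ≤ start K0 m j * (m + 1) := Nat.mul_le_mul_left _ (by omega)

lemma blk_disjoint {K0 m j i i' : ℕ} (h : i ≠ i') :
    Disjoint (blk K0 m j i) (blk K0 m j i') := by
  rw [Finset.disjoint_left]
  intro k hk hk'
  unfold blk at hk hk'
  rw [Finset.mem_Ico] at hk hk'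
  rcases lt_or_gt_of_ne h with h1 | h1
  · have : start K0 m j * (2 + i) ≤ start K0 m j * (1 + i') := Nat.mul_le_mul_left _ (by omega)
    omega
  · have : start K0 m j * (2 + i') ≤ start K0 m j * (1 + i) := Nat.mul_le_mul_left _ (by omega)
    omega

lemma blk_disjoint' {K0 m j j' i i' : ℕ} (hi : i < m) (hi' : i' < m) (h : j ≠ j') :
    Disjoint (blk K0 m j i) (blk K0 m j' i') := by
  rw [Finset.disjoint_left]
  intro k hk hk'
  have h1 := blk_mem hi hk
  have h2 := blk_mem hi' hk'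
  rcases lt_or_gt_of_ne h with h3 | h3
  · have := start_mono K0 m (i := j + 1) (j := j') h3
    omega
  · have := start_mono K0 m (i := j' + 1) (j := j) h3
    omega

/-- The signs over a whole scale. -/
lemma sum_scale (g : ℕ → ℝ) (K0 m j : ℕ) :
    ∑ k ∈ Ico (start K0 m j) (start K0 m (j + 1)), g k =
      ∑ i ∈ range m, ∑ k ∈ blk K0 m j i, g k := by
  have h : ∀ n : ℕ, ∑ k ∈ Ico (start K0 m j) (start K0 m j * (n + 1)), g k =
      ∑ i ∈ range n, ∑ k ∈ blk K0 m j i, g k := by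
    intro n
    induction n with
    | zero => simp
    | succ n ih =>
      rw [Finset.sum_range_succ, ← ih]
      unfold blk
      have e1 : 1 + n = n + 1 := by ring
      have e2 : 2 + n = n + 1 + 1 := by ring
      rw [e1, e2, Finset.sum_Ico_consecutive]
      · exact Nat.le_mul_of_pos_right _ (by omega)
      · exact Nat.mul_le_mul_left _ (by omega)
  rw [start_succ]
  exact h m

/-- No scale among the first `J` is good. -/
noncomputable def noScale (K0 m J : ℕ) (a b : ℤ) : ℝ :=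
  ∏ j ∈ range J, (1 - ∏ i ∈ range m, big (blk K0 m j i) a b)

lemma noScale_mean (K0 m J : ℕ) (hK0 : 2 ≤ K0) :
    ∃ W μ, HasMean (noScale K0 m J) W μ ∧ μ ≤ (1 - (1 / 416) ^ m) ^ J := by
  classical
  have hpos : ∀ j, 0 < start K0 m j := fun j => start_pos m j (by omega)
  have hge : ∀ j i k, k ∈ blk K0 m j i → 2 ≤ k := by
    intro j i k hk
    unfold blk at hk
    rw [Finset.mem_Ico] at hk
    have h1 : K0 ≤ start K0 m j := by
      have := start_mono K0 m (Nat.zero_le j)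
      simpa [start] using this
    have h2 : start K0 m j ≤ start K0 m j * (1 + i) := Nat.le_mul_of_pos_right _ (by omega)
    omega
  have hmean : ∀ j i, ∃ P : ℝ, 1 / 416 ≤ P ∧ P ≤ 1 ∧
      HasMean (big (blk K0 m j i)) (setMod (blk K0 m j i)) P := by
    intro j i
    apply big_mean _ (hge j i)
    rw [← Finset.card_pos, blk_card]
    exact hpos j
  choose P hP1 hP2 hP3 using hmean
  have hG : ∀ j, HasMean (fun a b => ∏ i ∈ range m, big (blk K0 m j i) a b)
      (∏ i ∈ range m, setMod (blk K0 m j i)) (∏ i ∈ range m, P j i) := by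
    intro j
    apply HasMean.prod (range m) (fun i => big (blk K0 m j i)) (fun i => setMod (blk K0 m j i))
      (P j) (fun i _ => hP3 j i)
    intro i _ i' _ hii
    exact setMod_coprime (blk_disjoint hii)
  have hB : ∀ j, HasMean (fun a b => 1 - ∏ i ∈ range m, big (blk K0 m j i) a b)
      (∏ i ∈ range m, setMod (blk K0 m j i)) (1 - ∏ i ∈ range m, P j i) := by
    intro j
    have h := (HasMean.const 1 (hG j).ne_zero).add ((hG j).smul (-1))
    rw [show (1 : ℝ) + -1 * ∏ i ∈ range m, P j i = 1 - ∏ i ∈ range m, P j i by ring] at h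
    exact h.congr (fun a b => by ring)
  refine ⟨_, _, HasMean.prod (range J)
    (fun j a b => 1 - ∏ i ∈ range m, big (blk K0 m j i) a b)
    (fun j => ∏ i ∈ range m, setMod (blk K0 m j i)) (fun j => 1 - ∏ i ∈ range m, P j i)
    (fun j _ => hB j) ?_, ?_⟩
  · intro j _ j' _ hjj
    refine Nat.Coprime.prod_left (fun i hi => Nat.Coprime.prod_right (fun i' hi' => ?_))
    exact setMod_coprime (blk_disjoint' (Finset.mem_range.mp hi) (Finset.mem_range.mp hi') hjj)
  · have h1 : ∀ j ∈ range J, 1 - ∏ i ∈ range m, P j i ≤ 1 - (1 / 416) ^ m := by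
      intro j _
      have h2 : ∏ i ∈ range m, (1 / 416 : ℝ) ≤ ∏ i ∈ range m, P j i :=
        Finset.prod_le_prod (fun _ _ => by norm_num) (fun i _ => hP1 j i)
      rw [Finset.prod_const, Finset.card_range] at h2
      linarith
    have h0 : ∀ j ∈ range J, 0 ≤ 1 - ∏ i ∈ range m, P j i := by
      intro j _
      have h2 : ∏ i ∈ range m, P j i ≤ 1 := Finset.prod_le_one
        (fun i _ => le_trans (by norm_num) (hP1 j i)) (fun i _ => hP2 j i)
      linarith
    refine (Finset.prod_le_prod h0 h1).trans ?_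
    rw [Finset.prod_const, Finset.card_range]

lemma noScale_nonneg (K0 m J : ℕ) (a b : ℤ) : 0 ≤ noScale K0 m J a b := by
  unfold noScale
  refine Finset.prod_nonneg (fun j _ => ?_)
  have : ∏ i ∈ range m, big (blk K0 m j i) a b ≤ 1 :=
    Finset.prod_le_one (fun i _ => big_nonneg _ _ _) (fun i _ => big_le_one _ _ _)
  linarith

lemma noScale_le_one (K0 m J : ℕ) (a b : ℤ) : noScale K0 m J a b ≤ 1 := by
  unfold noScale
  refine Finset.prod_le_one (fun j _ => ?_) (fun j _ => ?_)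
  · have : ∏ i ∈ range m, big (blk K0 m j i) a b ≤ 1 :=
      Finset.prod_le_one (fun i _ => big_nonneg _ _ _) (fun i _ => big_le_one _ _ _)
    linarith
  · have : 0 ≤ ∏ i ∈ range m, big (blk K0 m j i) a b :=
      Finset.prod_nonneg (fun i _ => big_nonneg _ _ _)
    linarith

/-- If some scale is good, the walk moves a lot in it; otherwise `noScale = 1`. -/
lemma noScale_cases (K0 m J : ℕ) (a b : ℤ) :
    noScale K0 m J a b = 1 ∨ ∃ j < J, m * (√(start K0 m j : ℝ) / 22) ≤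
      ∑ k ∈ Ico (start K0 m j) (start K0 m (j + 1)), sgn k a b := by
  classical
  by_cases h : ∃ j < J, ∀ i < m, √(start K0 m j : ℝ) / 22 ≤ wsum (blk K0 m j i) a b
  · right
    obtain ⟨j, hj, hi⟩ := h
    refine ⟨j, hj, ?_⟩
    rw [sum_scale]
    have h1 : ∑ i ∈ range m, (√(start K0 m j : ℝ) / 22) ≤
        ∑ i ∈ range m, ∑ k ∈ blk K0 m j i, sgn k a b :=
      Finset.sum_le_sum (fun i hi' => hi i (Finset.mem_range.mp hi'))
    rwa [Finset.sum_const, Finset.card_range, nsmul_eq_mul] at h1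
  · left
    push Not at h
    unfold noScale
    apply Finset.prod_eq_one
    intro j hj
    obtain ⟨i, hi, hlt⟩ := h j (Finset.mem_range.mp hj)
    have h1 : big (blk K0 m j i) a b = 0 := by
      unfold big
      rw [blk_card, if_neg (not_le.mpr hlt)]
    rw [Finset.prod_eq_zero (Finset.mem_range.mpr hi) h1, sub_zero]

/-- From a good scale to a large value of `√K D_K^*`. -/
lemma large_of_scale (s K0 m j : ℕ) (hs : 1 ≤ s) (hK0 : 2 ≤ K0) (hm : 1 ≤ m) (a b : ℤ) (M : ℝ)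
    (hM : 0 ≤ M) (hmM : 2 * (176 * M) ^ 2 ≤ m)
    (hgcd : ∀ k, K0 ≤ k → k < start K0 m (j + 1) →
      ¬ (((a : ℤ) : ZMod (Nat.nth Nat.Prime k)) = 0 ∧
        ((b : ℤ) : ZMod (Nat.nth Nat.Prime k)) = 0))
    (h : m * (√(start K0 m j : ℝ) / 22) ≤
      ∑ k ∈ Ico (start K0 m j) (start K0 m (j + 1)), sgn k a b) :
    ∃ K, 1 ≤ K ∧ K ≤ start K0 m (j + 1) ∧
      M ≤ √(K : ℝ) * starDisc (shortCurve (a : ℚ) (b : ℚ)) s K := by
  set E := shortCurve (a : ℚ) (b : ℚ) with hE
  set K1 := start K0 m j with hK1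
  set K2 := start K0 m (j + 1) with hK2
  have hK12 : K1 ≤ K2 := start_mono K0 m (by omega)
  have hK1pos : 0 < K1 := start_pos m j (by omega)
  have hK01 : K0 ≤ K1 := by
    have h1 := start_mono K0 m (Nat.zero_le j)
    have h2 : start K0 m 0 = K0 := by simp [start]
    omega
  have hK2eq : K2 = K1 * (m + 1) := start_succ K0 m j
  have hsum : ∑ k ∈ Ico K1 K2, sgn k a b =
      ∑ k ∈ range K2, sg (angle E k) - ∑ k ∈ range K1, sg (angle E k) := by
    rw [← Finset.sum_Ico_eq_sub _ hK12]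
    refine Finset.sum_congr rfl (fun k hk => ?_)
    rw [Finset.mem_Ico] at hk
    unfold sgn
    rw [hE, angle_eq a b k (by omega) (hgcd k (by omega) hk.2)]
  rw [hsum] at h
  have hK1R : (0 : ℝ) < K1 := by exact_mod_cast hK1pos
  have hmR : (1 : ℝ) ≤ m := by exact_mod_cast hm
  set r := √(K1 : ℝ) with hr
  have hr0 : 0 < r := Real.sqrt_pos.mpr hK1R
  have hr2 : r * r = K1 := Real.mul_self_sqrt hK1R.le
  -- one of the two ends is large
  have hends : m * r / 44 ≤ |∑ k ∈ range K2, sg (angle E k)| ∨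
      m * r / 44 ≤ |∑ k ∈ range K1, sg (angle E k)| := by
    by_contra hcon
    push Not at hcon
    have h1 := (abs_lt.mp hcon.1).2
    have h2 := (abs_lt.mp hcon.2).1
    linarith
  -- numeric facts
  have hMm : 176 * M * √((m : ℝ) + 1) ≤ m := by
    have h1 : √((m : ℝ) + 1) ≤ √(2 * m) := Real.sqrt_le_sqrt (by linarith)
    have h2 : 176 * M * √((m : ℝ) + 1) ≤ 176 * M * √(2 * m) :=
      mul_le_mul_of_nonneg_left h1 (by positivity)
    have h3 : (176 * M * √(2 * (m : ℝ))) ^ 2 ≤ (m : ℝ) ^ 2 := by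
      rw [mul_pow, Real.sq_sqrt (by positivity)]
      nlinarith
    have h4 : 176 * M * √(2 * (m : ℝ)) ≤ m :=
      le_of_sq_le_sq h3 (by positivity)
    exact h2.trans h4
  have hsm1 : (1 : ℝ) ≤ √((m : ℝ) + 1) := by
    rw [Real.one_le_sqrt]; linarith
  rcases hends with h1 | h1
  · refine ⟨K2, by omega, le_rfl, ?_⟩
    have hK2pos : 1 ≤ K2 := by omega
    have h2 := h1.trans (sign_sum_le E s K2 hs hK2pos)
    have hK2R : (0 : ℝ) < K2 := by exact_mod_cast (by omega : 0 < K2)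
    have hs2 : √(K2 : ℝ) = r * √((m : ℝ) + 1) := by
      rw [hK2eq]; push_cast
      rw [Real.sqrt_mul hK1R.le]
    have hs2pos : 0 < √(K2 : ℝ) := Real.sqrt_pos.mpr hK2R
    have hs2sq : √(K2 : ℝ) * √(K2 : ℝ) = K2 := Real.mul_self_sqrt hK2R.le
    -- m r / 44 ≤ 4 √K2 (√K2 D)
    have h3 : m * r / 44 ≤ 4 * √(K2 : ℝ) * (√(K2 : ℝ) * starDisc E s K2) := by
      calc m * r / 44 ≤ 4 * K2 * starDisc E s K2 := h2
        _ = 4 * (√(K2 : ℝ) * √(K2 : ℝ)) * starDisc E s K2 := by rw [hs2sq]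
        _ = _ := by ring
    have h4 : 4 * √(K2 : ℝ) * M ≤ m * r / 44 := by
      rw [hs2]
      have : 4 * (r * √((m : ℝ) + 1)) * M = (176 * M * √((m : ℝ) + 1)) * r / 44 := by ring
      rw [this]
      have := mul_le_mul_of_nonneg_right hMm hr0.le
      linarith
    have h5 : 4 * √(K2 : ℝ) * M ≤ 4 * √(K2 : ℝ) * (√(K2 : ℝ) * starDisc E s K2) := h4.trans h3
    exact le_of_mul_le_mul_left h5 (by positivity)
  · refine ⟨K1, by omega, hK12, ?_⟩
    have h2 := h1.trans (sign_sum_le E s K1 hs (by omega))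
    have h3 : m * r / 44 ≤ 4 * r * (r * starDisc E s K1) := by
      calc m * r / 44 ≤ 4 * K1 * starDisc E s K1 := h2
        _ = 4 * (r * r) * starDisc E s K1 := by rw [hr2]
        _ = _ := by ring
    have h4 : 4 * r * M ≤ m * r / 44 := by
      have h5 : 176 * M ≤ 176 * M * √((m : ℝ) + 1) := le_mul_of_one_le_right (by positivity) hsm1
      have h6 := mul_le_mul_of_nonneg_right (h5.trans hMm) hr0.le
      linarith
    exact le_of_mul_le_mul_left (h4.trans h3) (by positivity)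

open Classical in
/-- For each `M` and `η` there are `K1`, `X0` such that in every box of curves with sides at
least `X0` all but a proportion `η` have `√K D_K^* ≥ M` for some `K ≤ K1`. -/
theorem large_all (s : ℕ) (hs : 1 ≤ s) (M η : ℝ) (hM : 0 ≤ M) (hη : 0 < η) :
    ∃ K1 X0 : ℕ, ∀ (A B : ℤ) (X Y : ℕ), X0 ≤ X → X0 ≤ Y →
      (((curveBox A B X Y).filter (fun w => ¬ ∃ K : ℕ, 1 ≤ K ∧ K ≤ K1 ∧
        M ≤ √(K : ℝ) * starDisc (shortCurve (w.1 : ℚ) (w.2 : ℚ)) s K)).card : ℝ) ≤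
        η * (X * Y) := by
  set K0 : ℕ := ⌈16 / η⌉₊ + 2 with hK0
  have hK0η : 8 / (K0 : ℝ) ≤ η / 2 := by
    have h1 : 16 / η ≤ K0 := by
      rw [hK0]; push_cast
      linarith [Nat.le_ceil (16 / η)]
    have hk0R : (0 : ℝ) < K0 := by rw [hK0]; push_cast; positivity
    rw [div_le_iff₀ hη] at h1
    rw [div_le_iff₀ hk0R]
    linarith
  set m : ℕ := ⌈2 * (176 * M) ^ 2⌉₊ + 1 with hm
  have hmM : 2 * (176 * M) ^ 2 ≤ m := by
    rw [hm]; push_cast
    linarith [Nat.le_ceil (2 * (176 * M) ^ 2)]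
  have hm1 : 1 ≤ m := by omega
  -- the number of scales
  have hc0 : (0 : ℝ) < (1 / 416) ^ m := by positivity
  have hc1 : ((1 : ℝ) / 416) ^ m < 1 := pow_lt_one₀ (by norm_num) (by norm_num) (by omega)
  obtain ⟨J, hJ⟩ : ∃ J : ℕ, (1 - ((1 : ℝ) / 416) ^ m) ^ J < η / 4 :=
    exists_pow_lt_of_lt_one (by positivity) (by linarith)
  obtain ⟨W, μ, hmean, hμ⟩ := noScale_mean K0 m J (by omega)
  set K1 := start K0 m J with hK1
  set X0 : ℕ := max (Nat.nth Nat.Prime K1) (⌈8 * W / η⌉₊ + 1) with hX0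
  refine ⟨K1, X0, fun A B X Y hX hY => ?_⟩
  set E1 := (curveBox A B X Y).filter (fun w => ∃ k, K0 ≤ k ∧ Nat.nth Nat.Prime k ≤ min X Y ∧
      ((w.1 : ℤ) : ZMod (Nat.nth Nat.Prime k)) = 0 ∧
      ((w.2 : ℤ) : ZMod (Nat.nth Nat.Prime k)) = 0) with hE1
  set E2 := (curveBox A B X Y).filter (fun w => noScale K0 m J w.1 w.2 = 1) with hE2
  have hsub : (curveBox A B X Y).filter (fun w => ¬ ∃ K : ℕ, 1 ≤ K ∧ K ≤ K1 ∧
        M ≤ √(K : ℝ) * starDisc (shortCurve (w.1 : ℚ) (w.2 : ℚ)) s K) ⊆ E1 ∪ E2 := by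
    intro w hw
    rw [Finset.mem_filter] at hw
    obtain ⟨hwb, hn⟩ := hw
    rw [Finset.mem_union]
    by_contra hcon
    push Not at hcon
    obtain ⟨hn1, hn2⟩ := hcon
    apply hn
    rcases noScale_cases K0 m J w.1 w.2 with h1 | ⟨j, hj, h1⟩
    · exact absurd (by rw [hE2, Finset.mem_filter]; exact ⟨hwb, h1⟩) hn2
    · have hle : start K0 m (j + 1) ≤ K1 := start_mono K0 m (by omega)
      have hgcd : ∀ k, K0 ≤ k → k < start K0 m (j + 1) →
          ¬ (((w.1 : ℤ) : ZMod (Nat.nth Nat.Prime k)) = 0 ∧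
          ((w.2 : ℤ) : ZMod (Nat.nth Nat.Prime k)) = 0) := by
        intro k hk hk2 hab
        apply hn1
        rw [hE1, Finset.mem_filter]
        refine ⟨hwb, k, hk, ?_, hab⟩
        have h2 : Nat.nth Nat.Prime k ≤ Nat.nth Nat.Prime K1 :=
          Nat.nth_monotone Nat.infinite_setOfPred_prime (by omega)
        have h3 : Nat.nth Nat.Prime K1 ≤ X0 := le_max_left _ _
        exact le_min (h2.trans (h3.trans hX)) (h2.trans (h3.trans hY))
      obtain ⟨K, hK1', hK2, hK3⟩ := large_of_scale s K0 m j hs (by omega) hm1 w.1 w.2 M hM hmM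
        hgcd h1
      exact ⟨K, hK1', hK2.trans hle, hK3⟩
  have hcardE1 : (E1.card : ℝ) ≤ 8 / K0 * (X * Y) := card_common A B X Y K0 (by omega)
  have hcardE2 : (E2.card : ℝ) ≤ μ * (X * Y) + W * ((X : ℝ) + Y) := by
    have h1 := hmean.box (noScale_nonneg K0 m J) (noScale_le_one K0 m J) A B X Y
    refine le_trans ?_ h1
    rw [← Finset.sum_product' (Ico A (A + X)) (Ico B (B + Y))
      (fun a b => noScale K0 m J a b)]
    change _ ≤ ∑ x ∈ curveBox A B X Y, noScale K0 m J x.1 x.2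
    rw [hE2, Finset.card_filter]
    push_cast
    refine Finset.sum_le_sum (fun w _ => ?_)
    split_ifs with h
    · rw [h]
    · exact noScale_nonneg _ _ _ _ _
  have hXW : 8 * W / η ≤ (X : ℝ) := by
    have h1 : ((⌈8 * W / η⌉₊ + 1 : ℕ) : ℝ) ≤ X := by exact_mod_cast (le_max_right _ _).trans hX
    push_cast at h1
    linarith [Nat.le_ceil (8 * W / η)]
  have hYW : 8 * W / η ≤ (Y : ℝ) := by
    have h1 : ((⌈8 * W / η⌉₊ + 1 : ℕ) : ℝ) ≤ Y := by exact_mod_cast (le_max_right _ _).trans hY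
    push_cast at h1
    linarith [Nat.le_ceil (8 * W / η)]
  rw [div_le_iff₀ hη] at hXW hYW
  have hX0' : (0 : ℝ) ≤ X := Nat.cast_nonneg _
  have hY0' : (0 : ℝ) ≤ Y := Nat.cast_nonneg _
  have hWXY : (W : ℝ) * ((X : ℝ) + Y) ≤ η / 4 * (X * Y) := by
    have e1 : (8 * (W : ℝ)) * Y ≤ (X * η) * Y := mul_le_mul_of_nonneg_right hXW hY0'
    have e2 : (8 * (W : ℝ)) * X ≤ (Y * η) * X := mul_le_mul_of_nonneg_right hYW hX0'
    nlinarith
  have hμ' : μ * (X * Y) ≤ η / 4 * (X * Y) :=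
    mul_le_mul_of_nonneg_right (hμ.trans hJ.le) (by positivity)
  have hK0' : 8 / (K0 : ℝ) * (X * Y) ≤ η / 2 * (X * Y) :=
    mul_le_mul_of_nonneg_right hK0η (by positivity)
  have hcard : (((curveBox A B X Y).filter (fun w => ¬ ∃ K : ℕ, 1 ≤ K ∧ K ≤ K1 ∧
        M ≤ √(K : ℝ) * starDisc (shortCurve (w.1 : ℚ) (w.2 : ℚ)) s K)).card : ℝ) ≤
      (E1.card : ℝ) + (E2.card : ℝ) := by
    exact_mod_cast (Finset.card_le_card hsub).trans (Finset.card_union_le _ _)
  linarith

end Pool.Agent.H11.STA
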