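import Mathlib
import Pool.Agent.H11.STA.Gen
import Pool.Agent.H11.STA.Fold
import Pool.Agent.H11.STA.Twist
import Pool.Agent.H11.STA.Walk

/-!
# Quadratic twists of a fixed curve
-/

namespace Pool.Agent.H11.STA

open Finset

lemma sq_twist {p : ℕ} [Fact p.Prime] (hp : 3 ≤ p) (u v d : ZMod p) (hd0 : d ≠ 0)
    (hd : quadraticChar (ZMod p) d = 1) :
    redAngle p (d ^ 2 * u) (d ^ 3 * v) = redAngle p u v := by
  have hdisc : 4 * (d ^ 2 * u) ^ 3 + 27 * (d ^ 3 * v) ^ 2 =
      d ^ 6 * (4 * u ^ 3 + 27 * v ^ 2) := by ring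
  have hcard : (Nat.card {P : ZMod p × ZMod p //
      (shortCurve (d ^ 2 * u) (d ^ 3 * v)).toAffine.Equation P.1 P.2} : ℤ) =
      Nat.card {P : ZMod p × ZMod p // (shortCurve u v).toAffine.Equation P.1 P.2} := by
    rw [card_affine hp, card_affine hp]
    have h1 : ∑ x : ZMod p, (quadraticChar (ZMod p) (x ^ 3 + d ^ 2 * u * x + d ^ 3 * v) + 1) =
        ∑ t : ZMod p, (quadraticChar (ZMod p)
          ((d * t) ^ 3 + d ^ 2 * u * (d * t) + d ^ 3 * v) + 1) :=
      (Equiv.sum_comp (Equiv.mulLeft₀ d hd0)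
        (fun x => (quadraticChar (ZMod p) (x ^ 3 + d ^ 2 * u * x + d ^ 3 * v) + 1))).symm
    rw [h1]
    refine Finset.sum_congr rfl (fun t _ => ?_)
    have : (d * t) ^ 3 + d ^ 2 * u * (d * t) + d ^ 3 * v = d ^ 3 * (t ^ 3 + u * t + v) := by ring
    rw [this, map_mul, map_pow, hd]
    ring
  unfold redAngle
  by_cases h : 4 * u ^ 3 + 27 * v ^ 2 = 0
  · have h' : 4 * (d ^ 2 * u) ^ 3 + 27 * (d ^ 3 * v) ^ 2 = 0 := by rw [hdisc, h, mul_zero]
    rw [if_pos h, if_pos h']
  · have h' : ¬ 4 * (d ^ 2 * u) ^ 3 + 27 * (d ^ 3 * v) ^ 2 = 0 := by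
      rw [hdisc]; exact mul_ne_zero (pow_ne_zero 6 hd0) h
    have hcN : Nat.card {P : ZMod p × ZMod p //
      (shortCurve (d ^ 2 * u) (d ^ 3 * v)).toAffine.Equation P.1 P.2} =
      Nat.card {P : ZMod p × ZMod p // (shortCurve u v).toAffine.Equation P.1 P.2} := by
      exact_mod_cast hcard
    rw [if_neg h, if_neg h', card_point_short _ _ hp h, card_point_short _ _ hp h', hcN]

open Classical in
/-- The angle of the twist by `u` of the curve `y² = x³ + ax + b` (the value at `u = 0` is
arbitrary). -/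
noncomputable def twFun (a b : ℤ) : LocFun := fun k u _ =>
  if u = 0 then 1 / 2 else redAngle (Nat.nth Nat.Prime k) (u ^ 2 * a) (u ^ 3 * b)

lemma twFun_le_one (a b : ℤ) : ∀ k u v, twFun a b k u v ≤ 1 := by
  intro k u v
  unfold twFun
  split_ifs
  · norm_num
  · exact redAngle_le_one _ _ _

open Classical in
/-- The folded indicator. -/
noncomputable def foldInd (x α β : ℝ) : ℝ :=
  ((if x ∈ Set.Ico α β then (1 : ℝ) else 0) + (if 1 - x ∈ Set.Ico α β then (1 : ℝ) else 0)) / 2

lemma foldInd_unit (x α β : ℝ) : 0 ≤ foldInd x α β ∧ foldInd x α β ≤ 1 := by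
  unfold foldInd
  constructor <;> (split_ifs <;> norm_num)

/-- The law of the angle over all twists is the folded law up to `1/p`. -/
lemma tw_law (a b : ℤ) (k : ℕ) (hk : 1 ≤ k) (α β : ℝ) :
    |glaw (twFun a b) k (Set.Ico α β) -
      foldInd (redAngle (Nat.nth Nat.Prime k) a b) α β| ≤ 1 / (Nat.nth Nat.Prime k : ℝ) := by
  classical
  have hp3 : 3 ≤ Nat.nth Nat.Prime k := by
    have h1 : Nat.nth Nat.Prime 1 ≤ Nat.nth Nat.Prime k :=
      Nat.nth_monotone Nat.infinite_setOfPred_prime hk
    have h2 : Nat.nth Nat.Prime 1 = 3 := Nat.nth_prime_one_eq_three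
    omega
  set p := Nat.nth Nat.Prime k with hp
  haveI : Fact p.Prime := factPrime k
  have hpR : (0 : ℝ) < p := by exact_mod_cast (by omega : 0 < p)
  set x := redAngle p (a : ZMod p) (b : ZMod p) with hx
  set A : ℝ := if x ∈ Set.Ico α β then (1 : ℝ) else 0 with hA
  set B : ℝ := if 1 - x ∈ Set.Ico α β then (1 : ℝ) else 0 with hB
  set C : ℝ := if (1 / 2 : ℝ) ∈ Set.Ico α β then (1 : ℝ) else 0 with hC
  have hsum := sum_gind (twFun a b) k α β
  have hgind : ∀ u v : ZMod p, gind (twFun a b) k α β u v =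
      (1 + (quadraticChar (ZMod p) u : ℝ)) / 2 * A + (1 - (quadraticChar (ZMod p) u : ℝ)) / 2 * B +
      (if u = 0 then C - (A + B) / 2 else 0) := by
    intro u v
    unfold gind twFun
    by_cases hu : u = 0
    · subst hu
      simp only [if_true, MulChar.map_zero, Int.cast_zero]
      rw [← hC]
      ring
    · simp only [if_neg hu]
      rcases quadraticChar_dichotomy hu with h1 | h1
      · rw [sq_twist hp3 _ _ u hu h1, h1]
        push_cast
        rw [← hA]
        ring
      · rw [redAngle_twist hp3 _ _ u hu h1, h1]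
        push_cast
        rw [← hB]
        ring
  have hχ : ∑ u : ZMod p, (quadraticChar (ZMod p) u : ℝ) = 0 := by
    have h1 := quadraticChar_sum_zero (F := ZMod p) (ringChar_ne_two hp3)
    exact_mod_cast h1
  have htot : ∑ u : ZMod p, ∑ v : ZMod p, gind (twFun a b) k α β u v =
      p * (p * ((A + B) / 2) + (C - (A + B) / 2)) := by
    have h1 : ∀ u : ZMod p, ∑ v : ZMod p, gind (twFun a b) k α β u v =
        p * ((A + B) / 2 + (quadraticChar (ZMod p) u : ℝ) * ((A - B) / 2) +
          (if u = 0 then C - (A + B) / 2 else 0)) := by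
      intro u
      simp only [hgind]
      rw [Finset.sum_const, Finset.card_univ, ZMod.card, nsmul_eq_mul]
      ring
    simp only [h1]
    rw [← Finset.mul_sum]
    congr 1
    rw [Finset.sum_add_distrib, Finset.sum_add_distrib, ← Finset.sum_mul, hχ, zero_mul,
      Finset.sum_const, Finset.card_univ, ZMod.card, nsmul_eq_mul, Finset.sum_ite_eq',
      if_pos (Finset.mem_univ _)]
    ring
  rw [htot] at hsum
  have hlaw : glaw (twFun a b) k (Set.Ico α β) = (A + B) / 2 + (C - (A + B) / 2) / p := by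
    have h1 : (p : ℝ) ^ 2 * glaw (twFun a b) k (Set.Ico α β) =
        (p : ℝ) ^ 2 * ((A + B) / 2 + (C - (A + B) / 2) / p) := by
      rw [← hsum]
      field_simp
    exact mul_left_cancel₀ (by positivity) h1
  have hfold : foldInd x α β = (A + B) / 2 := rfl
  rw [hlaw, hfold, add_sub_cancel_left, abs_div, abs_of_pos hpR]
  refine div_le_div_of_nonneg_right ?_ hpR.le
  have hA' : 0 ≤ A ∧ A ≤ 1 := by rw [hA]; split_ifs <;> norm_num
  have hB' : 0 ≤ B ∧ B ≤ 1 := by rw [hB]; split_ifs <;> norm_num
  have hC' : 0 ≤ C ∧ C ≤ 1 := by rw [hC]; split_ifs <;> norm_num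
  rw [abs_le]
  constructor <;> linarith [hA'.1, hA'.2, hB'.1, hB'.2, hC'.1, hC'.2]

/-- The indicator that `p` divides the first variable, as a local function. -/
noncomputable def dvFun : LocFun := fun _ u _ => if u = 0 then 0 else 1

lemma dvFun_le_one : ∀ k u v, dvFun k u v ≤ 1 := by
  intro k u v
  unfold dvFun
  split_ifs <;> norm_num

lemma sum_inv_prime (n : ℕ) : ∑ k ∈ range n, 1 / (Nat.nth Nat.Prime k : ℝ) ≤ 2 * √(n : ℝ) := by
  induction n with
  | zero => simp
  | succ n ih =>
    rw [Finset.sum_range_succ]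
    have hn : (0 : ℝ) ≤ n := Nat.cast_nonneg _
    have h1 : (1 : ℝ) / (Nat.nth Nat.Prime n : ℝ) ≤ 1 / (n + 1) := by
      apply one_div_le_one_div_of_le (by positivity)
      exact_mod_cast lt_nth_prime n
    have h2 : (1 : ℝ) / (n + 1) ≤ 2 * (√((n : ℝ) + 1) - √(n : ℝ)) := by
      set r := √((n : ℝ) + 1) with hr
      set t := √(n : ℝ) with ht
      have hr1 : 1 ≤ r := by rw [hr, Real.one_le_sqrt]; linarith
      have hr2 : r * r = n + 1 := Real.mul_self_sqrt (by linarith)
      have ht2 : t * t = n := Real.mul_self_sqrt hn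
      have ht0 : 0 ≤ t := Real.sqrt_nonneg _
      have htr : t ≤ r := Real.sqrt_le_sqrt (by linarith)
      rw [← hr2, div_le_iff₀ (by positivity)]
      have h3 : (r - t) * (r + t) = 1 := by nlinarith
      have h4 : 0 < r - t := by
        by_contra hcon
        have : r - t ≤ 0 := not_lt.mp hcon
        nlinarith
      nlinarith
    push_cast
    linarith

open Classical in
/-- The number of primes among the first `K` dividing `d`. -/
noncomputable def divCount (K : ℕ) (d : ℤ) : ℕ :=
  ((range K).filter (fun k => ((d : ℤ) : ZMod (Nat.nth Nat.Prime k)) = 0)).card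

lemma divCount_le (K : ℕ) (d b : ℤ) : (divCount K d : ℝ) ≤
    |gdev dvFun 1 (fun _ => 0) (fun _ => 1 / 2) K d b| + 2 * √(K : ℝ) := by
  classical
  have hlaw : ∀ k, glaw dvFun k (Set.Ico 0 (1 / 2)) = 1 / (Nat.nth Nat.Prime k : ℝ) := by
    intro k
    have hsum := sum_gind dvFun k 0 (1 / 2)
    have hgind : ∀ u v : ZMod (Nat.nth Nat.Prime k), gind dvFun k 0 (1 / 2) u v =
        if u = 0 then 1 else 0 := by
      intro u v
      unfold gind dvFun
      by_cases hu : u = 0
      · simp [hu]
      · rw [if_neg hu, if_neg hu, if_neg]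
        rw [Set.mem_Ico]; norm_num
    simp only [hgind] at hsum
    have hp : (0 : ℝ) < (Nat.nth Nat.Prime k : ℝ) := by exact_mod_cast NeZero.pos _
    simp only [Finset.sum_const, Finset.card_univ, ZMod.card, nsmul_eq_mul,
      ← Finset.mul_sum] at hsum
    rw [Finset.sum_ite_eq' Finset.univ (0 : ZMod (Nat.nth Nat.Prime k)) (fun _ => (1 : ℝ)),
      if_pos (Finset.mem_univ _)] at hsum
    have h1 : (Nat.nth Nat.Prime k : ℝ) ^ 2 * glaw dvFun k (Set.Ico 0 (1 / 2)) =
        (Nat.nth Nat.Prime k : ℝ) ^ 2 * (1 / (Nat.nth Nat.Prime k : ℝ)) := by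
      rw [← hsum]; field_simp
    exact mul_left_cancel₀ (by positivity) h1
  have h1 : gdev dvFun 1 (fun _ => 0) (fun _ => 1 / 2) K d b =
      (divCount K d : ℝ) - ∑ k ∈ range K, 1 / (Nat.nth Nat.Prime k : ℝ) := by
    rw [gdev_int]
    simp only [Fin.prod_univ_one, Fin.val_zero, Fin.isValue, add_zero, hlaw]
    rw [Finset.sum_sub_distrib]
    congr 1
    unfold divCount
    rw [Finset.card_filter]
    push_cast
    refine Finset.sum_congr rfl (fun k _ => ?_)
    unfold gind dvFun
    by_cases hu : ((d : ℤ) : ZMod (Nat.nth Nat.Prime k)) = 0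
    · simp [hu]
    · rw [if_neg hu, if_neg hu, if_neg]
      rw [Set.mem_Ico]; norm_num
  have h2 := sum_inv_prime K
  have h3 := le_abs_self (gdev dvFun 1 (fun _ => 0) (fun _ => 1 / 2) K d b)
  linarith

lemma divCount_add (K s : ℕ) (d : ℤ) : divCount (K + s) d ≤ divCount K d + s := by
  classical
  unfold divCount
  rw [Finset.range_eq_Ico, ← Finset.Ico_union_Ico_eq_Ico (Nat.zero_le K) (Nat.le_add_right K s),
    Finset.filter_union]
  refine (Finset.card_union_le _ _).trans ?_
  have : ((Ico K (K + s)).filter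
      (fun k => ((d : ℤ) : ZMod (Nat.nth Nat.Prime k)) = 0)).card ≤ s := by
    refine (Finset.card_filter_le _ _).trans ?_
    simp
  have h2 : Ico 0 K = range K := (Finset.range_eq_Ico K).symm
  rw [h2]
  omega

/-- The windows meeting a set of exceptional indices. -/
lemma window_count (K s k1 : ℕ) (Q : ℕ → Prop) [DecidablePred Q] :
    ((range K).filter (fun k => ∃ i : Fin s, k + (i : ℕ) < k1 ∨ Q (k + i))).card ≤
      k1 + s * ((range (K + s)).filter Q).card := by
  classical
  have hsub : (range K).filter (fun k => ∃ i : Fin s, k + (i : ℕ) < k1 ∨ Q (k + i)) ⊆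
      range k1 ∪ (Finset.univ : Finset (Fin s)).biUnion (fun i =>
        (range K).filter (fun k => Q (k + i))) := by
    intro k hk
    rw [Finset.mem_filter] at hk
    obtain ⟨hk1, i, h | h⟩ := hk
    · exact Finset.mem_union_left _ (Finset.mem_range.mpr (by omega))
    · refine Finset.mem_union_right _ ?_
      rw [Finset.mem_biUnion]
      exact ⟨i, Finset.mem_univ _, Finset.mem_filter.mpr ⟨hk1, h⟩⟩
  refine (Finset.card_le_card hsub).trans ((Finset.card_union_le _ _).trans ?_)
  rw [Finset.card_range]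
  refine Nat.add_le_add_left ?_ _
  refine Finset.card_biUnion_le.trans ?_
  have h1 : ∀ i ∈ (Finset.univ : Finset (Fin s)),
      ((range K).filter (fun k => Q (k + i))).card ≤ ((range (K + s)).filter Q).card := by
    intro i _
    apply Finset.card_le_card_of_injOn (fun k => k + (i : ℕ))
    · intro k hk
      rw [Finset.mem_coe, Finset.mem_filter, Finset.mem_range] at hk
      rw [Finset.mem_coe, Finset.mem_filter, Finset.mem_range]
      have := i.2
      have h5 : k + (i : ℕ) < K + s := by omega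
      exact ⟨h5, hk.2⟩
    · intro k _ l _ hkl
      exact Nat.add_right_cancel hkl
  refine (Finset.sum_le_sum h1).trans ?_
  simp

/-- The tuples of a twist in a box are counted by the folded count of the curve. -/
theorem twist_near (s : ℕ) (a b : ℤ) (hab : a ≠ 0 ∨ b ≠ 0) (K k1 : ℕ) (hk1 : 2 ≤ k1)
    (hk1' : a.natAbs + b.natAbs ≤ k1) (d c : ℤ) (α β : Fin s → ℝ) :
    |(boxCount (shortCurve ((d ^ 2 * a : ℤ) : ℚ) ((d ^ 3 * b : ℤ) : ℚ)) α β K : ℝ) -
      ∑ k ∈ range K, ∏ i : Fin s,
        foldInd (angle (shortCurve (a : ℚ) (b : ℚ)) (k + i)) (α i) (β i)| ≤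
      2 * k1 + s * divCount (K + s) d + |gdev (twFun a b) s α β K d c| +
        2 * s * √((K + s : ℕ) : ℝ) := by
  classical
  set E := shortCurve (a : ℚ) (b : ℚ) with hE
  set Ed := shortCurve ((d ^ 2 * a : ℤ) : ℚ) ((d ^ 3 * b : ℤ) : ℚ) with hEd
  -- primes beyond k1 do not divide both
  have hnd : ∀ k, k1 ≤ k → ¬ (((a : ℤ) : ZMod (Nat.nth Nat.Prime k)) = 0 ∧
      ((b : ℤ) : ZMod (Nat.nth Nat.Prime k)) = 0) := by
    rintro k hk ⟨h1, h2⟩
    rw [ZMod.intCast_zmod_eq_zero_iff_dvd] at h1 h2
    have hlt := lt_nth_prime k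
    have hz : ∀ z : ℤ, z ≠ 0 → ((Nat.nth Nat.Prime k : ℕ) : ℤ) ∣ z → z.natAbs ≤ k1 → False := by
      intro z hz hdv hle
      have h3 := Int.natAbs_dvd_natAbs.mpr hdv
      rw [Int.natAbs_natCast] at h3
      have h4 := Nat.le_of_dvd (Int.natAbs_pos.mpr hz) h3
      omega
    rcases hab with h | h
    · exact hz a h h1 (by omega)
    · exact hz b h h2 (by omega)
  have hangE : ∀ k, k1 ≤ k → angle E k = redAngle (Nat.nth Nat.Prime k) a b := by
    intro k hk
    exact angle_eq a b k (by omega) (hnd k hk)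
  have hangEd : ∀ k, k1 ≤ k → ((d : ℤ) : ZMod (Nat.nth Nat.Prime k)) ≠ 0 →
      angle Ed k = twFun a b k d c := by
    intro k hk hd
    have hno : ¬ (((d ^ 2 * a : ℤ) : ZMod (Nat.nth Nat.Prime k)) = 0 ∧
        ((d ^ 3 * b : ℤ) : ZMod (Nat.nth Nat.Prime k)) = 0) := by
      rintro ⟨h1, h2⟩
      push_cast at h1 h2
      apply hnd k hk
      constructor
      · rcases mul_eq_zero.mp h1 with h3 | h3
        · exact absurd h3 (pow_ne_zero 2 hd)
        · exact h3
      · rcases mul_eq_zero.mp h2 with h3 | h3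
        · exact absurd h3 (pow_ne_zero 3 hd)
        · exact h3
    have h1 := angle_eq (d ^ 2 * a) (d ^ 3 * b) k (by omega) hno
    rw [hEd, h1]
    unfold twFun
    rw [if_neg hd]
    push_cast
    rfl
  -- step 1: from the true count to the local functions
  have hprod : ∀ k, ∏ i : Fin s, gind (twFun a b) (k + i) (α i) (β i) d c =
      if (∀ i : Fin s, twFun a b (k + i) d c ∈ Set.Ico (α i) (β i)) then (1 : ℝ) else 0 := by
    intro k
    unfold gind
    split_ifs with h
    · exact Finset.prod_eq_one (fun i _ => if_pos (h i))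
    · push Not at h
      obtain ⟨i, hi⟩ := h
      exact Finset.prod_eq_zero (Finset.mem_univ i) (if_neg hi)
  have hbc : (boxCount Ed α β K : ℝ) = ∑ k ∈ range K,
      (if (fun i : Fin s => angle Ed (k + i)) ∈ box α β then (1 : ℝ) else 0) := by
    unfold boxCount
    rw [Finset.card_filter]
    push_cast
    refine Finset.sum_congr rfl (fun k _ => ?_)
    congr
  have hstep1 : |(boxCount Ed α β K : ℝ) -
      ∑ k ∈ range K, ∏ i : Fin s, gind (twFun a b) (k + i) (α i) (β i) d c| ≤
      k1 + s * divCount (K + s) d := by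
    rw [hbc, ← Finset.sum_sub_distrib]
    have hterm : ∀ k ∈ range K, |(if (fun i : Fin s => angle Ed (k + i)) ∈ box α β
        then (1 : ℝ) else 0) - ∏ i : Fin s, gind (twFun a b) (k + i) (α i) (β i) d c| ≤
        if (∃ i : Fin s, k + (i : ℕ) < k1 ∨
          ((d : ℤ) : ZMod (Nat.nth Nat.Prime (k + i))) = 0) then 1 else 0 := by
      intro k _
      rw [hprod]
      by_cases hex : ∃ i : Fin s, k + (i : ℕ) < k1 ∨
          ((d : ℤ) : ZMod (Nat.nth Nat.Prime (k + i))) = 0
      · rw [if_pos hex]
        split_ifs <;> norm_num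
      · rw [if_neg hex]
        push Not at hex
        have h2 : ((fun i : Fin s => angle Ed (k + i)) ∈ box α β) ↔
            (∀ i : Fin s, twFun a b (k + i) d c ∈ Set.Ico (α i) (β i)) := by
          unfold box
          rw [Set.mem_univ_pi]
          refine forall_congr' (fun i => ?_)
          rw [hangEd (k + i) (hex i).1 (hex i).2]
        simp only [h2, sub_self, abs_zero, le_refl]
    refine (Finset.abs_sum_le_sum_abs _ _).trans ((Finset.sum_le_sum hterm).trans ?_)
    rw [← Finset.sum_filter, Finset.sum_const, nsmul_eq_mul, mul_one]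
    have hw := window_count K s k1 (fun k => ((d : ℤ) : ZMod (Nat.nth Nat.Prime k)) = 0)
    have hw' : (((range K).filter (fun k => ∃ i : Fin s, k + (i : ℕ) < k1 ∨
        ((d : ℤ) : ZMod (Nat.nth Nat.Prime (k + i))) = 0)).card : ℝ) ≤
        ((k1 + s * divCount (K + s) d : ℕ) : ℝ) := by
      have hdc : divCount (K + s) d = ((range (K + s)).filter
        (fun k => ((d : ℤ) : ZMod (Nat.nth Nat.Prime k)) = 0)).card := by
        unfold divCount; congr
      rw [hdc]
      exact_mod_cast hw
    push_cast at hw'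
    exact hw'
  -- step 2: the deviation
  have hstep2 : ∑ k ∈ range K, ∏ i : Fin s, gind (twFun a b) (k + i) (α i) (β i) d c -
      ∑ k ∈ range K, ∏ i : Fin s, glaw (twFun a b) (k + i) (Set.Ico (α i) (β i)) =
      gdev (twFun a b) s α β K d c := by
    rw [gdev_int, Finset.sum_sub_distrib]
  -- step 3: from the law to the fold
  have hstep3 : |∑ k ∈ range K, ∏ i : Fin s, glaw (twFun a b) (k + i) (Set.Ico (α i) (β i)) -
      ∑ k ∈ range K, ∏ i : Fin s, foldInd (angle E (k + i)) (α i) (β i)| ≤
      k1 + 2 * s * √((K + s : ℕ) : ℝ) := by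
    rw [← Finset.sum_sub_distrib]
    have hterm : ∀ k ∈ range K, |∏ i : Fin s, glaw (twFun a b) (k + i) (Set.Ico (α i) (β i)) -
        ∏ i : Fin s, foldInd (angle E (k + i)) (α i) (β i)| ≤
        (if k < k1 then 1 else 0) + ∑ i : Fin s, 1 / (Nat.nth Nat.Prime (k + i) : ℝ) := by
      intro k _
      have hsum0 : 0 ≤ ∑ i : Fin s, 1 / (Nat.nth Nat.Prime (k + i) : ℝ) :=
        Finset.sum_nonneg (fun i _ => by positivity)
      by_cases hkk : k < k1
      · rw [if_pos hkk]
        have u1 := Finset.prod_nonneg (s := Finset.univ) (f := fun i : Fin s =>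
          glaw (twFun a b) (k + i) (Set.Ico (α i) (β i))) (fun i _ => glaw_nonneg _ _ _)
        have u2 := Finset.prod_le_one (s := Finset.univ) (f := fun i : Fin s =>
          glaw (twFun a b) (k + i) (Set.Ico (α i) (β i))) (fun i _ => glaw_nonneg _ _ _)
          (fun i _ => glaw_le_one _ _ _)
        have u3 := Finset.prod_nonneg (s := Finset.univ) (f := fun i : Fin s =>
          foldInd (angle E (k + i)) (α i) (β i)) (fun i _ => (foldInd_unit _ _ _).1)
        have u4 := Finset.prod_le_one (s := Finset.univ) (f := fun i : Fin s =>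
          foldInd (angle E (k + i)) (α i) (β i)) (fun i _ => (foldInd_unit _ _ _).1)
          (fun i _ => (foldInd_unit _ _ _).2)
        rw [abs_le]
        constructor <;> linarith
      · rw [if_neg hkk, zero_add]
        refine (abs_prod_sub_prod Finset.univ _ _
          (fun i _ => ⟨glaw_nonneg _ _ _, glaw_le_one _ _ _⟩)
          (fun i _ => foldInd_unit _ _ _)).trans ?_
        refine Finset.sum_le_sum (fun i _ => ?_)
        rw [hangE (k + i) (by omega)]
        exact tw_law a b (k + i) (by omega) (α i) (β i)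
    refine (Finset.abs_sum_le_sum_abs _ _).trans ((Finset.sum_le_sum hterm).trans ?_)
    rw [Finset.sum_add_distrib]
    refine add_le_add ?_ ?_
    · rw [← Finset.sum_filter, Finset.sum_const, nsmul_eq_mul, mul_one]
      have h4 : ((range K).filter (fun k => k < k1)).card ≤ k1 := by
        have : (range K).filter (fun k => k < k1) ⊆ range k1 := by
          intro k hk
          rw [Finset.mem_filter] at hk
          exact Finset.mem_range.mpr hk.2
        simpa using Finset.card_le_card this
      exact_mod_cast h4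
    · rw [Finset.sum_comm]
      have h1 : ∀ i ∈ (Finset.univ : Finset (Fin s)),
          ∑ k ∈ range K, 1 / (Nat.nth Nat.Prime (k + i) : ℝ) ≤
          ∑ k ∈ range (K + s), 1 / (Nat.nth Nat.Prime k : ℝ) := by
        intro i _
        have h2 : ∑ k ∈ range K, 1 / (Nat.nth Nat.Prime (k + i) : ℝ) =
            ∑ k ∈ (range K).image (fun k => k + (i : ℕ)), 1 / (Nat.nth Nat.Prime k : ℝ) := by
          rw [Finset.sum_image]
          intro k _ l _ hkl
          exact Nat.add_right_cancel hkl
        rw [h2]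
        apply Finset.sum_le_sum_of_subset_of_nonneg
        · intro k hk
          rw [Finset.mem_image] at hk
          obtain ⟨l, hl, rfl⟩ := hk
          rw [Finset.mem_range] at hl ⊢
          have := i.2
          omega
        · intro k _ _
          positivity
      refine (Finset.sum_le_sum h1).trans ?_
      rw [Finset.sum_const, Finset.card_univ, Fintype.card_fin, nsmul_eq_mul]
      have h3 := sum_inv_prime (K + s)
      have h4 : (0 : ℝ) ≤ s := Nat.cast_nonneg _
      nlinarith
  have t1 := abs_le.mp hstep1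
  have t3 := abs_le.mp hstep3
  have t2 := abs_le.mp (le_refl |gdev (twFun a b) s α β K d c|)
  rw [abs_le]
  constructor <;> linarith [t1.1, t1.2, t3.1, t3.2, t2.1, t2.2]

end Pool.Agent.H11.STA
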