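import Mathlib
import Pool.Agent.H11.STA.TwistFam

/-!
# The discrepancy of almost all quadratic twists
-/

namespace Pool.Agent.H11.STA

open Finset MeasureTheory

open Classical in
/-- From pairs to first coordinates. -/
lemma card_first (D : ℤ) (X : ℕ) (P : ℤ → ℤ → Prop) (η : ℝ)
    (h : (((curveBox D 0 X X).filter (fun w => ¬ P w.1 w.2)).card : ℝ) ≤ η * (X * X)) :
    (((Ico D (D + X)).filter (fun d => ∀ c ∈ Ico (0 : ℤ) (0 + X), ¬ P d c)).card : ℝ) ≤
      η * X := by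
  rcases Nat.eq_zero_or_pos X with rfl | hX
  · simp
  have hXR : (0 : ℝ) < X := by exact_mod_cast hX
  set T := (Ico D (D + X)).filter (fun d => ∀ c ∈ Ico (0 : ℤ) (0 + X), ¬ P d c) with hT
  have hsub : T ×ˢ Ico (0 : ℤ) (0 + X) ⊆ (curveBox D 0 X X).filter (fun w => ¬ P w.1 w.2) := by
    intro w hw
    simp only [hT, Finset.mem_product, Finset.mem_filter] at hw
    rw [Finset.mem_filter]
    refine ⟨?_, hw.1.2 _ hw.2⟩
    unfold curveBox
    exact Finset.mem_product.mpr ⟨hw.1.1, hw.2⟩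
  have h1 : (T.card : ℝ) * X ≤ η * (X * X) := by
    refine le_trans ?_ h
    have h2 := Finset.card_le_card hsub
    rw [Finset.card_product, Int.card_Ico] at h2
    have h3 : (0 + (X : ℤ) - 0).toNat = X := by simp
    rw [h3] at h2
    exact_mod_cast h2
  have h2 : (T.card : ℝ) * X ≤ (η * X) * X := by linarith
  exact le_of_mul_le_mul_right h2 hXR

/-- The discrepancies of a twist and the folded discrepancy of the curve. -/
lemma disc_near (E E' : WeierstrassCurve ℚ) (s K : ℕ) (e : ℝ)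
    (h : ∀ α β : Fin s → ℝ, |(boxCount E' α β K : ℝ) / K - foldCount E α β K| ≤ e) :
    |extremeDisc E' s K - foldDisc E s K| ≤ e := by
  have hbdd : BddAbove {r | ∃ a b : Fin s → ℝ, (∀ i, 0 ≤ a i ∧ a i ≤ b i ∧ b i ≤ 1) ∧
      r = |foldCount E a b K - (Measure.pi (fun _ : Fin s => satoTate)).real (box a b)|} := by
    refine ⟨e + 1, ?_⟩
    rintro r ⟨α, β, hab, rfl⟩
    have h1 := h α β
    have h2 := boxFrac E' α β K
    have h3 : 0 ≤ (Measure.pi (fun _ : Fin s => satoTate)).real (box α β) := measureReal_nonneg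
    have h4 : (Measure.pi (fun _ : Fin s => satoTate)).real (box α β) ≤ 1 := measureReal_le_one
    have h5 := abs_le.mp h1
    rw [abs_le]
    constructor <;> linarith [h5.1, h5.2, h2.1, h2.2]
  have h1 : extremeDisc E' s K ≤ foldDisc E s K + e := by
    unfold extremeDisc
    refine csSup_le ?_ ?_
    · exact ⟨_, fun _ => 0, fun _ => 1, fun _ => ⟨le_rfl, zero_le_one, le_rfl⟩, rfl⟩
    rintro r ⟨α, β, hab, rfl⟩
    have h2 := h α β
    have h3 : |foldCount E α β K - (Measure.pi (fun _ : Fin s => satoTate)).real (box α β)| ≤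
        foldDisc E s K := le_csSup hbdd ⟨α, β, hab, rfl⟩
    unfold localDisc
    have h4 := abs_sub_le ((boxCount E' α β K : ℝ) / K) (foldCount E α β K)
      ((Measure.pi (fun _ : Fin s => satoTate)).real (box α β))
    linarith
  have h2 : foldDisc E s K ≤ extremeDisc E' s K + e := by
    unfold foldDisc
    refine csSup_le ?_ ?_
    · exact ⟨_, fun _ => 0, fun _ => 1, fun _ => ⟨le_rfl, zero_le_one, le_rfl⟩, rfl⟩
    rintro r ⟨α, β, hab, rfl⟩
    have h2 := h α β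
    have h3 : localDisc E' α β K ≤ extremeDisc E' s K := le_csSup (extreme_bdd E' s K)
      ⟨α, β, hab, rfl⟩
    unfold localDisc at h3
    have h4 := abs_sub_le (foldCount E α β K) ((boxCount E' α β K : ℝ) / K)
      ((Measure.pi (fun _ : Fin s => satoTate)).real (box α β))
    rw [abs_sub_comm (foldCount E α β K) ((boxCount E' α β K : ℝ) / K)] at h4
    linarith
  rw [abs_le]
  constructor <;> linarith

open Classical in
/-- Almost all twists have discrepancy close to the folded discrepancy of the curve. -/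
theorem twist_all (a b : ℤ) (hab : a ≠ 0 ∨ b ≠ 0) (s : ℕ) (hs : 1 ≤ s) (ε η : ℝ) (hε : 0 < ε)
    (hη : 0 < η) :
    ∃ C : ℝ, 0 < C ∧ ∀ (D : ℤ) (X : ℕ),
      (((Ico D (D + X)).filter (fun d => ¬ ∀ K : ℕ, 1 ≤ K → (K : ℝ) ^ C ≤ (X : ℝ) →
        |extremeDisc (shortCurve ((d ^ 2 * a : ℤ) : ℚ) ((d ^ 3 * b : ℤ) : ℚ)) s K -
          foldDisc (shortCurve (a : ℚ) (b : ℚ)) s K| ≤
          C * (K : ℝ) ^ (ε - 1 / 2))).card : ℝ) ≤ η * X := by
  obtain ⟨C1, hC1, hdev1⟩ := gdev_all s hs ε (η / 2) hε (by positivity)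
  obtain ⟨C2, hC2, hdev2⟩ := gdev_all 1 le_rfl ε (η / 2) hε (by positivity)
  set k1 : ℕ := a.natAbs + b.natAbs + 2 with hk1
  set C : ℝ := C1 + C2 + (2 * k1 + s ^ 2 + s * (C2 + 2) + C1 + 2 * s * (1 + s)) with hC
  have hs0 : (0 : ℝ) ≤ s := Nat.cast_nonneg _
  have hk0 : (0 : ℝ) ≤ k1 := Nat.cast_nonneg _
  have hinner : 0 ≤ 2 * (k1 : ℝ) + s ^ 2 + s * (C2 + 2) + C1 + 2 * s * (1 + s) := by positivity
  have hCC1 : C1 ≤ C := by linarith
  have hCC2 : C2 ≤ C := by linarith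
  refine ⟨C, by positivity, fun D X => ?_⟩
  set P1 : ℤ → ℤ → Prop := fun d c => ∀ K : ℕ, 1 ≤ K → (K : ℝ) ^ C1 ≤ min (X : ℝ) X →
    ∀ α β : Fin s → ℝ, |gdev (twFun a b) s α β K d c| ≤ C1 * (K : ℝ) ^ (1 / 2 + ε) with hP1
  set P2 : ℤ → ℤ → Prop := fun d c => ∀ K : ℕ, 1 ≤ K → (K : ℝ) ^ C2 ≤ min (X : ℝ) X →
    ∀ α β : Fin 1 → ℝ, |gdev dvFun 1 α β K d c| ≤ C2 * (K : ℝ) ^ (1 / 2 + ε) with hP2
  have hT1 := card_first D X P1 (η / 2) (hdev1 (twFun a b) (twFun_le_one a b) D 0 X X)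
  have hT2 := card_first D X P2 (η / 2) (hdev2 dvFun dvFun_le_one D 0 X X)
  set T1 := (Ico D (D + X)).filter (fun d => ∀ c ∈ Ico (0 : ℤ) (0 + X), ¬ P1 d c) with hT1d
  set T2 := (Ico D (D + X)).filter (fun d => ∀ c ∈ Ico (0 : ℤ) (0 + X), ¬ P2 d c) with hT2d
  have hsub : (Ico D (D + X)).filter (fun d => ¬ ∀ K : ℕ, 1 ≤ K → (K : ℝ) ^ C ≤ (X : ℝ) →
        |extremeDisc (shortCurve ((d ^ 2 * a : ℤ) : ℚ) ((d ^ 3 * b : ℤ) : ℚ)) s K -
          foldDisc (shortCurve (a : ℚ) (b : ℚ)) s K| ≤ C * (K : ℝ) ^ (ε - 1 / 2)) ⊆ T1 ∪ T2 := by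
    intro d hd
    rw [Finset.mem_filter] at hd
    obtain ⟨hdI, hnot⟩ := hd
    rw [Finset.mem_union]
    by_contra hcon
    push Not at hcon
    obtain ⟨hn1, hn2⟩ := hcon
    apply hnot
    intro K hK hKC
    have hKR : (1 : ℝ) ≤ K := by exact_mod_cast hK
    have hKpos : (0 : ℝ) < K := by linarith
    obtain ⟨c1, -, hc1⟩ : ∃ c ∈ Ico (0 : ℤ) (0 + X), P1 d c := by
      by_contra hno
      push Not at hno
      apply hn1
      simp only [hT1d, Finset.mem_filter]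
      exact ⟨hdI, hno⟩
    obtain ⟨c2, -, hc2⟩ : ∃ c ∈ Ico (0 : ℤ) (0 + X), P2 d c := by
      by_contra hno
      push Not at hno
      apply hn2
      simp only [hT2d, Finset.mem_filter]
      exact ⟨hdI, hno⟩
    have hKC1 : (K : ℝ) ^ C1 ≤ min (X : ℝ) X := by
      rw [min_self]
      exact (Real.rpow_le_rpow_of_exponent_le hKR hCC1).trans hKC
    have hKC2 : (K : ℝ) ^ C2 ≤ min (X : ℝ) X := by
      rw [min_self]
      exact (Real.rpow_le_rpow_of_exponent_le hKR hCC2).trans hKC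
    have h1 := hc1 K hK hKC1
    have h2 := hc2 K hK hKC2 (fun _ => 0) (fun _ => 1 / 2)
    set R : ℝ := (K : ℝ) ^ (1 / 2 + ε) with hR
    have hR0 : 0 < R := Real.rpow_pos_of_pos hKpos _
    have hsqrt : √(K : ℝ) ≤ R := by
      rw [Real.sqrt_eq_rpow]
      exact Real.rpow_le_rpow_of_exponent_le hKR (by linarith)
    have hR1 : 1 ≤ R := by
      refine le_trans ?_ hsqrt
      rw [Real.one_le_sqrt]; exact hKR
    have hdc : (divCount (K + s) d : ℝ) ≤ C2 * R + 2 * R + s := by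
      have e1 := divCount_le K d c2
      have e2 : (divCount (K + s) d : ℝ) ≤ divCount K d + s := by
        exact_mod_cast divCount_add K s d
      linarith
    have hsq : √((K + s : ℕ) : ℝ) ≤ (1 + s) * R := by
      have e1 : ((K + s : ℕ) : ℝ) ≤ (1 + s) ^ 2 * K := by
        push_cast
        nlinarith
      calc √((K + s : ℕ) : ℝ) ≤ √((1 + s) ^ 2 * K) := Real.sqrt_le_sqrt e1
        _ = (1 + s) * √(K : ℝ) := by
            rw [Real.sqrt_mul (by positivity), Real.sqrt_sq (by positivity)]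
        _ ≤ (1 + s) * R := mul_le_mul_of_nonneg_left hsqrt (by positivity)
    have hRK : R / K = (K : ℝ) ^ (ε - 1 / 2) := by
      rw [hR, ← Real.rpow_sub_one hKpos.ne']
      congr 1; ring
    apply disc_near
    intro α β
    have h3 := twist_near s a b hab K k1 (by omega) (by omega) d c1 α β
    have h4 := h1 α β
    have h5 : 2 * (k1 : ℝ) + s * divCount (K + s) d + |gdev (twFun a b) s α β K d c1| +
        2 * s * √((K + s : ℕ) : ℝ) ≤
        (2 * k1 + s ^ 2 + s * (C2 + 2) + C1 + 2 * s * (1 + s)) * R := by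
      have f1 : 2 * (k1 : ℝ) ≤ 2 * k1 * R := le_mul_of_one_le_right (by positivity) hR1
      have f2 : (s : ℝ) * divCount (K + s) d ≤ s * (C2 * R + 2 * R + s) :=
        mul_le_mul_of_nonneg_left hdc hs0
      have f3 : (s : ℝ) * s ≤ s * s * R := le_mul_of_one_le_right (by positivity) hR1
      have f4 : 2 * (s : ℝ) * √((K + s : ℕ) : ℝ) ≤ 2 * s * ((1 + s) * R) :=
        mul_le_mul_of_nonneg_left hsq (by positivity)
      nlinarith
    have h6 : (boxCount (shortCurve ((d ^ 2 * a : ℤ) : ℚ) ((d ^ 3 * b : ℤ) : ℚ)) α β K : ℝ) / K -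
        foldCount (shortCurve (a : ℚ) (b : ℚ)) α β K =
        ((boxCount (shortCurve ((d ^ 2 * a : ℤ) : ℚ) ((d ^ 3 * b : ℤ) : ℚ)) α β K : ℝ) -
        ∑ k ∈ range K, ∏ i : Fin s,
          foldInd (angle (shortCurve (a : ℚ) (b : ℚ)) (k + i)) (α i) (β i)) / K := by
      unfold foldCount foldInd
      rw [sub_div]
    rw [h6, abs_div, abs_of_pos hKpos]
    calc |(boxCount (shortCurve ((d ^ 2 * a : ℤ) : ℚ) ((d ^ 3 * b : ℤ) : ℚ)) α β K : ℝ) -
        ∑ k ∈ range K, ∏ i : Fin s,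
          foldInd (angle (shortCurve (a : ℚ) (b : ℚ)) (k + i)) (α i) (β i)| / K
        ≤ ((2 * k1 + s ^ 2 + s * (C2 + 2) + C1 + 2 * s * (1 + s)) * R) / K :=
          div_le_div_of_nonneg_right (h3.trans h5) hKpos.le
      _ = (2 * k1 + s ^ 2 + s * (C2 + 2) + C1 + 2 * s * (1 + s)) * (K : ℝ) ^ (ε - 1 / 2) := by
          rw [mul_div_assoc, hRK]
      _ ≤ C * (K : ℝ) ^ (ε - 1 / 2) := by
          refine mul_le_mul_of_nonneg_right ?_ (Real.rpow_pos_of_pos hKpos _).le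
          linarith
  calc (((Ico D (D + X)).filter (fun d => ¬ ∀ K : ℕ, 1 ≤ K → (K : ℝ) ^ C ≤ (X : ℝ) →
        |extremeDisc (shortCurve ((d ^ 2 * a : ℤ) : ℚ) ((d ^ 3 * b : ℤ) : ℚ)) s K -
          foldDisc (shortCurve (a : ℚ) (b : ℚ)) s K| ≤
          C * (K : ℝ) ^ (ε - 1 / 2))).card : ℝ)
      ≤ ((T1 ∪ T2).card : ℝ) := by exact_mod_cast Finset.card_le_card hsub
    _ ≤ (T1.card : ℝ) + T2.card := by exact_mod_cast Finset.card_union_le _ _
    _ ≤ η / 2 * X + η / 2 * X := add_le_add hT1 hT2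
    _ = η * X := by ring

end Pool.Agent.H11.STA
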